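import Mathlib

set_option autoImplicit false

namespace Pool.Agent.Helper27.Cube

/-- Hamming weight of a point of the cube. -/
def wt {ι : Type} [Fintype ι] (x : ι → Bool) : ℕ :=
  (Finset.univ.filter (fun i => x i = true)).card

/-- Coordinatewise exclusive or. -/
def xr {ι : Type} (x y : ι → Bool) : ι → Bool := fun i => xor (x i) (y i)

end Pool.Agent.Helper27.Cube
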