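import Mathlib
import Pool.Agent.Helper27.Cube.Defs

set_option autoImplicit false

namespace Pool.Agent.Helper27.Cube

open Finset

/-- The number of points of weight `j`. -/
theorem card_wt_eq {ι : Type} [Fintype ι] [DecidableEq ι] (j : ℕ) :
    (univ.filter (fun x : ι → Bool => wt x = j)).card = (Fintype.card ι).choose j := by
  rw [← card_univ, ← card_powersetCard]
  refine card_bij' (fun x _ => univ.filter (fun i => x i = true)) (fun s _ i => decide (i ∈ s))
    ?_ ?_ ?_ ?_
  · intro x hx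
    rw [mem_filter] at hx
    rw [mem_powersetCard]
    exact ⟨subset_univ _, hx.2⟩
  · intro s hs
    rw [mem_powersetCard] at hs
    rw [mem_filter]
    refine ⟨mem_univ _, ?_⟩
    unfold wt
    rw [← hs.2]
    congr 1
    ext i
    simp
  · intro x _
    funext i
    simp
  · intro s _
    ext i
    simp

theorem card_ball (N t : ℕ) :
    (univ.filter (fun x : Fin N → Bool => wt x ≤ t)).card
      = ∑ j ∈ range (t + 1), N.choose j := by
  classical
  have h : ∀ x ∈ univ.filter (fun x : Fin N → Bool => wt x ≤ t), wt x ∈ range (t + 1) := by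
    intro x hx
    rw [mem_filter] at hx
    rw [mem_range]
    omega
  rw [card_eq_sum_card_fiberwise h]
  apply sum_congr rfl
  intro j hj
  rw [mem_range] at hj
  rw [filter_filter]
  have h2 : univ.filter (fun x : Fin N → Bool => wt x ≤ t ∧ wt x = j)
      = univ.filter (fun x : Fin N → Bool => wt x = j) := by
    apply filter_congr
    intro x _
    constructor
    · exact fun h => h.2
    · exact fun h => ⟨by omega, h⟩
  rw [h2, card_wt_eq, Fintype.card_fin]

/-- `± 1/2` valued coordinate. -/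
noncomputable def hs (b : Bool) : ℝ := if b then 1 / 2 else - (1 / 2)

theorem hs_not (b : Bool) : hs (!b) = - hs b := by
  cases b <;> simp [hs]

theorem hs_mul_self (b : Bool) : hs b * hs b = 1 / 4 := by
  cases b <;> norm_num [hs]

theorem wt_sub (m : ℕ) (x : Fin m → Bool) : (wt x : ℝ) - m / 2 = ∑ i, hs (x i) := by
  have h1 : (wt x : ℝ) = ∑ i, (if x i = true then (1 : ℝ) else 0) := by
    unfold wt
    rw [card_eq_sum_ones, sum_filter]
    push_cast
    rfl
  have h2 : (m : ℝ) / 2 = ∑ _i : Fin m, (1 / 2 : ℝ) := by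
    rw [sum_const, card_univ, Fintype.card_fin, nsmul_eq_mul]
    ring
  rw [h1, h2, ← sum_sub_distrib]
  apply sum_congr rfl
  intro i _
  cases x i <;> norm_num [hs]

theorem sum_hs_mul (m : ℕ) (i j : Fin m) :
    ∑ x : Fin m → Bool, hs (x i) * hs (x j) = if i = j then (2 : ℝ) ^ m * (1 / 4) else 0 := by
  classical
  by_cases hij : i = j
  · subst hij
    rw [if_pos rfl]
    simp only [hs_mul_self]
    rw [sum_const, card_univ, Fintype.card_fun, Fintype.card_bool, Fintype.card_fin, nsmul_eq_mul]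
    push_cast
    ring
  · rw [if_neg hij]
    let e : (Fin m → Bool) → (Fin m → Bool) := fun x => Function.update x i (!x i)
    have he : Function.Involutive e := by
      intro x
      simp only [e]
      funext k
      by_cases hk : k = i
      · subst hk; simp
      · simp [hk]
    have h1 : ∑ x : Fin m → Bool, hs (x i) * hs (x j)
        = ∑ x : Fin m → Bool, hs ((e x) i) * hs ((e x) j) :=
      (Function.Bijective.sum_comp he.bijective (fun x : Fin m → Bool => hs (x i) * hs (x j))).symm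
    have h2 : ∀ x : Fin m → Bool, hs ((e x) i) * hs ((e x) j) = - (hs (x i) * hs (x j)) := by
      intro x
      simp only [e, Function.update_self]
      rw [Function.update_of_ne (Ne.symm hij), hs_not]
      ring
    rw [sum_congr rfl (fun x _ => h2 x), sum_neg_distrib] at h1
    linarith

theorem sum_sq_dev (m : ℕ) :
    ∑ x : Fin m → Bool, ((wt x : ℝ) - m / 2) ^ 2 = (2 : ℝ) ^ m * ((m : ℝ) / 4) := by
  have h1 : ∀ x : Fin m → Bool, ((wt x : ℝ) - m / 2) ^ 2
      = ∑ i, ∑ j, hs (x i) * hs (x j) := by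
    intro x
    rw [wt_sub, sq, sum_mul_sum]
  simp only [h1]
  rw [sum_comm]
  have h2 : ∀ i : Fin m, ∑ x : Fin m → Bool, ∑ j, hs (x i) * hs (x j) = 2 ^ m * (1 / 4) := by
    intro i
    rw [sum_comm]
    simp only [sum_hs_mul]
    rw [sum_ite_eq]
    simp
  simp only [h2]
  rw [sum_const, card_univ, Fintype.card_fin, nsmul_eq_mul]
  ring

theorem sum_abs_dev (m : ℕ) :
    ∑ x : Fin m → Bool, |(wt x : ℝ) - m / 2| ≤ (2 : ℝ) ^ m * (Real.sqrt m / 2) := by
  have h1 : (∑ x : Fin m → Bool, |(wt x : ℝ) - m / 2|) ^ 2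
      ≤ 2 ^ m * ∑ x : Fin m → Bool, |(wt x : ℝ) - m / 2| ^ 2 := by
    have := sq_sum_le_card_mul_sum_sq (s := (univ : Finset (Fin m → Bool)))
      (f := fun x => |(wt x : ℝ) - m / 2|)
    rw [card_univ, Fintype.card_fun, Fintype.card_bool, Fintype.card_fin] at this
    push_cast at this
    exact this
  simp only [sq_abs] at h1
  rw [sum_sq_dev] at h1
  have h2 : (2 : ℝ) ^ m * (2 ^ m * (m / 4)) = (2 ^ m * (Real.sqrt m / 2)) ^ 2 := by
    have : Real.sqrt m ^ 2 = (m : ℝ) := Real.sq_sqrt (Nat.cast_nonneg m)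
    rw [mul_pow, div_pow, this]
    ring
  rw [h2] at h1
  exact (sq_le_sq₀ (sum_nonneg (fun _ _ => abs_nonneg _)) (by positivity)).1 h1

/-- The antipode has complementary weight. -/
theorem wt_not (m : ℕ) (x : Fin m → Bool) : (wt (fun i => !x i) : ℝ) = m - wt x := by
  have h1 := wt_sub m x
  have h2 := wt_sub m (fun i => !x i)
  simp only [hs_not, sum_neg_distrib] at h2
  linarith

theorem card_low (N : ℕ) (hN : 0 < N) (t : ℕ) (ht : (t : ℝ) ≤ (N : ℝ) / 2 - Real.sqrt N) :
    8 * (univ.filter (fun x : Fin N → Bool => wt x ≤ t)).card ≤ 2 ^ N := by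
  classical
  set L := univ.filter (fun x : Fin N → Bool => wt x ≤ t) with hL
  have hN0 : (0 : ℝ) < N := by exact_mod_cast hN
  let c : (Fin N → Bool) → (Fin N → Bool) := fun x i => !x i
  have hc : Function.Injective c := by
    intro x y h
    funext i
    have := congrFun h i
    simpa [c] using this
  have hsq : ∀ x ∈ L ∪ L.image c, (N : ℝ) ≤ ((wt x : ℝ) - N / 2) ^ 2 := by
    intro x hx
    have hs0 : 0 ≤ Real.sqrt N := Real.sqrt_nonneg _
    have hss : Real.sqrt N ^ 2 = (N : ℝ) := Real.sq_sqrt hN0.le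
    rw [mem_union] at hx
    rcases hx with hx | hx
    · rw [hL, mem_filter] at hx
      have : (wt x : ℝ) ≤ t := by exact_mod_cast hx.2
      nlinarith
    · rw [mem_image] at hx
      obtain ⟨y, hy, rfl⟩ := hx
      rw [hL, mem_filter] at hy
      have h1 : (wt y : ℝ) ≤ t := by exact_mod_cast hy.2
      have h2 : (wt (c y) : ℝ) = N - wt y := wt_not N y
      rw [h2]
      nlinarith
  have hdisj : Disjoint L (L.image c) := by
    rw [disjoint_left]
    intro x hx hx'
    rw [mem_image] at hx'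
    obtain ⟨y, hy, rfl⟩ := hx'
    rw [hL, mem_filter] at hx hy
    have h1 : (wt y : ℝ) ≤ t := by exact_mod_cast hy.2
    have h3 : (wt (c y) : ℝ) ≤ t := by exact_mod_cast hx.2
    have h2 : (wt (c y) : ℝ) = N - wt y := wt_not N y
    have hs0 : 0 < Real.sqrt N := Real.sqrt_pos.2 hN0
    linarith
  have h1 : (N : ℝ) * ((L ∪ L.image c).card : ℝ)
      ≤ ∑ x ∈ L ∪ L.image c, ((wt x : ℝ) - N / 2) ^ 2 := by
    rw [mul_comm, ← nsmul_eq_mul]
    exact card_nsmul_le_sum _ _ _ hsq
  have h2 : ∑ x ∈ L ∪ L.image c, ((wt x : ℝ) - N / 2) ^ 2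
      ≤ ∑ x : Fin N → Bool, ((wt x : ℝ) - N / 2) ^ 2 :=
    sum_le_sum_of_subset_of_nonneg (subset_univ _) (fun _ _ _ => sq_nonneg _)
  rw [sum_sq_dev] at h2
  rw [card_union_of_disjoint hdisj, card_image_of_injective _ hc] at h1
  have h3 : (N : ℝ) * ((L.card + L.card : ℕ) : ℝ) ≤ N * (2 ^ N / 4) := by
    calc (N : ℝ) * ((L.card + L.card : ℕ) : ℝ) ≤ 2 ^ N * (N / 4) := h1.trans h2
      _ = N * (2 ^ N / 4) := by ring
  have h4 := le_of_mul_le_mul_left h3 hN0
  push_cast at h4
  have h5 : (8 : ℝ) * L.card ≤ 2 ^ N := by linarith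
  exact_mod_cast h5

theorem threshold_lower (N t : ℕ) (hN : 0 < N)
    (h : 2 ^ N < 4 * ∑ j ∈ range (t + 1), N.choose j) :
    (N : ℝ) / 2 - Real.sqrt N < t := by
  by_contra hc
  push Not at hc
  have h1 := card_low N hN t hc
  rw [card_ball] at h1
  omega

theorem choose_lower (d r : ℕ) (h : 2 * r ≤ d) : d ^ r ≤ 2 ^ r * r.factorial * d.choose r := by
  have h1 : (d + 1 - r) ^ r ≤ d.descFactorial r := Nat.pow_sub_le_descFactorial d r
  rw [Nat.descFactorial_eq_factorial_mul_choose] at h1
  calc d ^ r ≤ (2 * (d + 1 - r)) ^ r := Nat.pow_le_pow_left (by omega) r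
    _ = 2 ^ r * (d + 1 - r) ^ r := by rw [mul_pow]
    _ ≤ 2 ^ r * (r.factorial * d.choose r) := Nat.mul_le_mul_left _ h1
    _ = 2 ^ r * r.factorial * d.choose r := by ring

theorem centralBinom_sq_mul_le (k : ℕ) : k.centralBinom ^ 2 * (2 * k + 1) ≤ 16 ^ k := by
  induction k with
  | zero => simp
  | succ k ih =>
    have h := Nat.succ_mul_centralBinom_succ k
    have h1 : (k + 1) ^ 2 * ((k + 1).centralBinom ^ 2 * (2 * (k + 1) + 1))
        ≤ (k + 1) ^ 2 * 16 ^ (k + 1) := by
      calc (k + 1) ^ 2 * ((k + 1).centralBinom ^ 2 * (2 * (k + 1) + 1))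
          = ((k + 1) * (k + 1).centralBinom) ^ 2 * (2 * k + 3) := by ring
        _ = (2 * (2 * k + 1) * k.centralBinom) ^ 2 * (2 * k + 3) := by rw [h]
        _ = (k.centralBinom ^ 2 * (2 * k + 1)) * (4 * ((2 * k + 1) * (2 * k + 3))) := by ring
        _ ≤ 16 ^ k * (4 * ((2 * k + 1) * (2 * k + 3))) := Nat.mul_le_mul_right _ ih
        _ ≤ 16 ^ k * (16 * (k + 1) ^ 2) := by
            apply Nat.mul_le_mul_left
            nlinarith
        _ = (k + 1) ^ 2 * 16 ^ (k + 1) := by ring
    exact Nat.le_of_mul_le_mul_left h1 (by positivity)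

theorem choose_sq_mul_le (m w : ℕ) : (m.choose w) ^ 2 * (m + 1) ≤ 4 ^ m := by
  rcases Nat.even_or_odd' m with ⟨k, rfl | rfl⟩
  · calc ((2 * k).choose w) ^ 2 * (2 * k + 1) ≤ k.centralBinom ^ 2 * (2 * k + 1) := by
          apply Nat.mul_le_mul_right
          exact Nat.pow_le_pow_left (Nat.choose_le_centralBinom w k) 2
      _ ≤ 16 ^ k := centralBinom_sq_mul_le k
      _ = 4 ^ (2 * k) := by rw [pow_mul]; norm_num
  · have h1 : (2 * k + 1).choose w ≤ (2 * k + 1).choose k := by
      have := Nat.choose_le_middle w (2 * k + 1)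
      have h2 : (2 * k + 1) / 2 = k := by omega
      rwa [h2] at this
    have h3 : 2 * (2 * k + 1).choose k = (k + 1).centralBinom := by
      rw [Nat.centralBinom_eq_two_mul_choose]
      have h4 : 2 * (k + 1) = (2 * k + 1) + 1 := by ring
      rw [h4, Nat.choose_succ_succ' (2 * k + 1) k]
      have h5 : (2 * k + 1).choose (k + 1) = (2 * k + 1).choose k := by
        rw [← Nat.choose_symm_of_eq_add]
        omega
      rw [h5]
      ring
    have h6 := centralBinom_sq_mul_le (k + 1)
    rw [← h3] at h6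
    have h7 : ((2 * k + 1).choose w) ^ 2 ≤ ((2 * k + 1).choose k) ^ 2 :=
      Nat.pow_le_pow_left h1 2
    have h8 : (4 : ℕ) ^ (2 * k + 1) = 4 * 16 ^ k := by
      rw [pow_succ, pow_mul]; norm_num; ring
    have h9 : (16 : ℕ) ^ (k + 1) = 16 * 16 ^ k := by ring
    rw [h8]
    rw [h9] at h6
    nlinarith

theorem threshold_upper (N t : ℕ) (hN : 4 ≤ N)
    (h : 4 * ∑ j ∈ range (t + 1), N.choose j ≤ 2 ^ N) : 2 * (t + 1) < N := by
  by_contra hc
  push Not at hc
  rcases Nat.even_or_odd' N with ⟨k, rfl | rfl⟩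
  · -- even
    obtain ⟨l, rfl⟩ : ∃ l, k = l + 1 := ⟨k - 1, by omega⟩
    have h1 : ∑ j ∈ range (l + 1), (2 * (l + 1)).choose j
        ≤ ∑ j ∈ range (t + 1), (2 * (l + 1)).choose j := by
      apply sum_le_sum_of_subset
      intro j hj
      rw [mem_range] at hj ⊢
      omega
    have h2 : ∑ j ∈ range (l + 1), (2 * (l + 1)).choose j + (2 * l + 1).choose l
        = 2 * 4 ^ l := by
      have h3 := Nat.sum_range_choose_halfway l
      have h4 : 2 * (l + 1) = (2 * l + 1) + 1 := by ring
      rw [h4, sum_range_succ' (fun j => (2 * l + 1 + 1).choose j) l]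
      simp only [Nat.choose_succ_succ' (2 * l + 1), sum_add_distrib, Nat.choose_zero_right]
      have h5 : ∑ j ∈ range (l + 1), (2 * l + 1).choose j
          = ∑ j ∈ range l, (2 * l + 1).choose (j + 1) + 1 := by
        rw [sum_range_succ' (fun j => (2 * l + 1).choose j) l]
        simp
      have h6 : ∑ j ∈ range (l + 1), (2 * l + 1).choose j
          = ∑ j ∈ range l, (2 * l + 1).choose j + (2 * l + 1).choose l :=
        sum_range_succ _ _
      omega
    have h7 : (2 * l + 1).choose l < 4 ^ l := by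
      rcases Nat.lt_or_ge l 2 with hl | hl
      · have : l = 1 := by omega
        subst this
        decide
      · have h8 := choose_sq_mul_le (2 * l + 1) l
        have h9 : (4 : ℕ) ^ (2 * l + 1) = 4 * (4 ^ l) ^ 2 := by
          rw [← pow_mul, pow_succ, mul_comm l 2]; ring
        rw [h9] at h8
        by_contra hcc
        push Not at hcc
        have h10 : (4 ^ l) ^ 2 ≤ ((2 * l + 1).choose l) ^ 2 := Nat.pow_le_pow_left hcc 2
        have h11 : 0 < (4 ^ l) ^ 2 := by positivity
        nlinarith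
    have h12 : (2 : ℕ) ^ (2 * (l + 1)) = 4 * 4 ^ l := by
      rw [pow_mul]; norm_num; ring
    rw [h12] at h
    omega
  · have h1 : ∑ j ∈ range (k + 1), (2 * k + 1).choose j
        ≤ ∑ j ∈ range (t + 1), (2 * k + 1).choose j := by
      apply sum_le_sum_of_subset
      intro j hj
      rw [mem_range] at hj ⊢
      omega
    rw [Nat.sum_range_choose_halfway] at h1
    have h12 : (2 : ℕ) ^ (2 * k + 1) = 2 * 4 ^ k := by
      rw [pow_succ, pow_mul]; norm_num; ring
    rw [h12] at h
    have : 0 < 4 ^ k := by positivity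
    omega

end Pool.Agent.Helper27.Cube
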