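import Mathlib
import Pool.Agent.Helper27.Cube.Defs
import Pool.Agent.Helper27.Cube.Binom

set_option autoImplicit false

namespace Pool.Agent.Helper27.Cube

open Finset

theorem hammingDist_eq_wt {d : ℕ} (x y : Fin d → Bool) : hammingDist x y = wt (xr x y) := by
  unfold hammingDist wt xr
  congr 1
  ext i
  simp only [mem_filter, mem_univ, true_and]
  cases x i <;> cases y i <;> simp

/-- The ball of radius `r` has at least `d.choose r` points. -/
theorem choose_le_ball (d r : ℕ) (c : Fin d → Bool) :
    d.choose r ≤ (univ.filter (fun y : Fin d → Bool => hammingDist y c ≤ r)).card := by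
  classical
  have h0 : (univ.filter (fun x : Fin d → Bool => wt x = r)).card = d.choose r := by
    rw [card_wt_eq, Fintype.card_fin]
  rw [← h0]
  apply card_le_card_of_injOn (fun z => xr z c)
  · intro z hz
    simp only [coe_filter, mem_univ, true_and, Set.mem_ofPred_eq] at hz ⊢
    rw [hammingDist_eq_wt]
    have : xr (xr z c) c = z := by
      funext i
      unfold xr
      cases z i <;> cases c i <;> rfl
    rw [this, hz]
  · intro z _ z' _ h
    funext i
    have h1 := congrFun h i
    simp only [xr] at h1
    revert h1
    cases z i <;> cases z' i <;> cases c i <;> simp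

theorem exists_classes (d r : ℕ) :
    ∃ cl : (Fin d → Bool) → (Fin d → Bool),
      (∀ x y, cl x = cl y → hammingDist x y ≤ 4 * r) ∧
      (∀ x, d.choose r ≤ (Finset.univ.filter (fun y => cl y = cl x)).card) := by
  classical
  -- separated sets
  let P : Finset (Finset (Fin d → Bool)) :=
    univ.filter (fun M => ∀ a ∈ M, ∀ b ∈ M, a ≠ b → 2 * r < hammingDist a b)
  have hPne : P.Nonempty := ⟨∅, by simp [P]⟩
  obtain ⟨M, hM⟩ := P.exists_maximal hPne
  have hMP : ∀ a ∈ M, ∀ b ∈ M, a ≠ b → 2 * r < hammingDist a b := by
    have := hM.prop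
    simp only [P, mem_filter, mem_univ, true_and] at this
    exact this
  have hcover : ∀ x, ∃ c ∈ M, hammingDist x c ≤ 2 * r := by
    intro x
    by_contra hc
    push Not at hc
    have hins : insert x M ∈ P := by
      simp only [P, mem_filter, mem_univ, true_and, mem_insert]
      intro a ha b hb hab
      rcases ha with rfl | ha
      · rcases hb with rfl | hb
        · exact absurd rfl hab
        · exact hc b hb
      · rcases hb with rfl | hb
        · rw [hammingDist_comm]; exact hc a ha
        · exact hMP a ha b hb hab
    have hx : x ∈ M := hM.le_of_ge hins (subset_insert x M) (mem_insert_self x M)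
    have := hc x hx
    rw [hammingDist_self] at this
    omega
  have hex : ∀ x, ∃ c ∈ M, hammingDist x c ≤ 2 * r ∧
      ∀ c' ∈ M, hammingDist x c' ≤ r → c = c' := by
    intro x
    by_cases h : ∃ c ∈ M, hammingDist x c ≤ r
    · obtain ⟨c, hc, hcr⟩ := h
      refine ⟨c, hc, by omega, fun c' hc' hcr' => ?_⟩
      by_contra hne
      have h1 := hMP c hc c' hc' hne
      have h2 := hammingDist_triangle c x c'
      rw [hammingDist_comm c x] at h2
      omega
    · obtain ⟨c, hc, hcr⟩ := hcover x
      exact ⟨c, hc, hcr, fun c' hc' hcr' => absurd ⟨c', hc', hcr'⟩ h⟩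
  choose cl hclM hclr hclu using hex
  refine ⟨cl, ?_, ?_⟩
  · intro x y hxy
    have h1 := hclr x
    have h2 := hclr y
    have h3 := hammingDist_triangle x (cl x) y
    rw [← hxy, hammingDist_comm] at h2
    omega
  · intro x
    refine (choose_le_ball d r (cl x)).trans (card_le_card ?_)
    intro y hy
    simp only [mem_filter, mem_univ, true_and] at hy ⊢
    exact hclu y (cl x) (hclM x) hy

end Pool.Agent.Helper27.Cube
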