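import Pool.Agent.Helper27.Cube.Sampling

set_option autoImplicit false

/-! From seeds to injections defined on almost everything. -/

namespace Pool.Agent.Helper27.Cube

open Finset
open scoped BigOperators

/-- distance of two values, zero when one of them is undefined -/
def zc {X : Type} (d : X → X → ℝ) : Option (X × ℕ) → Option (X × ℕ) → ℝ
  | some z, some z' => d z.1 z'.1
  | _, _ => 0

/-- distance of a point and a value, zero when undefined -/
def zd {X : Type} (d : X → X → ℝ) (x : X) : Option (X × ℕ) → ℝ
  | some z => d x z.1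
  | none => 0

lemma exists_labels {X A : Type} [Fintype X] [DecidableEq X] [Fintype A] [DecidableEq A]
    (o : X → A → Option X) (cap : X → ℕ) :
    ∃ Z : X → A → Option (X × ℕ),
      (∀ x a z j, Z x a = some (z, j) → o x a = some z ∧ j < cap z) ∧
      (∀ x a x' a' w, Z x a = some w → Z x' a' = some w → x = x' ∧ a = a') ∧
      (((univ.filter (fun q : X × A => Z q.1 q.2 = none)).card : ℝ) ≤
        ∑ z, max ((∑ a, ∑ x, if o x a = some z then (1 : ℝ) else 0) - cap z) 0 +
          ∑ a, ∑ x, (if o x a = none then (1 : ℝ) else 0)) := by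
  classical
  -- arrivals
  set Arr : X → Finset (X × A) := fun z => univ.filter (fun q => o q.1 q.2 = some z) with hArr
  have hG : ∀ z, ∃ G ⊆ Arr z, G.card = min (Arr z).card (cap z) :=
    fun z => Finset.exists_subset_card_eq (min_le_left _ _)
  choose G hG1 hG2 using hG
  have hlab : ∀ z, ∃ l : X × A → ℕ, (∀ q ∈ G z, l q < cap z) ∧ Set.InjOn l (G z : Set (X × A)) := by
    intro z
    refine ⟨fun q => if h : q ∈ G z then ((G z).equivFin ⟨q, h⟩ : ℕ) else 0, ?_, ?_⟩
    · intro q hq
      simp only [hq, dif_pos]
      refine lt_of_lt_of_le (Fin.is_lt _) ?_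
      rw [hG2]; exact min_le_right _ _
    · intro q hq q' hq' h
      have hq1 : q ∈ G z := hq
      have hq2 : q' ∈ G z := hq'
      simp only [hq1, hq2, dif_pos] at h
      have := (G z).equivFin.injective (Fin.ext h)
      simpa using this
  choose l hl1 hl2 using hlab
  refine ⟨fun x a => match o x a with
    | none => none
    | some z => if (x, a) ∈ G z then some (z, l z (x, a)) else none, ?_, ?_, ?_⟩
  · intro x a z j h
    cases ho : o x a with
    | none => simp [ho] at h
    | some z' =>
      simp only [ho] at h
      by_cases hm : (x, a) ∈ G z'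
      · simp only [hm, if_true, Option.some.injEq, Prod.mk.injEq] at h
        obtain ⟨rfl, rfl⟩ := h
        exact ⟨rfl, hl1 _ _ hm⟩
      · simp [hm] at h
  · intro x a x' a' w h h'
    obtain ⟨z, j⟩ := w
    cases ho : o x a with
    | none => simp [ho] at h
    | some z1 =>
      cases ho' : o x' a' with
      | none => simp [ho'] at h'
      | some z2 =>
        simp only [ho] at h
        simp only [ho'] at h'
        by_cases hm : (x, a) ∈ G z1
        · by_cases hm' : (x', a') ∈ G z2
          · simp only [hm, if_true, Option.some.injEq, Prod.mk.injEq] at h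
            simp only [hm', if_true, Option.some.injEq, Prod.mk.injEq] at h'
            obtain ⟨rfl, h2⟩ := h
            obtain ⟨rfl, h2'⟩ := h'
            have := hl2 _ hm hm' (h2.trans h2'.symm)
            simpa using this
          · simp [hm'] at h'
        · simp [hm] at h
  · -- counting
    have h1 : (univ.filter (fun q : X × A => (match o q.1 q.2 with
        | none => none
        | some z => if q ∈ G z then some (z, l z q) else none) = none)) ⊆
        (univ.biUnion fun z => Arr z \ G z) ∪ univ.filter (fun q : X × A => o q.1 q.2 = none) := by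
      intro q hq
      simp only [mem_filter, mem_univ, true_and] at hq
      simp only [mem_union, mem_biUnion, mem_univ, true_and, mem_sdiff, mem_filter]
      cases ho : o q.1 q.2 with
      | none => exact Or.inr rfl
      | some z =>
        left
        refine ⟨z, by simp [hArr, ho], ?_⟩
        intro hm
        simp [ho, hm] at hq
    have h2 : ∀ z, ((Arr z \ G z).card : ℝ) ≤
        max ((∑ a, ∑ x, if o x a = some z then (1 : ℝ) else 0) - cap z) 0 := by
      intro z
      have h3 : (∑ a, ∑ x, if o x a = some z then (1 : ℝ) else 0) = ((Arr z).card : ℝ) := by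
        rw [Finset.sum_comm, ← Finset.sum_product', univ_product_univ, hArr]
        simp only
        rw [Finset.sum_boole]
      rw [h3, Finset.card_sdiff_of_subset (hG1 z), hG2]
      rcases le_total (Arr z).card (cap z) with h | h
      · rw [min_eq_left h]; simp
      · rw [min_eq_right h, Nat.cast_sub h]
        exact le_max_left _ _
    have h4 : ((univ.filter (fun q : X × A => o q.1 q.2 = none)).card : ℝ) =
        ∑ a, ∑ x, (if o x a = none then (1 : ℝ) else 0) := by
      rw [Finset.sum_comm, ← Finset.sum_product', univ_product_univ]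
      rw [Finset.sum_boole]
    calc ((univ.filter (fun q : X × A => (match o q.1 q.2 with
        | none => none
        | some z => if q ∈ G z then some (z, l z q) else none) = none)).card : ℝ)
        ≤ (((univ.biUnion fun z => Arr z \ G z) ∪
            univ.filter (fun q : X × A => o q.1 q.2 = none)).card : ℝ) := by
          exact_mod_cast Finset.card_le_card h1
      _ ≤ ((univ.biUnion fun z => Arr z \ G z).card : ℝ) +
            ((univ.filter (fun q : X × A => o q.1 q.2 = none)).card : ℝ) := by
          exact_mod_cast Finset.card_union_le _ _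
      _ ≤ (∑ z, ((Arr z \ G z).card : ℝ)) +
            ((univ.filter (fun q : X × A => o q.1 q.2 = none)).card : ℝ) := by
          gcongr
          exact_mod_cast Finset.card_biUnion_le
      _ ≤ _ := by
          rw [h4]
          gcongr with z _
          exact h2 z

/-- Abstract sampling theorem. -/
theorem abstract_sampling {X S : Type} [Fintype X] [DecidableEq X] [Fintype S] [Nonempty S]
    (acc : X → S → Prop) [∀ x s, Decidable (acc x s)] (mv : S → X → X)
    (hinj : ∀ s, Function.Injective (mv s)) (p : ℝ)
    (hp : ∀ x, 𝔼 s, (if acc x s then (1 : ℝ) else 0) = p) (hp0 : 0 < p)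
    (hp1 : p ≤ 1) (d : X → X → ℝ) (hd : ∀ x y, 0 ≤ d x y) (hsymm : ∀ x y, d x y = d y x)
    (htri : ∀ x y z, d x z ≤ d x y + d y z) (g k : ℕ) (cap : X → ℕ)
    (hcap : ∀ z, g * (load acc mv z / p) ≤ cap z)
    {I : Type} [Fintype I] (nb : X → I → X) (c1 c2 : ℝ) (hc1 : 0 ≤ c1) (hc2 : 0 ≤ c2) :
    ∃ Z : X → Fin g → Option (X × ℕ),
      (∀ x a z j, Z x a = some (z, j) → j < cap z) ∧
      (∀ x a x' a' w, Z x a = some w → Z x' a' = some w → x = x' ∧ a = a') ∧
      ∑ a, ∑ x, ∑ i, zc d (Z x a) (Z (nb x i) a) + c1 * ∑ a, ∑ x, zd d x (Z x a) +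
        c2 * ((univ.filter (fun q : X × Fin g => Z q.1 q.2 = none)).card : ℝ) ≤
      g * ∑ x, ∑ i, ebound acc mv d p x (nb x i) / p + c1 * (g * ∑ x, dload acc mv d x / p) +
        c2 * (∑ z, Real.sqrt (k * cap z) + g * (Fintype.card X * (1 - p) ^ k)) := by
  classical
  obtain ⟨σ, hσ⟩ := exists_seeds acc mv p hinj hp hp0 hp1 d hd hsymm htri g k cap hcap nb c1 c2 hc1 hc2
  obtain ⟨Z, hZ1, hZ2, hZ3⟩ := exists_labels (fun x a => out acc mv k (σ a) x) cap
  refine ⟨Z, fun x a z j h => (hZ1 x a z j h).2, hZ2, le_trans ?_ hσ⟩
  have e1 : ∀ a x i, zc d (Z x a) (Z (nb x i) a) ≤ ecost acc mv d k (σ a) x (nb x i) := by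
    intro a x i
    unfold zc ecost
    cases h1 : Z x a with
    | none => simp only []; split <;> first | exact hd _ _ | exact le_rfl
    | some w =>
      cases h2 : Z (nb x i) a with
      | none => simp only []; split <;> first | exact hd _ _ | exact le_rfl
      | some w' =>
        obtain ⟨z, j⟩ := w
        obtain ⟨z', j'⟩ := w'
        have h3 := (hZ1 _ _ _ _ h1).1
        have h4 := (hZ1 _ _ _ _ h2).1
        rw [h3, h4]
  have e2 : ∀ a x, zd d x (Z x a) ≤ disp acc mv d k (σ a) x := by
    intro a x
    unfold zd disp
    cases h1 : Z x a with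
    | none => simp only []; split <;> first | exact hd _ _ | exact le_rfl
    | some w =>
      obtain ⟨z, j⟩ := w
      have h3 := (hZ1 _ _ _ _ h1).1
      rw [h3]
  gcongr with a _ x _ i _ a _ x _
  · exact e1 a x i
  · exact e2 a x
  · exact hZ3

end Pool.Agent.Helper27.Cube
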