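import Pool.Agent.Helper27.Cube.Reflect
import Pool.Agent.Helper27.Cube.Binom
import Pool.Agent.Helper27.Cube.Partial

set_option autoImplicit false

/-! Rejection sampling on the discrete cube. -/

namespace Pool.Agent.Helper27.Cube

open Finset
open scoped BigOperators

section basics
variable {ι : Type} [Fintype ι] [DecidableEq ι]

omit [Fintype ι] [DecidableEq ι] in
lemma xr_invol (x J : ι → Bool) : xr x (xr x J) = J := by
  funext i
  simp only [xr]
  cases x i <;> cases J i <;> rfl

/-- xoring with a fixed point is a permutation of the cube -/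
def xrEquiv (x : ι → Bool) : (ι → Bool) ≃ (ι → Bool) where
  toFun := xr x
  invFun := xr x
  left_inv := xr_invol x
  right_inv := xr_invol x

lemma sum_xr {M : Type} [AddCommMonoid M] (x : ι → Bool) (F : (ι → Bool) → M) :
    ∑ J, F (xr x J) = ∑ J, F J :=
  Equiv.sum_comp (xrEquiv x) F

omit [Fintype ι] in
lemma xr_flip (x J : ι → Bool) (i : ι) :
    xr (Function.update x i (!x i)) J = Function.update (xr x J) i (!(xr x J i)) := by
  funext j
  by_cases h : j = i
  · subst h; simp [xr]
  · simp [xr, h]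

/-- flipping a coordinate is a permutation of the cube -/
def flipEquiv (i : ι) : (ι → Bool) ≃ (ι → Bool) where
  toFun x := Function.update x i (!x i)
  invFun x := Function.update x i (!x i)
  left_inv x := by
    funext j
    by_cases h : j = i
    · subst h; simp
    · simp [h]
  right_inv x := by
    funext j
    by_cases h : j = i
    · subst h; simp
    · simp [h]

lemma sum_flip {M : Type} [AddCommMonoid M] (i : ι) (F : (ι → Bool) → M) :
    ∑ x : ι → Bool, F (Function.update x i (!x i)) = ∑ x, F x :=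
  Equiv.sum_comp (flipEquiv i) F

lemma wt_flip (u : ι → Bool) (i : ι) :
    (u i = false ∧ wt (Function.update u i (!u i)) = wt u + 1) ∨
      (u i = true ∧ wt (Function.update u i (!u i)) + 1 = wt u) := by
  classical
  cases hu : u i with
  | false =>
    left
    refine ⟨rfl, ?_⟩
    unfold wt
    have : (univ.filter (fun j => Function.update u i (!false) j = true)) =
        insert i (univ.filter (fun j => u j = true)) := by
      ext j
      by_cases h : j = i
      · subst h; simp
      · simp [h]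
    rw [this, Finset.card_insert_of_notMem]
    simp [hu]
  | true =>
    right
    refine ⟨rfl, ?_⟩
    unfold wt
    have : (univ.filter (fun j => Function.update u i (!true) j = true)) =
        (univ.filter (fun j => u j = true)).erase i := by
      ext j
      by_cases h : j = i
      · subst h; simp
      · simp [h]
    rw [this, Finset.card_erase_of_mem]
    · have : 0 < (univ.filter (fun j => u j = true)).card :=
        Finset.card_pos.mpr ⟨i, by simp [hu]⟩
      omega
    · simp [hu]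

lemma hammingDist_flip (x : ι → Bool) (i : ι) :
    hammingDist x (Function.update x i (!x i)) = 1 := by
  classical
  unfold hammingDist
  have : (univ.filter (fun j => x j ≠ Function.update x i (!x i) j)) = {i} := by
    ext j
    by_cases h : j = i
    · subst h; simp
    · simp [h]
  rw [this]; simp

omit [DecidableEq ι] in
lemma wt_le (x : ι → Bool) : wt x ≤ Fintype.card ι := Finset.card_le_univ _

end basics

/-- number of points of given weight -/
lemma card_wt_fin (m w : ℕ) : (univ.filter (fun x : Fin m → Bool => wt x = w)).card = m.choose w := by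
  classical
  rcases w with _ | w
  · rw [show (univ.filter (fun x : Fin m → Bool => wt x = 0)) =
      (univ.filter (fun x : Fin m → Bool => wt x ≤ 0)) from by ext x; simp]
    rw [card_ball]; simp
  · have h1 := card_ball m (w + 1)
    have h2 := card_ball m w
    rw [Finset.sum_range_succ, ← h2] at h1
    have h3 : (univ.filter (fun x : Fin m → Bool => wt x ≤ w + 1)) =
        (univ.filter (fun x : Fin m → Bool => wt x ≤ w)) ∪
          (univ.filter (fun x : Fin m → Bool => wt x = w + 1)) := by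
      ext x; simp; omega
    rw [h3, Finset.card_union_of_disjoint] at h1
    · omega
    · rw [Finset.disjoint_filter]
      intro x _ h h'
      omega

lemma sum_by_wt (m : ℕ) (F : ℕ → ℝ) :
    ∑ x : Fin m → Bool, F (wt x) = ∑ w ∈ range (m + 1), (m.choose w : ℝ) * F w := by
  classical
  rw [← Finset.sum_fiberwise_of_maps_to (s := univ) (t := range (m + 1)) (g := wt)
    (f := fun x : Fin m → Bool => F (wt x))]
  · refine Finset.sum_congr rfl fun w _ => ?_
    rw [Finset.sum_congr rfl (g := fun _ => F w)]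
    · rw [Finset.sum_const, card_wt_fin, nsmul_eq_mul]
    · intro x hx
      simp only [mem_filter, mem_univ, true_and] at hx
      rw [hx]
  · intro x _
    have := wt_le x
    rw [Fintype.card_fin] at this
    exact Finset.mem_range.mpr (by omega)

/-- bound on layers: `choose / 2^m * sqrt m ≤ 1` -/
lemma choose_mul_sqrt (m w : ℕ) : (m.choose w : ℝ) * Real.sqrt (m + 1) ≤ 2 ^ m := by
  have h := choose_sq_mul_le m w
  have h1 : ((m.choose w : ℝ)) ^ 2 * ((m : ℝ) + 1) ≤ 4 ^ m := by exact_mod_cast h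
  have h2 : ((m.choose w : ℝ) * Real.sqrt (m + 1)) ^ 2 ≤ (2 ^ m) ^ 2 := by
    rw [mul_pow, Real.sq_sqrt (by positivity), ← pow_mul, mul_comm m 2, pow_mul]
    norm_num
    exact h1
  exact le_of_sq_le_sq h2 (by positivity)

section main

variable {m D : ℕ} (f : ℕ → ℕ) (R : (Fin m → Bool) → (Fin m → Bool) → (Fin m → Bool))

/-- acceptance -/
def cacc (D : ℕ) (x : Fin m → Bool) (s : (Fin m → Bool) × Fin D) : Prop := (s.2 : ℕ) < f (wt (R s.1 x))

instance (x : Fin m → Bool) (s : (Fin m → Bool) × Fin D) : Decidable (cacc f R D x s) :=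
  inferInstanceAs (Decidable (_ < _))

/-- move -/
def cmv (D : ℕ) (s : (Fin m → Bool) × Fin D) : (Fin m → Bool) → (Fin m → Bool) := R s.1

lemma sum_fin_lt (D v : ℕ) (h : v ≤ D) : ∑ t : Fin D, (if (t : ℕ) < v then (1 : ℝ) else 0) = v := by
  rw [Finset.sum_boole, Fin.card_filter_val_lt, min_eq_right h]

lemma expect_seed (F : (Fin m → Bool) × Fin D → ℝ) :
    𝔼 s, F s = (∑ J, ∑ t, F (J, t)) / (D * 2 ^ m) := by
  rw [Fintype.expect_eq_sum_div_card, Fintype.sum_prod_type]
  simp [mul_comm]

variable (hR2 : ∀ J x, wt (R J x) = wt (xr x J))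

include hR2 in
lemma expect_cacc (hfD : ∀ w, f w ≤ D) (x : Fin m → Bool) :
    𝔼 s, (if cacc f R D x s then (1 : ℝ) else 0) = (∑ J : Fin m → Bool, (f (wt J) : ℝ)) / (D * 2 ^ m) := by
  rw [expect_seed]
  congr 1
  rw [← sum_xr x (fun J => (f (wt J) : ℝ))]
  refine Finset.sum_congr rfl fun J _ => ?_
  unfold cacc
  simp only [hR2]
  exact sum_fin_lt D _ (hfD _)

lemma load_cacc (hR1 : ∀ J, Function.Injective (R J)) (hD : 0 < D) (hfD : ∀ w, f w ≤ D)
    (z : Fin m → Bool) : load (cacc f R D) (cmv R D) z = (f (wt z) : ℝ) / D := by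
  unfold load
  rw [expect_seed]
  have h1 : ∀ (J : Fin m → Bool) (t : Fin D), (∑ x, if cacc f R D x (J, t) ∧ cmv R D (J, t) x = z then (1 : ℝ) else 0) =
      if (t : ℕ) < f (wt z) then (1 : ℝ) else 0 := by
    intro J t
    obtain ⟨x0, hx0⟩ := (Finite.injective_iff_surjective.mp (hR1 J)) z
    rw [Finset.sum_eq_single x0]
    · unfold cacc cmv
      simp [hx0]
    · intro x _ hx
      rw [if_neg]
      rintro ⟨-, h⟩
      exact hx (hR1 J (h.trans hx0.symm))
    · simp
  simp only [h1, sum_fin_lt D _ (hfD _)]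
  have hD' : (0 : ℝ) < D := by exact_mod_cast hD
  simp
  field_simp

/-- Hamming distance as a real number -/
def hd {ι : Type} [Fintype ι] [DecidableEq ι] (x y : ι → Bool) : ℝ := (hammingDist x y : ℝ)

/-- deviation of the weight -/
noncomputable def dev (x : Fin m → Bool) : ℝ := |(wt x : ℝ) - m / 2|

variable (hR3 : ∀ J x, (hammingDist x (R J x) : ℤ) = |(wt x : ℤ) - (wt (R J x) : ℤ)|)

include hR3 in
lemma hd_move (J x : Fin m → Bool) : hd x (R J x) ≤ dev x + |(wt (R J x) : ℝ) - m / 2| := by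
  have h := hR3 J x
  have h1 : hd x (R J x) = |(wt x : ℝ) - (wt (R J x) : ℝ)| := by
    unfold hd
    have : ((hammingDist x (R J x) : ℤ) : ℝ) = ((|(wt x : ℤ) - (wt (R J x) : ℤ)| : ℤ) : ℝ) := by rw [h]
    push_cast at this
    exact this
  rw [h1]
  unfold dev
  have := abs_sub_le (wt x : ℝ) ((m : ℝ) / 2) (wt (R J x))
  rw [abs_sub_comm ((m : ℝ) / 2)] at this
  exact this

include hR2 hR3 in
lemma dload_cacc (hD : 0 < D) (x : Fin m → Bool) :
    dload (cacc f R D) (cmv R D) hd x ≤ dev x + Real.sqrt m / 2 := by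
  unfold dload
  rw [expect_seed]
  have hD' : (0 : ℝ) < D := by exact_mod_cast hD
  rw [div_le_iff₀ (by positivity)]
  have h1 : ∀ (J : Fin m → Bool) (t : Fin D), (if cacc f R D x (J, t) then hd x (cmv R D (J, t) x) else 0) ≤
      dev x + dev (xr x J) := by
    intro J t
    split
    · refine (hd_move R hR3 J x).trans ?_
      rw [hR2]; rfl
    · unfold dev; positivity
  calc ∑ J : Fin m → Bool, ∑ t : Fin D, (if cacc f R D x (J, t) then hd x (cmv R D (J, t) x) else 0) ≤
      ∑ J : Fin m → Bool, ∑ t : Fin D, (dev x + dev (xr x J)) :=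
        Finset.sum_le_sum fun J _ => Finset.sum_le_sum fun t _ => h1 J t
    _ = D * ∑ J : Fin m → Bool, (dev x + dev (xr x J)) := by
        simp [Finset.mul_sum, mul_add]
    _ = D * (2 ^ m * dev x + ∑ J : Fin m → Bool, dev J) := by
        rw [Finset.sum_add_distrib, sum_xr x dev]
        simp
    _ ≤ D * (2 ^ m * dev x + 2 ^ m * (Real.sqrt m / 2)) := by
        gcongr
        exact sum_abs_dev m
    _ = _ := by ring

/-- one layer has at most this fraction of the cube -/
noncomputable def mu (m : ℕ) : ℝ := 1 / Real.sqrt (m + 1)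

lemma mu_nonneg (m : ℕ) : 0 ≤ mu m := by unfold mu; positivity

lemma mu_le_one (m : ℕ) : mu m ≤ 1 := by
  unfold mu
  rw [div_le_one (by positivity)]
  rw [Real.one_le_sqrt]
  have : (0 : ℝ) ≤ m := Nat.cast_nonneg m
  linarith

lemma mu_mul_sqrt (m : ℕ) : mu m * Real.sqrt m ≤ 1 := by
  unfold mu
  rw [one_div, inv_mul_le_iff₀ (by positivity), mul_one]
  exact Real.sqrt_le_sqrt (by linarith)

lemma choose_le_mu (m w : ℕ) : (m.choose w : ℝ) ≤ 2 ^ m * mu m := by
  unfold mu
  rw [mul_one_div, le_div_iff₀ (by positivity)]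
  exact choose_mul_sqrt m w

/-- the jump of `f` at the weight -/
noncomputable def jmp (x : Fin m → Bool) (s : (Fin m → Bool) × Fin D) : ℝ :=
  (if (s.2 : ℕ) < f (wt (xr x s.1)) then (1 : ℝ) else 0) -
    (if (s.2 : ℕ) < f (wt (xr x s.1) + 1) then (1 : ℝ) else 0)

lemma jmp_nonneg (hf : Antitone f) (x : Fin m → Bool) (s : (Fin m → Bool) × Fin D) :
    0 ≤ jmp f x s := by
  unfold jmp
  have := hf (Nat.le_succ (wt (xr x s.1)))
  simp only [Nat.succ_eq_add_one] at this
  by_cases h : (s.2 : ℕ) < f (wt (xr x s.1) + 1)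
  · have h' : (s.2 : ℕ) < f (wt (xr x s.1)) := lt_of_lt_of_le h this
    simp [h, h']
  · simp only [h, if_false, sub_zero]
    split <;> norm_num

include hR2 in
lemma jump_of (hf : Antitone f) (x : Fin m → Bool) (i : Fin m) (s : (Fin m → Bool) × Fin D)
    (h1 : cacc f R D x s) (h2 : ¬ cacc f R D (Function.update x i (!x i)) s) :
    jmp f x s = 1 ∧ f (wt (R s.1 x)) ≠ f (wt (R s.1 x) + 1) := by
  unfold cacc at h1 h2
  rw [hR2] at h1 h2
  rw [xr_flip] at h2
  rw [hR2]
  rcases wt_flip (xr x s.1) i with ⟨-, hw⟩ | ⟨-, hw⟩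
  · rw [hw] at h2
    refine ⟨?_, ?_⟩
    · unfold jmp
      simp [h1, h2]
    · intro h
      rw [h] at h1
      exact h2 h1
  · exfalso
    apply h2
    refine lt_of_lt_of_le h1 (hf ?_)
    omega

lemma expect_jmp (hD : 0 < D) (hf : Antitone f) (hfD : ∀ w, f w ≤ D) (x : Fin m → Bool) :
    𝔼 s : (Fin m → Bool) × Fin D, jmp f x s ≤ mu m := by
  rw [expect_seed]
  have hD' : (0 : ℝ) < D := by exact_mod_cast hD
  rw [div_le_iff₀ (by positivity)]
  unfold jmp
  simp only [Finset.sum_sub_distrib, sum_fin_lt D _ (hfD _)]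
  rw [← Finset.sum_sub_distrib, sum_xr x (fun J => (f (wt J) : ℝ) - f (wt J + 1)),
    sum_by_wt m (fun w => (f w : ℝ) - f (w + 1))]
  calc ∑ w ∈ range (m + 1), (m.choose w : ℝ) * ((f w : ℝ) - f (w + 1)) ≤
      ∑ w ∈ range (m + 1), (2 ^ m * mu m) * ((f w : ℝ) - f (w + 1)) := by
        refine Finset.sum_le_sum fun w _ => ?_
        refine mul_le_mul_of_nonneg_right (choose_le_mu m w) ?_
        have : f (w + 1) ≤ f w := hf (Nat.le_succ w)
        have : (f (w + 1) : ℝ) ≤ f w := by exact_mod_cast this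
        linarith
    _ = (2 ^ m * mu m) * ((f 0 : ℝ) - f (m + 1)) := by
        rw [← Finset.mul_sum, Finset.sum_range_sub' (fun w => (f w : ℝ))]
    _ ≤ (2 ^ m * mu m) * D := by
        refine mul_le_mul_of_nonneg_left ?_ (mul_nonneg (by positivity) (mu_nonneg m))
        have : (f 0 : ℝ) ≤ D := by exact_mod_cast hfD 0
        have : (0 : ℝ) ≤ f (m + 1) := Nat.cast_nonneg _
        linarith
    _ = _ := by ring

include hR2 in
lemma Cload_cacc (hD : 0 < D) (hf : Antitone f) (hfD : ∀ w, f w ≤ D) (x : Fin m → Bool) (i : Fin m) :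
    Cload (cacc f R D) x (Function.update x i (!x i)) ≤ mu m := by
  refine le_trans ?_ (expect_jmp f hD hf hfD x)
  unfold Cload
  refine Finset.expect_le_expect fun s _ => ?_
  split
  · next h => rw [(jump_of f R hR2 hf x i s h.1 h.2).1]
  · exact jmp_nonneg f hf x s

include hR2 hR3 in
lemma Bload_cacc (hD : 0 < D) (hf : Antitone f) (hfD : ∀ w, f w ≤ D) (Δ : ℝ) (hΔ0 : 0 ≤ Δ)
    (hΔ : ∀ w, w ≤ m → f w ≠ f (w + 1) → |(w : ℝ) - m / 2| ≤ Δ) (x : Fin m → Bool) (i : Fin m) :
    Bload (cacc f R D) (cmv R D) hd x (Function.update x i (!x i)) ≤ mu m * (dev x + Δ) := by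
  have hdev : 0 ≤ dev x := abs_nonneg _
  have h1 : 𝔼 s : (Fin m → Bool) × Fin D, jmp f x s * (dev x + Δ) ≤ mu m * (dev x + Δ) := by
    rw [← Finset.expect_mul]
    exact mul_le_mul_of_nonneg_right (expect_jmp f hD hf hfD x) (by positivity)
  refine le_trans ?_ h1
  unfold Bload
  refine Finset.expect_le_expect fun s _ => ?_
  split
  · next h =>
    obtain ⟨h2, h3⟩ := jump_of f R hR2 hf x i s h.1 h.2
    rw [h2, one_mul]
    refine (hd_move R hR3 s.1 x).trans ?_
    gcongr
    refine hΔ _ ?_ h3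
    have := wt_le (R s.1 x)
    rwa [Fintype.card_fin] at this
  · exact mul_nonneg (jmp_nonneg f hf x s) (by positivity)

lemma Aload_cacc (hR4 : ∀ J x i, hammingDist (R J x) (R J (Function.update x i (!x i))) ≤ 3)
    (p : ℝ) (hp : ∀ x, 𝔼 s, (if cacc f R D x s then (1 : ℝ) else 0) = p) (x : Fin m → Bool) (i : Fin m) :
    Aload (cacc f R D) (cmv R D) hd x (Function.update x i (!x i)) ≤ 3 * p := by
  rw [← hp x, Finset.mul_expect]
  unfold Aload
  refine Finset.expect_le_expect fun s _ => ?_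
  split
  · next h =>
    rw [if_pos h.1, mul_one]
    unfold hd cmv
    exact_mod_cast hR4 s.1 x i
  · split <;> norm_num

end main

section total

lemma hd_nonneg {ι : Type} [Fintype ι] [DecidableEq ι] (x y : ι → Bool) : 0 ≤ hd x y := by
  unfold hd; positivity

lemma hd_comm {ι : Type} [Fintype ι] [DecidableEq ι] (x y : ι → Bool) : hd x y = hd y x := by
  unfold hd; rw [hammingDist_comm]

lemma hd_triangle {ι : Type} [Fintype ι] [DecidableEq ι] (x y z : ι → Bool) :
    hd x z ≤ hd x y + hd y z := by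
  unfold hd
  exact_mod_cast hammingDist_triangle x y z

lemma sum_dev (m : ℕ) : ∑ x : Fin m → Bool, dev x ≤ 2 ^ m * (Real.sqrt m / 2) := sum_abs_dev m

lemma sum_dev_flip (m : ℕ) : ∑ x : Fin m → Bool, ∑ i, dev (Function.update x i (!x i)) =
    m * ∑ x : Fin m → Bool, dev x := by
  rw [Finset.sum_comm]
  simp only [sum_flip]
  simp

/-- the constant for the stretch along the sampled coordinates -/
noncomputable def K1 (C p0 : ℝ) : ℝ := 3 + (3 + 2 * C + 2 / p0) / p0

/-- Sum of the edge bounds. -/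
lemma sum_ebound {m D : ℕ} (f : ℕ → ℕ) (R : (Fin m → Bool) → (Fin m → Bool) → (Fin m → Bool))
    (hR2 : ∀ J x, wt (R J x) = wt (xr x J))
    (hR3 : ∀ J x, (hammingDist x (R J x) : ℤ) = |(wt x : ℤ) - (wt (R J x) : ℤ)|)
    (hR4 : ∀ J x i, hammingDist (R J x) (R J (Function.update x i (!x i))) ≤ 3)
    (hD : 0 < D) (hf : Antitone f) (hfD : ∀ w, f w ≤ D) (C p0 p : ℝ) (hC : 0 ≤ C) (hp0 : 0 < p0)
    (hpp : p0 ≤ p)
    (hΔ : ∀ w, w ≤ m → f w ≠ f (w + 1) → |(w : ℝ) - m / 2| ≤ C * Real.sqrt m)
    (hp : ∀ x, 𝔼 s, (if cacc f R D x s then (1 : ℝ) else 0) = p) :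
    ∑ x, ∑ i, ebound (cacc f R D) (cmv R D) hd p x (Function.update x i (!x i)) / p ≤
      m * 2 ^ m * K1 C p0 := by
  have hpos : 0 < p := lt_of_lt_of_le hp0 hpp
  set δ : ℝ := C * Real.sqrt m with hδ
  have hδ0 : 0 ≤ δ := by positivity
  have hμ0 := mu_nonneg m
  have hdev0 : ∀ x : Fin m → Bool, 0 ≤ dev x := fun x => abs_nonneg _
  -- pointwise bound
  have h1 : ∀ (x : Fin m → Bool) (i : Fin m),
      ebound (cacc f R D) (cmv R D) hd p x (Function.update x i (!x i)) ≤
      3 * p + (mu m * (dev x + δ) + mu m * (dev (Function.update x i (!x i)) + δ)) + 2 * mu m +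
        (mu m * ((dev (Function.update x i (!x i)) + Real.sqrt m / 2) / p) +
          mu m * ((dev x + Real.sqrt m / 2) / p)) := by
    intro x i
    have hxy : Function.update (Function.update x i (!x i)) i
        (!(Function.update x i (!x i)) i) = x := (flipEquiv i).left_inv x
    have a1 := Aload_cacc f R hR4 p hp x i
    have b1 := Bload_cacc f R hR2 hR3 hD hf hfD δ hδ0 hΔ x i
    have b2 := Bload_cacc f R hR2 hR3 hD hf hfD δ hδ0 hΔ (Function.update x i (!x i)) i
    rw [hxy] at b2
    have c1 := Cload_cacc f R hR2 hD hf hfD x i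
    have c2 := Cload_cacc f R hR2 hD hf hfD (Function.update x i (!x i)) i
    rw [hxy] at c2
    have d1 := dload_cacc f R hR2 hR3 hD x
    have d2 := dload_cacc f R hR2 hR3 hD (Function.update x i (!x i))
    have c10 := Cload_nonneg (acc := cacc f R D) x (Function.update x i (!x i))
    have c20 := Cload_nonneg (acc := cacc f R D) (Function.update x i (!x i)) x
    have d10 : 0 ≤ dload (cacc f R D) (cmv R D) hd x :=
      Finset.expect_nonneg fun s _ => by split; exacts [hd_nonneg _ _, le_rfl]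
    have d20 : 0 ≤ dload (cacc f R D) (cmv R D) hd (Function.update x i (!x i)) :=
      Finset.expect_nonneg fun s _ => by split; exacts [hd_nonneg _ _, le_rfl]
    have e1 : hd x (Function.update x i (!x i)) = 1 := by
      unfold hd; rw [hammingDist_flip]; norm_num
    unfold ebound
    rw [e1, mul_one]
    have f1 : Cload (cacc f R D) x (Function.update x i (!x i)) *
        (dload (cacc f R D) (cmv R D) hd (Function.update x i (!x i)) / p) ≤
        mu m * ((dev (Function.update x i (!x i)) + Real.sqrt m / 2) / p) := by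
      gcongr
    have f2 : Cload (cacc f R D) (Function.update x i (!x i)) x *
        (dload (cacc f R D) (cmv R D) hd x / p) ≤
        mu m * ((dev x + Real.sqrt m / 2) / p) := by
      gcongr
    linarith
  -- sum
  set s : ℝ := ∑ x : Fin m → Bool, dev x with hs
  have hs1 : s ≤ 2 ^ m * (Real.sqrt m / 2) := sum_dev m
  have hs0 : 0 ≤ s := Finset.sum_nonneg fun x _ => hdev0 x
  have h2 : ∑ x, ∑ i, ebound (cacc f R D) (cmv R D) hd p x (Function.update x i (!x i)) ≤
      m * 2 ^ m * (3 * p) + 2 * mu m * (m * s + m * 2 ^ m * δ) + m * 2 ^ m * (2 * mu m) +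
        2 * mu m * ((m * s + m * 2 ^ m * (Real.sqrt m / 2)) / p) := by
    refine (Finset.sum_le_sum fun x _ => Finset.sum_le_sum fun i _ => h1 x i).trans ?_
    have h3 : ∀ (x : Fin m → Bool), ∑ i, (3 * p + (mu m * (dev x + δ) + mu m * (dev (Function.update x i (!x i)) + δ)) + 2 * mu m +
        (mu m * ((dev (Function.update x i (!x i)) + Real.sqrt m / 2) / p) +
          mu m * ((dev x + Real.sqrt m / 2) / p))) =
        (m * (3 * p) + m * (mu m * δ) * 2 + m * (2 * mu m) + m * (mu m * (Real.sqrt m / 2 / p)) * 2) +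
        (mu m * m + mu m * m / p) * dev x +
        (mu m + mu m / p) * ∑ i, dev (Function.update x i (!x i)) := by
      intro x
      simp only [Finset.sum_add_distrib, Finset.mul_sum, Finset.sum_const, card_univ,
        Fintype.card_fin, nsmul_eq_mul, add_div, mul_add, add_mul]
      have h4 : ∀ i : Fin m, mu m * (dev (Function.update x i (!x i)) / p) =
          mu m / p * dev (Function.update x i (!x i)) := fun i => by ring
      simp only [h4]
      ring
    simp only [h3]
    rw [Finset.sum_add_distrib, Finset.sum_add_distrib, ← Finset.mul_sum, ← Finset.mul_sum,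
      sum_dev_flip, ← hs]
    simp only [Finset.sum_const, card_univ, nsmul_eq_mul, Fintype.card_fun, Fintype.card_bool,
      Fintype.card_fin]
    push_cast
    apply le_of_eq
    ring
  simp only [← Finset.sum_div]
  rw [div_le_iff₀ hpos]
  refine h2.trans ?_
  -- numeric part
  set q : ℝ := Real.sqrt m with hq
  have hq0 : 0 ≤ q := Real.sqrt_nonneg _
  have hμq : mu m * q ≤ 1 := mu_mul_sqrt m
  have hμ1 : mu m ≤ 1 := mu_le_one m
  have hm0 : (0 : ℝ) ≤ m := Nat.cast_nonneg m
  have t1 : 2 * mu m * (m * s + m * 2 ^ m * δ) ≤ m * 2 ^ m * (1 + 2 * C) := by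
    calc 2 * mu m * (m * s + m * 2 ^ m * δ) ≤
        2 * mu m * (m * (2 ^ m * (q / 2)) + m * 2 ^ m * δ) := by gcongr
      _ = m * 2 ^ m * ((mu m * q) * (1 + 2 * C)) := by rw [hδ]; ring
      _ ≤ m * 2 ^ m * (1 * (1 + 2 * C)) := by gcongr
      _ = _ := by ring
  have t2 : m * 2 ^ m * (2 * mu m) ≤ m * 2 ^ m * 2 := by
    have : 2 * mu m ≤ 2 := by linarith
    gcongr
  have t3 : 2 * mu m * ((m * s + m * 2 ^ m * (q / 2)) / p) ≤ m * 2 ^ m * (2 / p) := by
    calc 2 * mu m * ((m * s + m * 2 ^ m * (q / 2)) / p) ≤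
        2 * mu m * ((m * (2 ^ m * (q / 2)) + m * 2 ^ m * (q / 2)) / p) := by gcongr
      _ = m * 2 ^ m * ((mu m * q) * (2 / p)) := by ring
      _ ≤ m * 2 ^ m * (1 * (2 / p)) := by gcongr
      _ = _ := by ring
  have t4 : K1 C p0 * p ≥ 3 * p + (3 + 2 * C + 2 / p) := by
    unfold K1
    have h5 : (3 + 2 * C + 2 / p0) / p0 * p ≥ 3 + 2 * C + 2 / p := by
      have h6 : 2 / p ≤ 2 / p0 := by gcongr
      have h7 : 0 ≤ 2 / p0 := by positivity
      rw [ge_iff_le, div_mul_eq_mul_div, le_div_iff₀ hp0]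
      calc (3 + 2 * C + 2 / p) * p0 ≤ (3 + 2 * C + 2 / p0) * p0 := by gcongr
        _ ≤ (3 + 2 * C + 2 / p0) * p := by gcongr
    linarith
  have t5 : m * 2 ^ m * (3 * p + (3 + 2 * C + 2 / p)) ≤ m * 2 ^ m * (K1 C p0 * p) := by gcongr
  linarith

theorem cube_sampling (m D g k : ℕ) (f : ℕ → ℕ) (hf : Antitone f) (hfD : ∀ w, f w ≤ D)
    (C p0 : ℝ) (hC : 0 ≤ C) (hp0 : 0 < p0)
    (hΔ : ∀ w, w ≤ m → f w ≠ f (w + 1) → |(w : ℝ) - m / 2| ≤ C * Real.sqrt m)
    (hpD : p0 * (D * 2 ^ m) ≤ ∑ J : Fin m → Bool, (f (wt J) : ℝ))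
    (hg : (g : ℝ) * 2 ^ m ≤ ∑ J : Fin m → Bool, (f (wt J) : ℝ))
    (c1 c2 : ℝ) (hc1 : 0 ≤ c1) (hc2 : 0 ≤ c2) :
    ∃ Z : (Fin m → Bool) → Fin g → Option ((Fin m → Bool) × ℕ),
      (∀ x a z j, Z x a = some (z, j) → j < f (wt z)) ∧
      (∀ x a x' a' w, Z x a = some w → Z x' a' = some w → x = x' ∧ a = a') ∧
      ∑ a, ∑ x, ∑ i : Fin m, zc hd (Z x a) (Z (Function.update x i (!x i)) a) +
        c1 * ∑ a, ∑ x, zd hd x (Z x a) +
        c2 * ((univ.filter (fun q : (Fin m → Bool) × Fin g => Z q.1 q.2 = none)).card : ℝ) ≤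
      g * (m * 2 ^ m * K1 C p0) + c1 * (g * (2 ^ m * Real.sqrt m / p0)) +
        c2 * (2 ^ m * Real.sqrt (k * D) + g * (2 ^ m * (1 - p0) ^ k)) := by
  classical
  have hm2 : (0 : ℝ) < 2 ^ m := by positivity
  rcases Nat.eq_zero_or_pos D with hD | hD
  · -- trivial case
    have hf0 : ∀ w, f w = 0 := fun w => by have := hfD w; omega
    have hg0 : g = 0 := by
      simp only [hf0, Nat.cast_zero, Finset.sum_const_zero] at hg
      have : (g : ℝ) ≤ 0 := by
        by_contra h
        push Not at h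
        have : 0 < (g : ℝ) * 2 ^ m := by positivity
        linarith
      exact_mod_cast le_antisymm this (Nat.cast_nonneg g)
    subst hg0
    refine ⟨fun _ a => a.elim0, fun x a => a.elim0, fun x a => a.elim0, ?_⟩
    have : (univ.filter (fun q : (Fin m → Bool) × Fin 0 =>
      (q.2.elim0 : Option ((Fin m → Bool) × ℕ)) = none)) = ∅ := by
      ext q; exact q.2.elim0
    simp
    positivity
  · obtain ⟨R, hR1, hR2, hR3, hR4⟩ := exists_reflections (Fin m)
    have : Nonempty (Fin D) := ⟨⟨0, hD⟩⟩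
    have hD' : (0 : ℝ) < D := by exact_mod_cast hD
    set s : ℝ := ∑ J : Fin m → Bool, (f (wt J) : ℝ) with hs
    set p : ℝ := s / (D * 2 ^ m) with hpdef
    have hp : ∀ x, 𝔼 s, (if cacc f R D x s then (1 : ℝ) else 0) = p :=
      fun x => expect_cacc f R hR2 hfD x
    have hpp : p0 ≤ p := by
      rw [hpdef, le_div_iff₀ (by positivity)]
      exact hpD
    have hppos : 0 < p := lt_of_lt_of_le hp0 hpp
    have hp1 : p ≤ 1 := by
      rw [hpdef, div_le_one (by positivity)]
      calc s ≤ ∑ J : Fin m → Bool, (D : ℝ) := by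
            rw [hs]; gcongr with J _; exact_mod_cast hfD _
        _ = D * 2 ^ m := by simp [mul_comm]
    have hcap : ∀ z, (g : ℝ) * (load (cacc f R D) (cmv R D) z / p) ≤ ((f (wt z) : ℕ) : ℝ) := by
      intro z
      rw [load_cacc f R hR1 hD hfD z]
      have hspos : 0 < s := by
        have : 0 < p0 * (D * 2 ^ m) := by positivity
        linarith
      have : (g : ℝ) * ((f (wt z) : ℝ) / D / p) = (f (wt z) : ℝ) * (g * 2 ^ m / s) := by
        rw [hpdef]; field_simp
      rw [this]
      have h1 : (g : ℝ) * 2 ^ m / s ≤ 1 := by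
        rw [div_le_one hspos]; exact hg
      calc (f (wt z) : ℝ) * (g * 2 ^ m / s) ≤ (f (wt z) : ℝ) * 1 := by gcongr
        _ = _ := mul_one _
    obtain ⟨Z, hZ1, hZ2, hZ3⟩ := abstract_sampling (cacc f R D) (cmv R D) (fun s => hR1 s.1) p hp
      hppos hp1 hd hd_nonneg hd_comm hd_triangle g k (fun z => f (wt z)) hcap
      (fun x (i : Fin m) => Function.update x i (!x i)) c1 c2 hc1 hc2
    refine ⟨Z, hZ1, hZ2, hZ3.trans ?_⟩
    have e1 := sum_ebound f R hR2 hR3 hR4 hD hf hfD C p0 p hC hp0 hpp hΔ hp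
    have e2 : ∑ x, dload (cacc f R D) (cmv R D) hd x / p ≤ 2 ^ m * Real.sqrt m / p0 := by
      rw [← Finset.sum_div]
      calc (∑ x, dload (cacc f R D) (cmv R D) hd x) / p ≤
          (∑ x : Fin m → Bool, (dev x + Real.sqrt m / 2)) / p := by
            gcongr with x _
            exact dload_cacc f R hR2 hR3 hD x
        _ ≤ (2 ^ m * Real.sqrt m) / p := by
            gcongr
            rw [Finset.sum_add_distrib]
            have := sum_dev m
            simp only [Finset.sum_const, card_univ, nsmul_eq_mul, Fintype.card_fun,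
              Fintype.card_bool, Fintype.card_fin]
            push_cast
            linarith
        _ ≤ _ := by gcongr
    have e3 : ∑ z : Fin m → Bool, Real.sqrt (k * ((f (wt z) : ℕ) : ℝ)) ≤
        2 ^ m * Real.sqrt (k * D) := by
      calc ∑ z : Fin m → Bool, Real.sqrt (k * ((f (wt z) : ℕ) : ℝ)) ≤
          ∑ z : Fin m → Bool, Real.sqrt (k * D) := by
            gcongr with z _
            exact_mod_cast hfD _
        _ = _ := by simp
    have e4 : (Fintype.card (Fin m → Bool) : ℝ) * (1 - p) ^ k ≤ 2 ^ m * (1 - p0) ^ k := by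
      simp only [Fintype.card_fun, Fintype.card_bool, Fintype.card_fin]
      push_cast
      have : 0 ≤ 1 - p := by linarith
      gcongr
    gcongr

end total

end Pool.Agent.Helper27.Cube
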