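import Pool.Agent.Helper27.Cube.PartialMap

set_option autoImplicit false

/-! Extending the partial injection and the stretch of the result. -/

namespace Pool.Agent.Helper27.Cube

open Finset

/-- Extension to a bijection onto the target set. -/
theorem extend_map (m d e : ℕ)
    (P : (Fin m → Bool) → (Fin e → Bool) → Option ((Fin m → Bool) × (Fin d → Bool)))
    (hinj : ∀ x a x' a' w, P x a = some w → P x' a' = some w → x = x' ∧ a = a')
    (T : Finset ((Fin m → Bool) × (Fin d → Bool))) (hT : T.card = 2 ^ m * 2 ^ e)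
    (hPT : ∀ x a w, P x a = some w → w ∈ T) :
    ∃ Ψ : ((Fin m → Bool) × (Fin e → Bool)) → (Fin m → Bool) × (Fin d → Bool),
      Function.Injective Ψ ∧ (∀ q, Ψ q ∈ T) ∧ (∀ w ∈ T, ∃ q, Ψ q = w) ∧
      ∀ x a w, P x a = some w → Ψ (x, a) = w := by
  classical
  have hcard : Fintype.card ((Fin m → Bool) × (Fin e → Bool)) = T.card := by
    rw [hT]; simp
  obtain ⟨Ψ, hΨ⟩ := Finset.exists_equiv_extend_of_card_eq hcard
    (s := univ.filter (fun q : (Fin m → Bool) × (Fin e → Bool) => (P q.1 q.2).isSome))
    (f := fun q => (P q.1 q.2).getD (fun _ => false, fun _ => false)) (by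
      intro w hw
      rw [Finset.mem_image] at hw
      obtain ⟨q, hq, rfl⟩ := hw
      simp only [mem_filter, mem_univ, true_and] at hq
      obtain ⟨w, hw⟩ := Option.isSome_iff_exists.mp hq
      rw [hw]
      exact hPT _ _ _ hw) (by
      intro q hq q' hq' h
      simp only [coe_filter, mem_univ, true_and, Set.mem_ofPred_eq] at hq hq'
      obtain ⟨w, hw⟩ := Option.isSome_iff_exists.mp hq
      obtain ⟨w', hw'⟩ := Option.isSome_iff_exists.mp hq'
      simp only [hw, hw', Option.getD_some] at h
      subst h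
      obtain ⟨h1, h2⟩ := hinj _ _ _ _ _ hw hw'
      exact Prod.ext h1 h2)
  refine ⟨fun q => (Ψ q : (Fin m → Bool) × (Fin d → Bool)), ?_, fun q => (Ψ q).2, ?_, ?_⟩
  · intro q q' h
    exact Ψ.injective (Subtype.ext h)
  · intro w hw
    refine ⟨Ψ.symm ⟨w, hw⟩, ?_⟩
    simp
  · intro x a w h
    have h1 := hΨ (x, a) (by simp [h])
    simp only [h, Option.getD_some] at h1
    exact h1

section stretch
variable {m d e : ℕ}

/-- distance in the product -/
def hd2 (w w' : (Fin m → Bool) × (Fin d → Bool)) : ℝ := hd w.1 w'.1 + hd w.2 w'.2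

lemma hd_le {n : ℕ} (x y : Fin n → Bool) : hd x y ≤ n := by
  unfold hd
  have := hammingDist_le_card_fintype (x := x) (y := y)
  rw [Fintype.card_fin] at this
  exact_mod_cast this

lemma hd2_le (w w' : (Fin m → Bool) × (Fin d → Bool)) : hd2 w w' ≤ m + d :=
  add_le_add (hd_le _ _) (hd_le _ _)

/-- indicator of undefined values -/
def nn (o : Option ((Fin m → Bool) × (Fin d → Bool))) : ℝ := if o = none then 1 else 0

lemma nn_nonneg (o : Option ((Fin m → Bool) × (Fin d → Bool))) : 0 ≤ nn o := by
  unfold nn; split <;> norm_num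

lemma pc_nonneg (o o' : Option ((Fin m → Bool) × (Fin d → Bool))) : 0 ≤ pc o o' := by
  unfold pc
  split
  · exact add_nonneg (hd_nonneg _ _) (hd_nonneg _ _)
  · exact le_rfl

lemma pd_nonneg (x : Fin m → Bool) (o : Option ((Fin m → Bool) × (Fin d → Bool))) : 0 ≤ pd x o := by
  unfold pd
  split
  · exact hd_nonneg _ _
  · exact le_rfl

variable (P : (Fin m → Bool) → (Fin e → Bool) → Option ((Fin m → Bool) × (Fin d → Bool)))
  (Ψ : ((Fin m → Bool) × (Fin e → Bool)) → (Fin m → Bool) × (Fin d → Bool))
  (hΨ : ∀ x a w, P x a = some w → Ψ (x, a) = w)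

include hΨ in
lemma edge1 (x x' : Fin m → Bool) (a : Fin e → Bool) :
    hd2 (Ψ (x, a)) (Ψ (x', a)) ≤ pc (P x a) (P x' a) + (m + d) * (nn (P x a) + nn (P x' a)) := by
  have h0 := hd2_le (Ψ (x, a)) (Ψ (x', a))
  have hmd : (0 : ℝ) ≤ (m : ℝ) + d := by positivity
  cases h1 : P x a with
  | none =>
    have h2 := nn_nonneg (P x' a)
    have h3 := pc_nonneg (none : Option ((Fin m → Bool) × (Fin d → Bool))) (P x' a)
    have h4 : nn (none : Option ((Fin m → Bool) × (Fin d → Bool))) = 1 := by unfold nn; simp
    rw [h4]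
    nlinarith
  | some w =>
    cases h1' : P x' a with
    | none =>
      have h2 := nn_nonneg (some w)
      have h3 := pc_nonneg (some w) (none : Option ((Fin m → Bool) × (Fin d → Bool)))
      have h4 : nn (none : Option ((Fin m → Bool) × (Fin d → Bool))) = 1 := by unfold nn; simp
      rw [h4]
      nlinarith
    | some w' =>
      rw [hΨ _ _ _ h1, hΨ _ _ _ h1']
      have h2 := nn_nonneg (some w)
      have h2' := nn_nonneg (some w')
      have h3 : pc (some w) (some w') = hd2 w w' := rfl
      rw [h3]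
      nlinarith [mul_nonneg hmd (add_nonneg h2 h2')]

include hΨ in
lemma edge2 (x : Fin m → Bool) (a a' : Fin e → Bool) :
    hd2 (Ψ (x, a)) (Ψ (x, a')) ≤ (pd x (P x a) + pd x (P x a')) + d +
      (m + d) * (nn (P x a) + nn (P x a')) := by
  have h0 := hd2_le (Ψ (x, a)) (Ψ (x, a'))
  have hmd : (0 : ℝ) ≤ (m : ℝ) + d := by positivity
  have hd0 : (0 : ℝ) ≤ (d : ℝ) := by positivity
  have h5 := pd_nonneg x (P x a)
  have h5' := pd_nonneg x (P x a')
  cases h1 : P x a with
  | none =>
    rw [h1] at h5
    have h2 := nn_nonneg (P x a')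
    have h4 : nn (none : Option ((Fin m → Bool) × (Fin d → Bool))) = 1 := by unfold nn; simp
    rw [h4]
    nlinarith
  | some w =>
    rw [h1] at h5
    cases h1' : P x a' with
    | none =>
      rw [h1'] at h5'
      have h2 := nn_nonneg (some w)
      have h4 : nn (none : Option ((Fin m → Bool) × (Fin d → Bool))) = 1 := by unfold nn; simp
      rw [h4]
      nlinarith
    | some w' =>
      rw [hΨ _ _ _ h1, hΨ _ _ _ h1']
      have h2 := nn_nonneg (some w)
      have h2' := nn_nonneg (some w')
      have h3 : pd x (some w) = hd x w.1 := rfl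
      have h3' : pd x (some w') = hd x w'.1 := rfl
      have h6 : hd2 w w' ≤ hd x w.1 + hd x w'.1 + d := by
        unfold hd2
        have h7 := hd_triangle w.1 x w'.1
        have h8 := hd_comm w.1 x
        have h9 := hd_le w.2 w'.2
        linarith
      rw [h3, h3']
      nlinarith [mul_nonneg hmd (add_nonneg h2 h2')]

include hΨ in
theorem stretch_bound :
    ∑ x, ∑ a, (∑ i : Fin m, hd2 (Ψ (x, a)) (Ψ (Function.update x i (!x i), a)) +
        ∑ j : Fin e, hd2 (Ψ (x, a)) (Ψ (x, Function.update a j (!a j)))) ≤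
      (∑ a, ∑ x, ∑ i : Fin m, pc (P x a) (P (Function.update x i (!x i)) a) +
        (2 * e) * ∑ a, ∑ x, pd x (P x a) +
        (2 * (m + e) * (m + d)) * (∑ a, ∑ x, if P x a = none then (1 : ℝ) else 0)) +
        2 ^ m * 2 ^ e * (e * d) := by
  have A : ∑ x, ∑ a, ∑ i : Fin m, hd2 (Ψ (x, a)) (Ψ (Function.update x i (!x i), a)) ≤
      ∑ a, ∑ x, ∑ i : Fin m, pc (P x a) (P (Function.update x i (!x i)) a) +
        (2 * m * (m + d)) * ∑ a, ∑ x, nn (P x a) := by
    rw [Finset.sum_comm, Finset.mul_sum, ← Finset.sum_add_distrib]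
    refine Finset.sum_le_sum fun a _ => ?_
    calc ∑ x, ∑ i : Fin m, hd2 (Ψ (x, a)) (Ψ (Function.update x i (!x i), a)) ≤
        ∑ x, ∑ i : Fin m, (pc (P x a) (P (Function.update x i (!x i)) a) +
          (m + d) * (nn (P x a) + nn (P (Function.update x i (!x i)) a))) :=
          Finset.sum_le_sum fun x _ => Finset.sum_le_sum fun i _ => edge1 P Ψ hΨ _ _ _
      _ = ∑ x, ∑ i : Fin m, pc (P x a) (P (Function.update x i (!x i)) a) +
          (m + d) * (m * ∑ x, nn (P x a) + ∑ x, ∑ i : Fin m, nn (P (Function.update x i (!x i)) a)) := by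
          simp only [Finset.sum_add_distrib, ← Finset.mul_sum, Finset.sum_const, card_univ,
            Fintype.card_fin, nsmul_eq_mul]
      _ = _ := by
          have : ∑ x : Fin m → Bool, ∑ i : Fin m, nn (P (Function.update x i (!x i)) a) =
              m * ∑ x, nn (P x a) := by
            rw [Finset.sum_comm]
            have : ∀ i : Fin m, ∑ x : Fin m → Bool, nn (P (Function.update x i (!x i)) a) =
                ∑ x, nn (P x a) := fun i => sum_flip i (fun x => nn (P x a))
            simp [this]
          rw [this]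
          ring
  have B : ∑ x, ∑ a, ∑ j : Fin e, hd2 (Ψ (x, a)) (Ψ (x, Function.update a j (!a j))) ≤
      (2 * e) * ∑ a, ∑ x, pd x (P x a) + (2 * e * (m + d)) * ∑ a, ∑ x, nn (P x a) +
        2 ^ m * 2 ^ e * (e * d) := by
    rw [Finset.sum_comm (s := univ) (t := univ) (f := fun a x => pd x (P x a)),
      Finset.sum_comm (s := univ) (t := univ) (f := fun a x => nn (P x a))]
    have hc : (2 : ℝ) ^ m * 2 ^ e * (e * d) = ∑ x : Fin m → Bool, (2 ^ e * (e * d) : ℝ) := by
      simp [mul_assoc]
    rw [hc, Finset.mul_sum, Finset.mul_sum, ← Finset.sum_add_distrib, ← Finset.sum_add_distrib]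
    refine Finset.sum_le_sum fun x _ => ?_
    calc ∑ a, ∑ j : Fin e, hd2 (Ψ (x, a)) (Ψ (x, Function.update a j (!a j))) ≤
        ∑ a, ∑ j : Fin e, ((pd x (P x a) + pd x (P x (Function.update a j (!a j)))) + d +
          (m + d) * (nn (P x a) + nn (P x (Function.update a j (!a j))))) :=
          Finset.sum_le_sum fun a _ => Finset.sum_le_sum fun j _ => edge2 P Ψ hΨ _ _ _
      _ = (e * ∑ a, pd x (P x a) + ∑ a, ∑ j : Fin e, pd x (P x (Function.update a j (!a j)))) +
          2 ^ e * (e * d) +
          (m + d) * (e * ∑ a, nn (P x a) + ∑ a, ∑ j : Fin e, nn (P x (Function.update a j (!a j)))) := by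
          simp only [Finset.sum_add_distrib, ← Finset.mul_sum, Finset.sum_const, card_univ,
            Fintype.card_fin, nsmul_eq_mul, Fintype.card_fun, Fintype.card_bool]
          push_cast
          ring
      _ = _ := by
          have h1 : ∑ a : Fin e → Bool, ∑ j : Fin e, nn (P x (Function.update a j (!a j))) =
              e * ∑ a, nn (P x a) := by
            rw [Finset.sum_comm]
            have : ∀ j : Fin e, ∑ a : Fin e → Bool, nn (P x (Function.update a j (!a j))) =
                ∑ a, nn (P x a) := fun j => sum_flip j (fun a => nn (P x a))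
            simp [this]
          have h2 : ∑ a : Fin e → Bool, ∑ j : Fin e, pd x (P x (Function.update a j (!a j))) =
              e * ∑ a, pd x (P x a) := by
            rw [Finset.sum_comm]
            have : ∀ j : Fin e, ∑ a : Fin e → Bool, pd x (P x (Function.update a j (!a j))) =
                ∑ a, pd x (P x a) := fun j => sum_flip j (fun a => pd x (P x a))
            simp [this]
          rw [h1, h2]
          ring
  have Cc : (∑ a, ∑ x, if P x a = none then (1 : ℝ) else 0) = ∑ a, ∑ x, nn (P x a) := rfl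
  rw [Cc]
  simp only [Finset.sum_add_distrib]
  linarith

end stretch

end Pool.Agent.Helper27.Cube
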