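import Pool.Agent.Helper27.Cube.Target

set_option autoImplicit false

/-! Numerical estimates and the final bound. -/

namespace Pool.Agent.Helper27.Cube

open Finset

/-- size of the classes -/
lemma Dmin_bound (n d : ℕ) (h16 : 16 ≤ d) (h2 : n < 256 * (d + 1) ^ 2) :
    (n : ℝ) ^ 3 ≤ 2 * 10 ^ 12 * (d.choose 6 : ℝ) := by
  have h := choose_lower d 6 (by omega)
  have hd : (16 : ℝ) ≤ d := by exact_mod_cast h16
  have h3 : (d : ℝ) ^ 6 ≤ 46080 * (d.choose 6 : ℝ) := by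
    have : d ^ 6 ≤ 46080 * d.choose 6 := by
      have h4 : 2 ^ 6 * (6 : ℕ).factorial = 46080 := by decide
      rw [h4] at h
      exact h
    exact_mod_cast this
  have hn : (n : ℝ) ≤ (17 * d) ^ 2 := by
    have h5 : (n : ℝ) < 256 * ((d : ℝ) + 1) ^ 2 := by exact_mod_cast h2
    nlinarith
  calc (n : ℝ) ^ 3 ≤ ((17 * (d : ℝ)) ^ 2) ^ 3 := by gcongr
    _ = 24137569 * (d : ℝ) ^ 6 := by ring
    _ ≤ 24137569 * (46080 * (d.choose 6 : ℝ)) := by gcongr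
    _ ≤ 2 * 10 ^ 12 * (d.choose 6 : ℝ) := by
        have : (0 : ℝ) ≤ (d.choose 6 : ℝ) := by positivity
        nlinarith

lemma pow_bound (n : ℕ) (hn : 0 < n) : (1 - 1 / 8 : ℝ) ^ n ≤ 8 / n := by
  have hn' : (0 : ℝ) < n := by exact_mod_cast hn
  have h1 : 1 + (n : ℝ) * (1 / 8) ≤ (1 + 1 / 8 : ℝ) ^ n := one_add_mul_le_pow (by norm_num) n
  have h2 : (1 - 1 / 8 : ℝ) ^ n * (1 + 1 / 8 : ℝ) ^ n ≤ 1 := by
    rw [← mul_pow]
    exact pow_le_one₀ (by norm_num) (by norm_num)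
  rw [le_div_iff₀ hn']
  have h3 : 0 ≤ (1 - 1 / 8 : ℝ) ^ n := by positivity
  nlinarith

/-- the numerical estimate -/
lemma numeric (n m e d : ℕ) (hn : n = m + e + 1) (hd : d = e + 2) (h16 : 16 ≤ d)
    (h1 : 256 * d ^ 2 ≤ n) (h2 : n < 256 * (d + 1) ^ 2) :
    2 ^ e * (m * 2 ^ m * (K1 4 (1 / 8) + 4 * (6 : ℕ))) +
      (2 * e) * (2 ^ e * (2 ^ m * Real.sqrt m / (1 / 8))) +
      (2 * (m + e) * (m + d)) * (2 ^ m * (2 ^ d * Real.sqrt (n / (d.choose 6 : ℕ))) +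
        2 ^ e * (2 ^ m * (1 - 1 / 8) ^ n) + 2 ^ m * (1 + 2 ^ d / (d.choose 6 : ℕ))) +
      2 ^ m * 2 ^ e * (e * d) ≤ 10 ^ 14 * ((n : ℝ) * 2 ^ n) := by
  have hD := Dmin_bound n d h16 h2
  have hDle : (d.choose 6 : ℝ) ≤ 2 ^ d := by exact_mod_cast Nat.choose_le_two_pow d 6
  set D : ℝ := (d.choose 6 : ℝ) with hDdef
  have hn0 : 0 < n := by omega
  have hn' : (1 : ℝ) ≤ n := by exact_mod_cast hn0
  have hnpos : (0 : ℝ) < n := by linarith
  have hDpos : 0 < D := by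
    have : 0 < (n : ℝ) ^ 3 := by positivity
    nlinarith
  have hpow := pow_bound n hn0
  -- exponents
  have e1 : (2 : ℝ) ^ m * 2 ^ e = 2 ^ n / 2 := by
    rw [hn, pow_succ, pow_add]; ring
  have e2 : (2 : ℝ) ^ m * 2 ^ d = 2 * 2 ^ n := by
    rw [hn, hd, ← pow_add, ← pow_succ']
    congr 1
  set W : ℝ := 2 ^ n with hW
  have hWpos : 0 < W := by positivity
  have hm : (m : ℝ) ≤ n := by exact_mod_cast (by omega : m ≤ n)
  have he : (e : ℝ) ≤ d := by exact_mod_cast (by omega : e ≤ d)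
  have he0 : (0 : ℝ) ≤ e := Nat.cast_nonneg e
  have hm0 : (0 : ℝ) ≤ m := Nat.cast_nonneg m
  have hd0 : (0 : ℝ) ≤ d := Nat.cast_nonneg d
  have hme : (m : ℝ) + e ≤ n := by exact_mod_cast (by omega : m + e ≤ n)
  have hmd : (m : ℝ) + d ≤ 2 * n := by exact_mod_cast (by omega : m + d ≤ 2 * n)
  have hdn : 256 * (d : ℝ) ^ 2 ≤ n := by exact_mod_cast h1
  set q : ℝ := Real.sqrt n with hq
  have hq0 : 0 ≤ q := Real.sqrt_nonneg _
  have hq2 : q ^ 2 = n := Real.sq_sqrt hnpos.le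
  have hdq : 16 * (d : ℝ) ≤ q := by
    apply Real.le_sqrt_of_sq_le
    have h7 : (16 * (d : ℝ)) ^ 2 = 256 * (d : ℝ) ^ 2 := by ring
    rw [h7]
    exact hdn
  have hmq : Real.sqrt m ≤ q := Real.sqrt_le_sqrt hm
  have hnW : 0 < (n : ℝ) * W := mul_pos hnpos hWpos
  -- term 1
  have t1 : (2 : ℝ) ^ e * (m * 2 ^ m * (K1 4 (1 / 8) + 4 * (6 : ℕ))) ≤ 122 * (n * W) := by
    have hK : K1 4 (1 / 8) + 4 * ((6 : ℕ) : ℝ) = 243 := by unfold K1; norm_num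
    rw [hK]
    calc (2 : ℝ) ^ e * (m * 2 ^ m * 243) = (2 ^ m * 2 ^ e) * m * 243 := by ring
      _ = W / 2 * m * 243 := by rw [e1]
      _ ≤ W / 2 * n * 243 := by gcongr
      _ = 121.5 * (n * W) := by ring
      _ ≤ 122 * (n * W) := mul_le_mul_of_nonneg_right (by norm_num) hnW.le
  -- term 2
  have t2 : (2 * (e : ℝ)) * (2 ^ e * (2 ^ m * Real.sqrt m / (1 / 8))) ≤ n * W := by
    calc (2 * (e : ℝ)) * (2 ^ e * (2 ^ m * Real.sqrt m / (1 / 8))) =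
        16 * (2 ^ m * 2 ^ e) * (e * Real.sqrt m) := by ring
      _ = 8 * W * (e * Real.sqrt m) := by rw [e1]; ring
      _ ≤ 8 * W * (d * q) := by gcongr
      _ ≤ 8 * W * (q / 16 * q) := by
          have : (d : ℝ) ≤ q / 16 := by linarith
          gcongr
      _ = W * q ^ 2 / 2 := by ring
      _ = n * W / 2 := by rw [hq2]; ring
      _ ≤ n * W := by linarith
  -- term 3
  have t3a : Real.sqrt (n / D) ≤ 2 * 10 ^ 6 / n := by
    apply Real.sqrt_le_iff.mpr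
    refine ⟨by positivity, ?_⟩
    rw [div_pow, div_le_div_iff₀ hDpos (by positivity)]
    calc (n : ℝ) * n ^ 2 = n ^ 3 := by ring
      _ ≤ 2 * 10 ^ 12 * D := hD
      _ ≤ (2 * 10 ^ 6) ^ 2 * D := mul_le_mul_of_nonneg_right (by norm_num) hDpos.le
  have t3b : 2 ^ m * (1 + 2 ^ d / D) ≤ 4 * W * (2 * 10 ^ 12 / n ^ 3) := by
    have h3 : (2 : ℝ) ^ m ≤ 2 ^ m * (2 ^ d / D) := by
      have : 1 ≤ 2 ^ d / D := by rw [le_div_iff₀ hDpos]; linarith
      exact le_mul_of_one_le_right (by positivity) this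
    have h4 : 1 / D ≤ 2 * 10 ^ 12 / n ^ 3 := by
      rw [div_le_div_iff₀ hDpos (by positivity)]
      linarith
    calc 2 ^ m * (1 + 2 ^ d / D) ≤ 2 * (2 ^ m * (2 ^ d / D)) := by linarith
      _ = 2 * (2 ^ m * 2 ^ d) * (1 / D) := by ring
      _ = 4 * W * (1 / D) := by rw [e2]; ring
      _ ≤ _ := by gcongr
  have t3c : 2 ^ m * (2 ^ d * Real.sqrt (n / D)) + 2 ^ e * (2 ^ m * (1 - 1 / 8) ^ n) +
      2 ^ m * (1 + 2 ^ d / D) ≤
      2 * W * (2 * 10 ^ 6 / n) + W / 2 * (8 / n) + 4 * W * (2 * 10 ^ 12 / n ^ 3) := by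
    have h5 : 2 ^ m * (2 ^ d * Real.sqrt (n / D)) ≤ 2 * W * (2 * 10 ^ 6 / n) := by
      calc 2 ^ m * (2 ^ d * Real.sqrt (n / D)) = (2 ^ m * 2 ^ d) * Real.sqrt (n / D) := by ring
        _ = 2 * W * Real.sqrt (n / D) := by rw [e2]
        _ ≤ _ := by gcongr
    have h6 : 2 ^ e * (2 ^ m * (1 - 1 / 8 : ℝ) ^ n) ≤ W / 2 * (8 / n) := by
      calc 2 ^ e * (2 ^ m * (1 - 1 / 8 : ℝ) ^ n) = (2 ^ m * 2 ^ e) * (1 - 1 / 8 : ℝ) ^ n := by ring
        _ = W / 2 * (1 - 1 / 8 : ℝ) ^ n := by rw [e1]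
        _ ≤ _ := by gcongr
    linarith
  have t3 : (2 * ((m : ℝ) + e) * (m + d)) * (2 ^ m * (2 ^ d * Real.sqrt (n / D)) +
      2 ^ e * (2 ^ m * (1 - 1 / 8) ^ n) + 2 ^ m * (1 + 2 ^ d / D)) ≤ 5 * 10 ^ 13 * (n * W) := by
    have hS0 : 0 ≤ 2 ^ m * (2 ^ d * Real.sqrt (n / D)) +
      2 ^ e * (2 ^ m * (1 - 1 / 8 : ℝ) ^ n) + 2 ^ m * (1 + 2 ^ d / D) := by positivity
    have hc : 2 * ((m : ℝ) + e) * (m + d) ≤ 4 * n ^ 2 := by
      calc 2 * ((m : ℝ) + e) * (m + d) ≤ 2 * n * (2 * n) := by gcongr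
        _ = _ := by ring
    calc (2 * ((m : ℝ) + e) * (m + d)) * (2 ^ m * (2 ^ d * Real.sqrt (n / D)) +
      2 ^ e * (2 ^ m * (1 - 1 / 8) ^ n) + 2 ^ m * (1 + 2 ^ d / D)) ≤
        (4 * n ^ 2) * (2 * W * (2 * 10 ^ 6 / n) + W / 2 * (8 / n) + 4 * W * (2 * 10 ^ 12 / n ^ 3)) := by
          exact mul_le_mul hc t3c hS0 (by positivity)
      _ = W * n * (16 * 10 ^ 6 + 16) + W * (32 * 10 ^ 12 / n) := by
          field_simp
          ring
      _ ≤ W * n * (16 * 10 ^ 6 + 16) + W * (32 * 10 ^ 12 * n) := by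
          have : 32 * 10 ^ 12 / (n : ℝ) ≤ 32 * 10 ^ 12 * n := by
            refine div_le_of_le_mul₀ hnpos.le (by positivity) ?_
            have h10 : (1 : ℝ) ≤ n * n := by
              calc (1 : ℝ) = 1 * 1 := by norm_num
                _ ≤ n * n := by gcongr
            rw [mul_assoc]
            exact le_mul_of_one_le_right (by positivity) h10
          gcongr
      _ = (16 * 10 ^ 6 + 16 + 32 * 10 ^ 12) * (n * W) := by ring
      _ ≤ _ := mul_le_mul_of_nonneg_right (by norm_num) hnW.le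
  have t4 : (2 : ℝ) ^ m * 2 ^ e * (e * d) ≤ n * W := by
    calc (2 : ℝ) ^ m * 2 ^ e * (e * d) = W / 2 * (e * d) := by rw [e1]
      _ ≤ W / 2 * (d * d) := by gcongr
      _ ≤ W / 2 * n := by
          have : (d : ℝ) * d ≤ n := by
            have h8 : (d : ℝ) * d = d ^ 2 := by ring
            have h9 : (0 : ℝ) ≤ (d : ℝ) ^ 2 := by positivity
            rw [h8]; linarith
          gcongr
      _ = n * W / 2 := by ring
      _ ≤ n * W := by linarith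
  linarith

/-- the map in product coordinates -/
theorem exists_product_map (n m e d k : ℕ) (hn : n = m + e + 1) (hd : d = e + 2) (h16 : 16 ≤ d)
    (h1 : 256 * d ^ 2 ≤ n) (h2 : n < 256 * (d + 1) ^ 2)
    (hk1 : 4 * ∑ j ∈ range (k + 1), (n + 1).choose j ≤ 2 ^ (n + 1))
    (hk2 : 2 ^ (n + 1) < 4 * ∑ j ∈ range (k + 1 + 1), (n + 1).choose j) :
    ∃ Ψ : ((Fin m → Bool) × (Fin e → Bool)) → (Fin m → Bool) × (Fin d → Bool),
      Function.Injective Ψ ∧ (∀ w, wt w.1 + wt w.2 ≤ k → ∃ q, Ψ q = w) ∧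
      (∀ q, 2 * (wt (Ψ q).1 + wt (Ψ q).2) < n + 1) ∧ TS2 Ψ ≤ 10 ^ 14 * ((n : ℝ) * 2 ^ n) := by
  classical
  have hN : n + 1 = m + d := by omega
  have hd2 : 16 ^ 2 ≤ d ^ 2 := Nat.pow_le_pow_left h16 2
  have hup := threshold_upper (n + 1) k (by omega) hk1
  have hlow := threshold_lower (n + 1) (k + 1) (by omega) hk2
  have hM : 2 ^ (n + 1) = 4 * (2 ^ e * 2 ^ m) := by
    rw [hn, show m + e + 1 + 1 = 2 + e + m by ring, pow_add, pow_add]; ring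
  have hM1 : (Bl m d k).card ≤ 2 ^ e * 2 ^ m := by
    rw [card_Bl, ← hN]; omega
  have hM2 : 2 ^ e * 2 ^ m < (Bl m d (k + 1)).card := by
    rw [card_Bl, ← hN]; omega
  obtain ⟨H, hH1, hH2⟩ := exists_H m k (2 ^ e * 2 ^ m) hM1 hM2
  obtain ⟨T, hT1, hT2, hT3⟩ := exists_T m k (2 ^ e * 2 ^ m) H hH1 hM2.le
  obtain ⟨cl, hcl1, hcl2⟩ := exists_classes d 6
  -- real estimates
  have hdr : (16 : ℝ) ≤ d := by exact_mod_cast h16
  have hnr : 256 * (d : ℝ) ^ 2 ≤ n := by exact_mod_cast h1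
  have hNr : (n : ℝ) + 1 = m + d := by exact_mod_cast hN
  have hmr : (n : ℝ) ≤ 4 * m := by nlinarith
  set q : ℝ := Real.sqrt n with hq
  have hq0 : 0 ≤ q := Real.sqrt_nonneg _
  have hq2 : q ^ 2 = n := Real.sq_sqrt (Nat.cast_nonneg n)
  have hdq : 16 * (d : ℝ) ≤ q := by
    apply Real.le_sqrt_of_sq_le
    have h7 : (16 * (d : ℝ)) ^ 2 = 256 * (d : ℝ) ^ 2 := by ring
    rw [h7]
    exact hnr
  have hmq : q ≤ 2 * Real.sqrt m := by
    rw [hq]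
    apply Real.sqrt_le_iff.mpr
    refine ⟨by positivity, ?_⟩
    rw [mul_pow, Real.sq_sqrt (Nat.cast_nonneg m)]
    linarith
  have hNq : Real.sqrt ((n + 1 : ℕ) : ℝ) ≤ q + 1 := by
    apply Real.sqrt_le_iff.mpr
    refine ⟨by positivity, ?_⟩
    push_cast
    nlinarith
  have hΔ : ∀ w, w ≤ m → ∀ γ : Fin d → Bool, al k H w γ → ¬ al k H (w + 1) γ →
      |(w : ℝ) - m / 2| ≤ 4 * Real.sqrt m := by
    intro w _ γ ha hb
    have hγ := wt_le γ
    rw [Fintype.card_fin] at hγ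
    unfold al at ha hb
    push Not at hb
    have hw1 : w ≤ k + 1 := by rcases ha with h | h <;> omega
    have hw2 : k ≤ w + d := by have := hb.1; omega
    have hup' : 2 * ((k : ℝ) + 1) < m + d := by
      rw [← hNr]; exact_mod_cast hup
    have hw1' : (w : ℝ) ≤ k + 1 := by exact_mod_cast hw1
    have hw2' : (k : ℝ) ≤ w + d := by exact_mod_cast hw2
    push_cast at hlow hNq
    rw [abs_le]
    constructor
    · linarith
    · linarith
  have hmu : ((d : ℝ) + 1) * mu m ≤ 1 / 8 := by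
    unfold mu
    rw [mul_one_div, div_le_iff₀ (by positivity)]
    have : 8 * ((d : ℝ) + 1) ≤ Real.sqrt (m + 1) := by
      apply Real.le_sqrt_of_sq_le
      nlinarith
    linarith
  have hroom := room m d k (by rw [← hN]; exact hk2) hmu H
  have hDmin0 : 0 < d.choose 6 := Nat.choose_pos (by omega)
  obtain ⟨P, hP1, hP2, hP3⟩ := partial_map m d e n (d.choose 6) 6 cl (al k H) hcl1 hDmin0
    (fun x => hcl2 x) (by
      intro w γ h
      unfold al at h ⊢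
      left
      rcases h with h | h <;> omega)
    4 (1 / 8) (by norm_num) (by norm_num) (by norm_num) hΔ hroom
    (by rw [sum_Tc]; exact hH1) (by rw [sum_Tc]; exact hH2)
    (2 * e) (2 * (m + e) * (m + d)) (by positivity) (by positivity)
  obtain ⟨Ψ, h3, h4, h5, h6⟩ := extend_map m d e P hP2 T (by rw [hT3]; ring) (by
    intro x a w h
    apply hT1
    rw [mem_Tc]
    exact hP1 x a w.1 w.2 h)
  refine ⟨Ψ, h3, ?_, ?_, ?_⟩
  · intro w hw
    refine h5 w (hT1 ?_)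
    rw [mem_Tc]
    left; exact hw
  · intro q
    have h7 := hT2 (h4 q)
    simp only [Bl, mem_filter, mem_univ, true_and] at h7
    omega
  · have h8 := stretch_bound P Ψ h6
    have h9 := numeric n m e d hn hd h16 h1 h2
    unfold TS2
    linarith

/-- existence of the radius -/
lemma exists_radius (n : ℕ) (hn : 1 ≤ n) :
    ∃ k, IsGreatest {m : ℕ | ∑ j ∈ Finset.range (m + 1), (n + 1).choose j ≤ 2 ^ (n - 1)} k ∧
      4 * ∑ j ∈ range (k + 1), (n + 1).choose j ≤ 2 ^ (n + 1) ∧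
      2 ^ (n + 1) < 4 * ∑ j ∈ range (k + 1 + 1), (n + 1).choose j := by
  classical
  set P : ℕ → Prop := fun m => ∑ j ∈ Finset.range (m + 1), (n + 1).choose j ≤ 2 ^ (n - 1) with hP
  have h4 : 4 * 2 ^ (n - 1) = 2 ^ (n + 1) := by
    obtain ⟨t, rfl⟩ : ∃ t, n = t + 1 := ⟨n - 1, by omega⟩
    simp only [Nat.add_sub_cancel]
    ring
  have h0 : P 0 := by
    rw [hP]
    simp
    exact Nat.one_le_two_pow
  have hbig : ∀ m, P m → m ≤ n + 1 := by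
    intro m hm
    by_contra hcon
    push Not at hcon
    have h5 : 2 ^ (n + 1) ≤ ∑ j ∈ Finset.range (m + 1), (n + 1).choose j := by
      rw [← Nat.sum_range_choose (n + 1)]
      refine Finset.sum_le_sum_of_subset ?_
      intro j hj
      rw [Finset.mem_range] at hj ⊢
      omega
    have h6 : 0 < 2 ^ (n - 1) := by positivity
    have hm' : ∑ j ∈ Finset.range (m + 1), (n + 1).choose j ≤ 2 ^ (n - 1) := hm
    omega
  obtain ⟨k, hk, hmax⟩ : ∃ k, P k ∧ ∀ m, P m → m ≤ k :=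
    ⟨Nat.findGreatest P (n + 1), Nat.findGreatest_spec (Nat.zero_le _) h0,
      fun m hm => Nat.le_findGreatest (hbig m hm) hm⟩
  refine ⟨k, ⟨hk, fun m hm => hmax m hm⟩, ?_, ?_⟩
  · rw [← h4]
    exact Nat.mul_le_mul_left 4 hk
  · have h7 : ¬ P (k + 1) := by
      intro h
      have := hmax _ h
      omega
    have h8 : ¬ ∑ j ∈ Finset.range (k + 1 + 1), (n + 1).choose j ≤ 2 ^ (n - 1) := h7
    rw [← h4]
    omega

/-- The main theorem. -/
theorem main_bound (n : ℕ) (hn : 65536 ≤ n) :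
    ∃ k, IsGreatest {m : ℕ | ∑ j ∈ Finset.range (m + 1), (n + 1).choose j ≤ 2 ^ (n - 1)} k ∧
      ∃ (A : Finset (Fin (n + 1) → Bool)) (φ : (Fin n → Bool) → (Fin (n + 1) → Bool)),
      (∀ x, (wt x ≤ k ∨ n + 1 - k ≤ wt x) → x ∈ A) ∧ A.card = 2 ^ n ∧
      Function.Injective φ ∧ (∀ x, φ x ∈ A) ∧
      ∑ x : Fin n → Bool, ∑ i, hd (φ x) (φ (Function.update x i (!x i))) ≤
        (3 * 10 ^ 14) * ((n : ℝ) * 2 ^ n) := by
  obtain ⟨k, hk, hk1, hk2⟩ := exists_radius n (by omega)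
  refine ⟨k, hk, ?_⟩
  -- the number of ancilla coordinates
  obtain ⟨d, h16, h1, h2⟩ : ∃ d, 16 ≤ d ∧ 256 * d ^ 2 ≤ n ∧ n < 256 * (d + 1) ^ 2 := by
    refine ⟨Nat.sqrt n / 16, ?_, ?_, ?_⟩
    · have : 256 ≤ Nat.sqrt n := by
        rw [Nat.le_sqrt]; omega
      omega
    · have h3 : 16 * (Nat.sqrt n / 16) ≤ Nat.sqrt n := Nat.mul_div_le _ _
      have h4 : Nat.sqrt n * Nat.sqrt n ≤ n := Nat.sqrt_le n
      calc 256 * (Nat.sqrt n / 16) ^ 2 = (16 * (Nat.sqrt n / 16)) * (16 * (Nat.sqrt n / 16)) := by ring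
        _ ≤ Nat.sqrt n * Nat.sqrt n := Nat.mul_le_mul h3 h3
        _ ≤ n := h4
    · have h3 : Nat.sqrt n + 1 ≤ 16 * (Nat.sqrt n / 16 + 1) := by omega
      have h4 : n < (Nat.sqrt n + 1) * (Nat.sqrt n + 1) := Nat.lt_succ_sqrt n
      calc n < (Nat.sqrt n + 1) * (Nat.sqrt n + 1) := h4
        _ ≤ (16 * (Nat.sqrt n / 16 + 1)) * (16 * (Nat.sqrt n / 16 + 1)) := Nat.mul_le_mul h3 h3
        _ = 256 * (Nat.sqrt n / 16 + 1) ^ 2 := by ring
  have hdn : d ≤ n := by nlinarith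
  obtain ⟨e, hde⟩ : ∃ e, d = e + 2 := ⟨d - 2, by omega⟩
  obtain ⟨m, hm⟩ : ∃ m, n = m + e + 1 := ⟨n - e - 1, by omega⟩
  obtain ⟨Ψ, hΨ1, hΨ2, hΨ3, hΨ4⟩ := exists_product_map n m e d k hm hde h16 h1 h2 hk1 hk2
  have σ : Fin (m + e) ≃ Fin m ⊕ Fin e := finSumFinEquiv.symm
  have τ : Fin (n + 1) ≃ Fin m ⊕ Fin d :=
    (finCongr (by omega : n + 1 = m + d)).trans finSumFinEquiv.symm
  obtain ⟨A, φ, hA1, hA2, hφ1, hφ2, hφ3⟩ := transfer (k := k) σ τ Ψ hΨ1 hΨ2 hΨ3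
  subst hm
  refine ⟨A, φ, hA1, hA2, hφ1, hφ2, hφ3.trans ?_⟩
  have h3 : (2 : ℝ) ^ (m + e + 1) = 2 * 2 ^ (m + e) := by rw [pow_succ]; ring
  have h4 : (0 : ℝ) < 2 ^ (m + e) := by positivity
  rw [h3] at hΨ4 ⊢
  set n' : ℝ := ((m + e + 1 : ℕ) : ℝ) with hn'
  have h5 : (1 : ℝ) ≤ n' := by
    rw [hn', Nat.one_le_cast]
    exact Nat.le_add_left 1 (m + e)
  have h6 : ((m + e + 1 + 1 : ℕ) : ℝ) = n' + 1 := by rw [hn']; push_cast; ring
  rw [h6]
  have h7 : 0 < n' * 2 ^ (m + e) := by positivity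
  have h8 : (2 : ℝ) ^ (m + e) * (n' + 1) ≤ 2 * (n' * 2 ^ (m + e)) := by
    have h9 : 0 ≤ (n' - 1) * 2 ^ (m + e) := mul_nonneg (by linarith) h4.le
    have h10 : 2 * (n' * 2 ^ (m + e)) - 2 ^ (m + e) * (n' + 1) = (n' - 1) * 2 ^ (m + e) := by ring
    linarith
  linarith

end Pool.Agent.Helper27.Cube
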