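import Pool.Agent.Helper27.Cube.CubeSampling

set_option autoImplicit false

/-! The partial injection of the product of the sampled coordinates and the ancilla. -/

namespace Pool.Agent.Helper27.Cube

open Finset
open scoped BigOperators

section pm

variable {m d : ℕ}

/-- cost of a pair of values -/
def pc : Option ((Fin m → Bool) × (Fin d → Bool)) → Option ((Fin m → Bool) × (Fin d → Bool)) → ℝ
  | some z, some z' => hd z.1 z'.1 + hd z.2 z'.2
  | _, _ => 0

/-- displacement of a value -/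
def pd (x : Fin m → Bool) : Option ((Fin m → Bool) × (Fin d → Bool)) → ℝ
  | some z => hd x z.1
  | none => 0

variable (cl : (Fin d → Bool) → (Fin d → Bool)) (al : ℕ → (Fin d → Bool) → Prop)
  [∀ w γ, Decidable (al w γ)]

/-- allowed states of a class -/
def aset (c : Fin d → Bool) (w : ℕ) : Finset (Fin d → Bool) :=
  univ.filter (fun γ => cl γ = c ∧ al w γ)

/-- number of allowed states -/
def fc (c : Fin d → Bool) (w : ℕ) : ℕ := (aset cl al c w).card

/-- class size -/
def csize (c : Fin d → Bool) : ℕ := (univ.filter (fun γ => cl γ = c)).card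

/-- the states, enumerated -/
noncomputable def st (c : Fin d → Bool) (w : ℕ) (j : ℕ) : Fin d → Bool :=
  if h : j < fc cl al c w then ((aset cl al c w).equivFin.symm ⟨j, h⟩ : Fin d → Bool)
    else (fun _ => false)

lemma st_mem (c : Fin d → Bool) (w j : ℕ) (h : j < fc cl al c w) :
    st cl al c w j ∈ aset cl al c w := by
  unfold st
  rw [dif_pos h]
  exact Subtype.property _

lemma st_inj (c : Fin d → Bool) (w j j' : ℕ) (h : j < fc cl al c w) (h' : j' < fc cl al c w)
    (he : st cl al c w j = st cl al c w j') : j = j' := by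
  unfold st at he
  rw [dif_pos h, dif_pos h'] at he
  have h1 := (aset cl al c w).equivFin.symm.injective (Subtype.ext he)
  exact Fin.ext_iff.mp h1

lemma fc_le (c : Fin d → Bool) (w : ℕ) : fc cl al c w ≤ csize cl c := by
  refine Finset.card_le_card ?_
  intro γ hγ
  simp only [aset, mem_filter, mem_univ, true_and] at hγ ⊢
  exact hγ.1

lemma fc_anti (hal : ∀ w γ, al (w + 1) γ → al w γ) (c : Fin d → Bool) : Antitone (fc cl al c) := by
  refine antitone_nat_of_succ_le fun w => Finset.card_le_card ?_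
  intro γ hγ
  simp only [aset, mem_filter, mem_univ, true_and] at hγ ⊢
  exact ⟨hγ.1, hal w γ hγ.2⟩

lemma fc_jump (hal : ∀ w γ, al (w + 1) γ → al w γ) (c : Fin d → Bool) (w : ℕ)
    (h : fc cl al c w ≠ fc cl al c (w + 1)) : ∃ γ, al w γ ∧ ¬ al (w + 1) γ := by
  by_contra hcon
  push Not at hcon
  apply h
  unfold fc
  congr 1
  ext γ
  simp only [aset, mem_filter, mem_univ, true_and]
  exact ⟨fun h => ⟨h.1, hcon γ h.2⟩, fun h => ⟨h.1, hal w γ h.2⟩⟩

lemma sum_fc (w : ℕ) : ∑ c, fc cl al c w = (univ.filter (fun γ => al w γ)).card := by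
  classical
  unfold fc aset
  rw [Finset.card_eq_sum_card_fiberwise (s := univ.filter (fun γ => al w γ)) (t := univ) (f := cl)]
  · refine Finset.sum_congr rfl fun c _ => ?_
    rw [Finset.filter_filter]
    congr 1
    ext γ
    simp [and_comm]
  · intro x _; simp

lemma sum_csize : ∑ c, csize cl c = 2 ^ d := by
  classical
  unfold csize
  rw [← Finset.card_eq_sum_card_fiberwise (s := univ) (t := univ) (f := cl)]
  · simp
  · intro x _; simp

lemma sqrt_class (κ D Dmin : ℝ) (hκ : 0 ≤ κ) (hDm : 0 < Dmin) (hD : Dmin ≤ D) :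
    Real.sqrt (κ * D) ≤ D * Real.sqrt (κ / Dmin) := by
  have hD0 : 0 < D := hDm.trans_le hD
  apply Real.sqrt_le_iff.mpr
  refine ⟨by positivity, ?_⟩
  rw [mul_pow, Real.sq_sqrt (by positivity)]
  rw [mul_div_assoc', le_div_iff₀ hDm]
  nlinarith [mul_nonneg hκ (sub_nonneg.mpr hD), mul_nonneg (mul_nonneg hκ (hDm.le.trans hD)) (sub_nonneg.mpr hD)]

/-- The partial injection. -/
theorem partial_map (m d e κ Dmin r : ℕ)
    (cl : (Fin d → Bool) → (Fin d → Bool)) (al : ℕ → (Fin d → Bool) → Prop)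
    [∀ w γ, Decidable (al w γ)]
    (hdiam : ∀ x y, cl x = cl y → hammingDist x y ≤ 4 * r)
    (hDmin0 : 0 < Dmin)
    (hDmin : ∀ x, Dmin ≤ (univ.filter (fun y => cl y = cl x)).card)
    (hal : ∀ w γ, al (w + 1) γ → al w γ)
    (C p0 : ℝ) (hC : 0 ≤ C) (hp0 : 0 < p0) (hp01 : p0 ≤ 1)
    (hΔ : ∀ w, w ≤ m → ∀ γ, al w γ → ¬ al (w + 1) γ → |(w : ℝ) - m / 2| ≤ C * Real.sqrt m)
    (hpD : p0 * 2 ^ m ≤ ((univ.filter (fun z : Fin m → Bool => ∀ γ, al (wt z) γ)).card : ℝ))
    (hT1 : ∑ z : Fin m → Bool, (univ.filter (fun γ => al (wt z) γ)).card ≤ 2 ^ e * 2 ^ m)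
    (hT2 : 2 ^ e * 2 ^ m ≤ ∑ z : Fin m → Bool, (univ.filter (fun γ => al (wt z) γ)).card + 2 ^ m)
    (c1 c2 : ℝ) (hc1 : 0 ≤ c1) (hc2 : 0 ≤ c2) :
    ∃ P : (Fin m → Bool) → (Fin e → Bool) → Option ((Fin m → Bool) × (Fin d → Bool)),
      (∀ x a z γ, P x a = some (z, γ) → al (wt z) γ) ∧
      (∀ x a x' a' w, P x a = some w → P x' a' = some w → x = x' ∧ a = a') ∧
      ∑ a, ∑ x, ∑ i : Fin m, pc (P x a) (P (Function.update x i (!x i)) a) +
        c1 * ∑ a, ∑ x, pd x (P x a) +
        c2 * (∑ a, ∑ x, if P x a = none then (1 : ℝ) else 0) ≤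
      2 ^ e * (m * 2 ^ m * (K1 C p0 + 4 * r)) + c1 * (2 ^ e * (2 ^ m * Real.sqrt m / p0)) +
        c2 * (2 ^ m * (2 ^ d * Real.sqrt (κ / Dmin)) + 2 ^ e * (2 ^ m * (1 - p0) ^ κ) +
          2 ^ m * (1 + 2 ^ d / Dmin)) := by
  classical
  have hm2 : 0 < 2 ^ m := by positivity
  -- the class capacities
  set S : (Fin d → Bool) → ℕ := fun c => ∑ J : Fin m → Bool, fc cl al c (wt J) with hS
  set g : (Fin d → Bool) → ℕ := fun c => S c / 2 ^ m with hg
  have hSsum : ∑ c, S c = ∑ z : Fin m → Bool, (univ.filter (fun γ => al (wt z) γ)).card := by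
    rw [hS, Finset.sum_comm]
    exact Finset.sum_congr rfl fun z _ => sum_fc cl al (wt z)
  have hg1 : ∀ c, g c * 2 ^ m ≤ S c := fun c => Nat.div_mul_le_self _ _
  have hg2 : ∀ c, S c < (g c + 1) * 2 ^ m := fun c => by
    rw [hg]; exact Nat.lt_mul_of_div_lt (Nat.lt_succ_self _) hm2
  have hgsum : ∑ c, g c ≤ 2 ^ e := by
    refine Nat.le_of_mul_le_mul_right ?_ hm2
    rw [Finset.sum_mul]
    calc ∑ c, g c * 2 ^ m ≤ ∑ c, S c := Finset.sum_le_sum fun c _ => hg1 c
      _ ≤ _ := by rw [hSsum]; exact hT1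
  -- sampling in every class
  have hpc : ∀ c, p0 * ((csize cl c : ℝ) * 2 ^ m) ≤ ∑ J : Fin m → Bool, (fc cl al c (wt J) : ℝ) := by
    intro c
    calc p0 * ((csize cl c : ℝ) * 2 ^ m) = csize cl c * (p0 * 2 ^ m) := by ring
      _ ≤ csize cl c * ((univ.filter (fun z : Fin m → Bool => ∀ γ, al (wt z) γ)).card : ℝ) := by
          gcongr
      _ = ∑ J ∈ univ.filter (fun z : Fin m → Bool => ∀ γ, al (wt z) γ), (csize cl c : ℝ) := by
          simp [mul_comm]
      _ = ∑ J ∈ univ.filter (fun z : Fin m → Bool => ∀ γ, al (wt z) γ), (fc cl al c (wt J) : ℝ) := by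
          refine Finset.sum_congr rfl fun J hJ => ?_
          simp only [mem_filter, mem_univ, true_and] at hJ
          unfold fc csize aset
          simp [hJ]
      _ ≤ _ := Finset.sum_le_sum_of_subset_of_nonneg (Finset.filter_subset _ _)
          (fun _ _ _ => Nat.cast_nonneg _)
  have hex : ∀ c, ∃ Z : (Fin m → Bool) → Fin (g c) → Option ((Fin m → Bool) × ℕ),
      (∀ x a z j, Z x a = some (z, j) → j < fc cl al c (wt z)) ∧
      (∀ x a x' a' w, Z x a = some w → Z x' a' = some w → x = x' ∧ a = a') ∧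
      ∑ a, ∑ x, ∑ i : Fin m, zc hd (Z x a) (Z (Function.update x i (!x i)) a) +
        c1 * ∑ a, ∑ x, zd hd x (Z x a) +
        c2 * ((univ.filter (fun q : (Fin m → Bool) × Fin (g c) => Z q.1 q.2 = none)).card : ℝ) ≤
      g c * (m * 2 ^ m * K1 C p0) + c1 * (g c * (2 ^ m * Real.sqrt m / p0)) +
        c2 * (2 ^ m * Real.sqrt (κ * (csize cl c : ℕ)) + g c * (2 ^ m * (1 - p0) ^ κ)) := by
    intro c
    refine cube_sampling m (csize cl c) (g c) κ (fc cl al c) (fc_anti cl al hal c) (fc_le cl al c)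
      C p0 hC hp0 ?_ (hpc c) ?_ c1 c2 hc1 hc2
    · intro w hw hne
      obtain ⟨γ, h1, h2⟩ := fc_jump cl al hal c w hne
      exact hΔ w hw γ h1 h2
    · have := hg1 c
      exact_mod_cast this
  choose Z hZ1 hZ2 hZ3 using hex
  -- assignment of the source ancilla
  set rest : ℕ := 2 ^ e - ∑ c, g c with hrest
  have hcard : Fintype.card (Fin e → Bool) =
      Fintype.card ((Σ c : Fin d → Bool, Fin (g c)) ⊕ Fin rest) := by
    rw [Fintype.card_sum, Fintype.card_sigma]
    simp
    omega
  set E := Fintype.equivOfCardEq hcard with hE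
  set F : (Fin m → Bool) → ((Σ c : Fin d → Bool, Fin (g c)) ⊕ Fin rest) →
      Option ((Fin m → Bool) × (Fin d → Bool)) :=
    fun x s => Sum.elim (fun cb => (Z cb.1 x cb.2).map (fun w => (w.1, st cl al cb.1 (wt w.1) w.2)))
      (fun _ => none) s with hF
  have hFl : ∀ x c b, F x (Sum.inl ⟨c, b⟩) =
      (Z c x b).map (fun w => (w.1, st cl al c (wt w.1) w.2)) := fun _ _ _ => rfl
  have hFr : ∀ x b, F x (Sum.inr b) = none := fun _ _ => rfl
  have hFsome : ∀ x s z γ, F x s = some (z, γ) → ∃ c b j, s = Sum.inl ⟨c, b⟩ ∧ Z c x b = some (z, j) ∧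
      γ = st cl al c (wt z) j := by
    intro x s z γ h
    rcases s with ⟨c, b⟩ | b
    · rw [hFl, Option.map_eq_some_iff] at h
      obtain ⟨⟨z', j⟩, h1, h2⟩ := h
      simp only [Prod.mk.injEq] at h2
      obtain ⟨rfl, rfl⟩ := h2
      exact ⟨c, b, j, rfl, h1, rfl⟩
    · rw [hFr] at h
      exact absurd h (by simp)
  refine ⟨fun x a => F x (E a), ?_, ?_, ?_⟩
  · intro x a z γ h
    obtain ⟨c, b, j, -, h2, rfl⟩ := hFsome _ _ _ _ h
    have h3 := st_mem cl al c (wt z) j (hZ1 _ _ _ _ _ h2)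
    simp only [aset, mem_filter, mem_univ, true_and] at h3
    exact h3.2
  · intro x a x' a' w h h'
    obtain ⟨z, γ⟩ := w
    obtain ⟨c, b, j, h1, h2, h3⟩ := hFsome _ _ _ _ h
    obtain ⟨c', b', j', h1', h2', h3'⟩ := hFsome _ _ _ _ h'
    have hc : c = c' := by
      have h4 := st_mem cl al c (wt z) j (hZ1 _ _ _ _ _ h2)
      have h4' := st_mem cl al c' (wt z) j' (hZ1 _ _ _ _ _ h2')
      simp only [aset, mem_filter, mem_univ, true_and] at h4 h4'
      rw [← h3] at h4
      rw [← h3'] at h4'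
      exact h4.1.symm.trans h4'.1
    subst hc
    have hj : j = j' := st_inj cl al c (wt z) j j' (hZ1 _ _ _ _ _ h2) (hZ1 _ _ _ _ _ h2')
      (h3.symm.trans h3')
    subst hj
    obtain ⟨h5, h6⟩ := hZ2 c _ _ _ _ _ h2 h2'
    subst h6
    exact ⟨h5, E.injective (h1.trans h1'.symm)⟩
  · -- the unassigned ancilla strings
    have him : ∀ c, c ∉ Finset.image cl univ → csize cl c = 0 := by
      intro c hc
      unfold csize
      rw [Finset.card_eq_zero, Finset.filter_eq_empty_iff]
      intro γ _ h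
      exact hc (Finset.mem_image.mpr ⟨γ, mem_univ _, h⟩)
    have hge : ∀ c, csize cl c = 0 ∨ Dmin ≤ csize cl c := by
      intro c
      by_cases hc : c ∈ Finset.image cl univ
      · right
        obtain ⟨γ, -, h⟩ := Finset.mem_image.mp hc
        have := hDmin γ
        rw [h] at this
        exact this
      · left; exact him c hc
    have hS2 : ∀ c, S c ≤ g c * 2 ^ m + (if c ∈ Finset.image cl univ then 2 ^ m else 0) := by
      intro c
      by_cases hc : c ∈ Finset.image cl univ
      · rw [if_pos hc]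
        have := hg2 c
        rw [add_mul, one_mul] at this
        exact this.le
      · have h0 : S c = 0 := by
          rw [hS]
          refine Finset.sum_eq_zero fun J _ => ?_
          have := fc_le cl al c (wt J)
          have := him c hc
          omega
        rw [h0]; exact Nat.zero_le _
    have hrest1 : 2 ^ e ≤ ∑ c, g c + (Finset.image cl univ).card + 1 := by
      refine Nat.le_of_mul_le_mul_right ?_ hm2
      calc 2 ^ e * 2 ^ m ≤ ∑ c, S c + 2 ^ m := by rw [hSsum]; exact hT2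
        _ ≤ ∑ c, (g c * 2 ^ m + (if c ∈ Finset.image cl univ then 2 ^ m else 0)) + 2 ^ m := by
            gcongr with c _
            exact hS2 c
        _ = (∑ c, g c + (Finset.image cl univ).card + 1) * 2 ^ m := by
            rw [Finset.sum_add_distrib, ← Finset.sum_mul, Finset.sum_ite_mem, univ_inter,
              Finset.sum_const, smul_eq_mul]
            ring
    have him2 : (Finset.image cl univ).card * Dmin ≤ 2 ^ d := by
      calc (Finset.image cl univ).card * Dmin = ∑ c ∈ Finset.image cl univ, Dmin := by simp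
        _ ≤ ∑ c ∈ Finset.image cl univ, csize cl c := by
            refine Finset.sum_le_sum fun c hc => ?_
            obtain ⟨γ, -, h⟩ := Finset.mem_image.mp hc
            have := hDmin γ
            rw [h] at this
            exact this
        _ ≤ ∑ c, csize cl c := Finset.sum_le_sum_of_subset (Finset.subset_univ _)
        _ = 2 ^ d := sum_csize cl
    have hDr : (0 : ℝ) < Dmin := by exact_mod_cast hDmin0
    have hrest2 : (rest : ℝ) ≤ 1 + 2 ^ d / Dmin := by
      have h1 : rest ≤ (Finset.image cl univ).card + 1 := by omega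
      have h2 : (rest : ℝ) ≤ (Finset.image cl univ).card + 1 := by exact_mod_cast h1
      have h3 : ((Finset.image cl univ).card : ℝ) ≤ 2 ^ d / Dmin := by
        rw [le_div_iff₀ hDr]
        exact_mod_cast him2
      linarith
    -- reorganize sums
    have s1 : ∑ a, ∑ x, ∑ i : Fin m, pc (F x (E a)) (F (Function.update x i (!x i)) (E a)) =
        ∑ s, ∑ x, ∑ i : Fin m, pc (F x s) (F (Function.update x i (!x i)) s) :=
      Equiv.sum_comp E (fun s => ∑ x, ∑ i : Fin m, pc (F x s) (F (Function.update x i (!x i)) s))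
    have s2 : ∑ a, ∑ x, pd x (F x (E a)) = ∑ s, ∑ x, pd x (F x s) :=
      Equiv.sum_comp E (fun s => ∑ x, pd x (F x s))
    have s3 : (∑ a, ∑ x, if F x (E a) = none then (1 : ℝ) else 0) =
        ∑ s, ∑ x, if F x s = none then (1 : ℝ) else 0 :=
      Equiv.sum_comp E (fun s => ∑ x, if F x s = none then (1 : ℝ) else 0)
    rw [s1, s2, s3]
    simp only [Fintype.sum_sum_type, Fintype.sum_sigma]
    have p1 : ∀ (c : Fin d → Bool) (b : Fin (g c)) (x x' : Fin m → Bool),
        pc (F x (Sum.inl ⟨c, b⟩)) (F x' (Sum.inl ⟨c, b⟩)) ≤ zc hd (Z c x b) (Z c x' b) + 4 * r := by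
      intro c b x x'
      rw [hFl, hFl]
      cases h1 : Z c x b with
      | none => simp only [Option.map_none]; unfold pc zc; simp
      | some w =>
        cases h2 : Z c x' b with
        | none => simp only [Option.map_none, Option.map_some]; unfold pc zc; simp
        | some w' =>
          obtain ⟨z, j⟩ := w
          obtain ⟨z', j'⟩ := w'
          simp only [Option.map_some]
          unfold pc zc
          simp only
          have h4 := st_mem cl al c (wt z) j (hZ1 _ _ _ _ _ h1)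
          have h5 := st_mem cl al c (wt z') j' (hZ1 _ _ _ _ _ h2)
          simp only [aset, mem_filter, mem_univ, true_and] at h4 h5
          have h6 := hdiam _ _ (h4.1.trans h5.1.symm)
          have h7 : hd (st cl al c (wt z) j) (st cl al c (wt z') j') ≤ 4 * r := by
            unfold hd; exact_mod_cast h6
          linarith
    have p2 : ∀ (c : Fin d → Bool) (b : Fin (g c)) (x : Fin m → Bool),
        pd x (F x (Sum.inl ⟨c, b⟩)) = zd hd x (Z c x b) := by
      intro c b x
      rw [hFl]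
      cases h1 : Z c x b with
      | none => rfl
      | some w => rfl
    have p3 : ∀ (c : Fin d → Bool) (b : Fin (g c)) (x : Fin m → Bool),
        (if F x (Sum.inl ⟨c, b⟩) = none then (1 : ℝ) else 0) =
          if Z c x b = none then (1 : ℝ) else 0 := by
      intro c b x
      rw [hFl]
      simp only [Option.map_eq_none_iff]
    have p4 : ∀ c, (∑ b : Fin (g c), ∑ x, if Z c x b = none then (1 : ℝ) else 0) =
        ((univ.filter (fun q : (Fin m → Bool) × Fin (g c) => Z c q.1 q.2 = none)).card : ℝ) := by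
      intro c
      rw [Finset.sum_comm, ← Finset.sum_boole, ← univ_product_univ, Finset.sum_product]
    simp only [p2, p3, p4, hFr]
    have q1 : ∑ c, ∑ b : Fin (g c), ∑ x, ∑ i : Fin m,
        pc (F x (Sum.inl ⟨c, b⟩)) (F (Function.update x i (!x i)) (Sum.inl ⟨c, b⟩)) ≤
        ∑ c, ∑ b : Fin (g c), ∑ x, ∑ i : Fin m, zc hd (Z c x b) (Z c (Function.update x i (!x i)) b) +
          (∑ c, (g c : ℝ)) * (m * 2 ^ m * (4 * r)) := by
      rw [Finset.sum_mul, ← Finset.sum_add_distrib]
      refine Finset.sum_le_sum fun c _ => ?_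
      refine (Finset.sum_le_sum fun b _ => Finset.sum_le_sum fun x _ => Finset.sum_le_sum fun i _ =>
        p1 c b x (Function.update x i (!x i))).trans (le_of_eq ?_)
      simp only [Finset.sum_add_distrib, Finset.sum_const, card_univ, Fintype.card_fin, nsmul_eq_mul,
        Fintype.card_fun, Fintype.card_bool]
      push_cast
      ring
    have q2 : ∑ b : Fin rest, ∑ x : Fin m → Bool, ∑ i : Fin m,
        pc (none : Option ((Fin m → Bool) × (Fin d → Bool))) none = 0 := by
      unfold pc; simp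
    have q3 : ∑ b : Fin rest, ∑ x : Fin m → Bool,
        pd x (none : Option ((Fin m → Bool) × (Fin d → Bool))) = 0 := by
      unfold pd; simp
    have q4 : (∑ b : Fin rest, ∑ x : Fin m → Bool, if True
        then (1 : ℝ) else 0) = rest * 2 ^ m := by simp
    rw [q2, q3, q4, add_zero, add_zero]
    have q5 := Finset.sum_le_sum (s := univ) fun c _ => hZ3 c
    simp only [Finset.sum_add_distrib, ← Finset.mul_sum, ← Finset.sum_mul] at q5
    have hG : (∑ c, (g c : ℝ)) ≤ 2 ^ e := by exact_mod_cast hgsum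
    have hG0 : (0 : ℝ) ≤ ∑ c, (g c : ℝ) := Finset.sum_nonneg fun c _ => Nat.cast_nonneg _
    have hsq : ∑ c, Real.sqrt (κ * (csize cl c : ℕ)) ≤ 2 ^ d * Real.sqrt (κ / Dmin) := by
      calc ∑ c, Real.sqrt (κ * (csize cl c : ℕ)) ≤
          ∑ c, (csize cl c : ℝ) * Real.sqrt (κ / Dmin) := by
            refine Finset.sum_le_sum fun c _ => ?_
            rcases hge c with h | h
            · rw [h]; simp
            · exact sqrt_class κ (csize cl c) Dmin (Nat.cast_nonneg _) hDr (by exact_mod_cast h)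
        _ = _ := by
            rw [← Finset.sum_mul]
            congr 1
            exact_mod_cast sum_csize cl
    have hK0 : 0 ≤ K1 C p0 := by unfold K1; positivity
    have hp0' : 0 ≤ 1 - p0 := by linarith
    calc _ ≤ (∑ c, ∑ b : Fin (g c), ∑ x, ∑ i : Fin m, zc hd (Z c x b) (Z c (Function.update x i (!x i)) b) +
          (∑ c, (g c : ℝ)) * (m * 2 ^ m * (4 * r))) +
          c1 * ∑ c, ∑ b : Fin (g c), ∑ x, zd hd x (Z c x b) +
          c2 * (∑ c, ((univ.filter (fun q : (Fin m → Bool) × Fin (g c) => Z c q.1 q.2 = none)).card : ℝ)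
            + rest * 2 ^ m) := by gcongr
      _ = (∑ c, ∑ b : Fin (g c), ∑ x, ∑ i : Fin m, zc hd (Z c x b) (Z c (Function.update x i (!x i)) b) +
          c1 * ∑ c, ∑ b : Fin (g c), ∑ x, zd hd x (Z c x b) +
          c2 * ∑ c, ((univ.filter (fun q : (Fin m → Bool) × Fin (g c) => Z c q.1 q.2 = none)).card : ℝ)) +
          ((∑ c, (g c : ℝ)) * (m * 2 ^ m * (4 * r)) + c2 * (rest * 2 ^ m)) := by ring
      _ ≤ ((∑ c, (g c : ℝ)) * (m * 2 ^ m * K1 C p0) + c1 * ((∑ c, (g c : ℝ)) * (2 ^ m * Real.sqrt m / p0)) +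
          c2 * (2 ^ m * ∑ c, Real.sqrt (κ * (csize cl c : ℕ)) + (∑ c, (g c : ℝ)) * (2 ^ m * (1 - p0) ^ κ))) +
          ((∑ c, (g c : ℝ)) * (m * 2 ^ m * (4 * r)) + c2 * (rest * 2 ^ m)) := by
          gcongr
      _ ≤ (2 ^ e * (m * 2 ^ m * K1 C p0) + c1 * (2 ^ e * (2 ^ m * Real.sqrt m / p0)) +
          c2 * (2 ^ m * (2 ^ d * Real.sqrt (κ / Dmin)) + 2 ^ e * (2 ^ m * (1 - p0) ^ κ))) +
          (2 ^ e * (m * 2 ^ m * (4 * r)) + c2 * ((1 + 2 ^ d / Dmin) * 2 ^ m)) := by
          gcongr
      _ = _ := by ring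

end pm

end Pool.Agent.Helper27.Cube
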