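import Pool.Agent.Helper27.Cube.Defs

set_option autoImplicit false

/-!
# Reflections of the cube (Lemma A)

For every finite index type there is an injective self map of the cube which turns a point of
weight `w` into a comparable point of weight `card - w` and which is 3-Lipschitz for the Hamming
distance. Applying it to the coordinates in a subset `J` gives the reflections `R J`.
The self map flips the coordinates not matched by the cyclic bracket matching.
-/

namespace Pool.Agent.Helper27.Cube

open Finset

/-! ## Cyclic partial sums -/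

/-- The sign of a Boolean. -/
def sg (b : Bool) : ℤ := if b then 1 else -1

lemma sg_true : sg true = 1 := rfl
lemma sg_false : sg false = -1 := rfl
lemma sg_not (b : Bool) : sg (!b) = - sg b := by cases b <;> rfl
lemma sg_le (b : Bool) : sg b ≤ 1 := by cases b <;> simp [sg]
lemma le_sg (b : Bool) : -1 ≤ sg b := by cases b <;> simp [sg]

variable {n : ℕ}

/-- Forward partial sums on the circle. -/
def fs (s : ZMod (n + 1) → ℤ) (i : ZMod (n + 1)) (k : ℕ) : ℤ := ∑ j ∈ range k, s (i + j)

lemma fs_zero (s : ZMod (n + 1) → ℤ) (i : ZMod (n + 1)) : fs s i 0 = 0 := by simp [fs]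

lemma fs_one (s : ZMod (n + 1) → ℤ) (i : ZMod (n + 1)) : fs s i 1 = s i := by simp [fs]

lemma fs_succ (s : ZMod (n + 1) → ℤ) (i : ZMod (n + 1)) (k : ℕ) :
    fs s i (k + 1) = s i + fs s (i + 1) k := by
  unfold fs
  rw [sum_range_succ']
  simp only [Nat.cast_zero, add_zero, Nat.cast_add, Nat.cast_one]
  rw [add_comm]
  congr 1
  refine sum_congr rfl fun j _ => ?_
  congr 1; ring

lemma fs_full (s : ZMod (n + 1) → ℤ) (i : ZMod (n + 1)) : fs s i (n + 1) = ∑ j, s j := by
  unfold fs
  refine sum_bij' (fun j _ => i + (j : ZMod (n + 1))) (fun z _ => (z - i).val) ?_ ?_ ?_ ?_ ?_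
  · intro j _; exact mem_univ _
  · intro z _; exact mem_range.2 (ZMod.val_lt _)
  · intro j hj
    simp only [add_sub_cancel_left]
    exact ZMod.val_cast_of_lt (mem_range.1 hj)
  · intro z _
    simp
  · intro j _; rfl

lemma fs_add (s : ZMod (n + 1) → ℤ) (i : ZMod (n + 1)) (k l : ℕ) :
    fs s i (k + l) = fs s i k + fs s (i + k) l := by
  unfold fs
  rw [sum_range_add]
  congr 1
  refine sum_congr rfl fun j _ => ?_
  congr 1; push_cast; ring

lemma fs_period (s : ZMod (n + 1) → ℤ) (i : ZMod (n + 1)) (k : ℕ) :
    fs s i (k + (n + 1)) = fs s i k + ∑ j, s j := by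
  rw [fs_add, fs_full]

lemma fs_mono {s t : ZMod (n + 1) → ℤ} (h : ∀ j, s j ≤ t j) (i : ZMod (n + 1)) (k : ℕ) :
    fs s i k ≤ fs t i k := sum_le_sum fun _ _ => h _

/-- Lower bound of all partial sums. -/
lemma fs_bdd {s : ZMod (n + 1) → ℤ} (hs : ∀ j, -1 ≤ s j) (h0 : 0 ≤ ∑ j, s j)
    (i : ZMod (n + 1)) (k : ℕ) : -((n : ℤ) + 1) ≤ fs s i k := by
  induction k using Nat.strong_induction_on with
  | _ k ih =>
    rcases lt_or_ge k (n + 1) with hk | hk
    · have h1 : ∑ _j ∈ range k, (-1 : ℤ) ≤ fs s i k := sum_le_sum fun _ _ => hs _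
      simp only [sum_const, card_range, nsmul_eq_mul] at h1
      have : (k : ℤ) < n + 1 := by exact_mod_cast hk
      linarith
    · obtain ⟨l, rfl⟩ := Nat.exists_eq_add_of_le hk
      rw [add_comm (n + 1) l, fs_period]
      have := ih l (by omega)
      linarith

/-- The minimum of all forward partial sums, the empty one included. -/
noncomputable def mn (s : ZMod (n + 1) → ℤ) (i : ZMod (n + 1)) : ℤ := sInf (Set.range (fs s i))

section

variable {s : ZMod (n + 1) → ℤ} (hs : ∀ j, -1 ≤ s j) (h0 : 0 ≤ ∑ j, s j)
include hs h0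

lemma mn_le (i : ZMod (n + 1)) (k : ℕ) : mn s i ≤ fs s i k := by
  apply csInf_le
  · exact ⟨-((n : ℤ) + 1), by rintro _ ⟨k, rfl⟩; exact fs_bdd hs h0 i k⟩
  · exact ⟨k, rfl⟩

lemma mn_mem (i : ZMod (n + 1)) : ∃ k, fs s i k = mn s i := by
  have : mn s i ∈ Set.range (fs s i) := by
    apply Int.csInf_mem
    · exact ⟨_, 0, rfl⟩
    · exact ⟨-((n : ℤ) + 1), by rintro _ ⟨k, rfl⟩; exact fs_bdd hs h0 i k⟩
  exact this

lemma mn_le_zero (i : ZMod (n + 1)) : mn s i ≤ 0 := by
  have := mn_le hs h0 i 0
  rwa [fs_zero] at this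

lemma mn_le_succ (i : ZMod (n + 1)) : mn s i ≤ s i + mn s (i + 1) := by
  obtain ⟨k, hk⟩ := mn_mem hs h0 (i + 1)
  have := mn_le hs h0 i (k + 1)
  rwa [fs_succ, hk] at this

lemma le_mn (i : ZMod (n + 1)) : mn s i = 0 ∨ s i + mn s (i + 1) ≤ mn s i := by
  obtain ⟨k, hk⟩ := mn_mem hs h0 i
  rcases k with _ | k
  · left; rw [← hk, fs_zero]
  · right
    rw [← hk, fs_succ]
    have := mn_le hs h0 (i + 1) k
    linarith

end

/-- Positions all of whose non-empty forward partial sums are positive. -/
noncomputable def Up (s : ZMod (n + 1) → ℤ) : Finset (ZMod (n + 1)) := by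
  classical
  exact univ.filter fun i => ∀ k, 1 ≤ fs s i (k + 1)

lemma mem_Up {s : ZMod (n + 1) → ℤ} {i : ZMod (n + 1)} :
    i ∈ Up s ↔ ∀ k, 1 ≤ fs s i (k + 1) := by
  simp [Up]

lemma Up_mono {s t : ZMod (n + 1) → ℤ} (h : ∀ j, s j ≤ t j) : Up s ⊆ Up t := by
  intro i hi
  rw [mem_Up] at hi ⊢
  intro k
  exact (hi k).trans (fs_mono h i _)

lemma one_le_of_mem {s : ZMod (n + 1) → ℤ} {i : ZMod (n + 1)} (h : i ∈ Up s) : 1 ≤ s i := by
  have := mem_Up.1 h 0
  rwa [zero_add, fs_one] at this

section

variable {s : ZMod (n + 1) → ℤ} (hs : ∀ j, -1 ≤ s j) (hs1 : ∀ j, s j ≤ 1) (h0 : 0 ≤ ∑ j, s j)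
include hs hs1 h0

lemma mn_succ_of_mem {i : ZMod (n + 1)} (h : i ∈ Up s) : mn s (i + 1) = 0 ∧ mn s i = 0 := by
  obtain ⟨k, hk⟩ := mn_mem hs h0 (i + 1)
  have h1 := mem_Up.1 h k
  rw [fs_succ, hk] at h1
  have h2 := hs1 i
  have h3 := mn_le_zero hs h0 (i + 1)
  have h4 : mn s (i + 1) = 0 := by linarith
  refine ⟨h4, ?_⟩
  have h5 := mn_le_zero hs h0 i
  rcases le_mn hs h0 i with h6 | h6
  · exact h6
  · linarith

lemma key [DecidableEq (ZMod (n + 1))] (i : ZMod (n + 1)) :
    s i + mn s (i + 1) - mn s i = if i ∈ Up s then 1 else 0 := by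
  by_cases h : i ∈ Up s
  · rw [if_pos h]
    obtain ⟨h1, h2⟩ := mn_succ_of_mem hs hs1 h0 h
    have := one_le_of_mem h
    have := hs1 i
    linarith
  · rw [if_neg h]
    rw [mem_Up] at h
    push Not at h
    obtain ⟨k, hk⟩ := h
    rw [fs_succ] at hk
    have h1 := mn_le hs h0 (i + 1) k
    have h2 := mn_le_succ hs h0 i
    rcases le_mn hs h0 i with h6 | h6
    · linarith
    · linarith

lemma card_Up : ((Up s).card : ℤ) = ∑ j, s j := by
  classical
  have h1 : ∑ i, (s i + mn s (i + 1) - mn s i) = ∑ i, if i ∈ Up s then (1 : ℤ) else 0 :=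
    sum_congr rfl fun i _ => key hs hs1 h0 i
  rw [sum_sub_distrib, sum_add_distrib] at h1
  have h2 : ∑ i, mn s (i + 1) = ∑ i, mn s i := Equiv.sum_comp (Equiv.addRight 1) (mn s)
  rw [h2] at h1
  simp only [sum_ite_mem, univ_inter, sum_const, nsmul_eq_mul, mul_one] at h1
  linarith

end

/-! ## The reflection of the circle -/

/-- The sign vector of a point of the cube. -/
def sv (x : ZMod (n + 1) → Bool) : ZMod (n + 1) → ℤ := fun i => sg (x i)

/-- The sum of the signs. -/
def hh (x : ZMod (n + 1) → Bool) : ℤ := ∑ i, sg (x i)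

/-- Negate and reverse. -/
def tau (x : ZMod (n + 1) → Bool) : ZMod (n + 1) → Bool := fun i => !(x (-i))

lemma tau_tau (x : ZMod (n + 1) → Bool) : tau (tau x) = x := by
  funext i; simp [tau]

lemma hh_tau (x : ZMod (n + 1) → Bool) : hh (tau x) = - hh x := by
  unfold hh tau
  simp only [sg_not, sum_neg_distrib]
  congr 1
  exact Equiv.sum_comp (Equiv.neg _) (fun i => sg (x i))

lemma card_Up_sv {x : ZMod (n + 1) → Bool} (h : 0 ≤ hh x) : ((Up (sv x)).card : ℤ) = hh x :=
  card_Up (fun _ => le_sg _) (fun _ => sg_le _) h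

/-- The set of coordinates that are flipped. -/
noncomputable def DD (x : ZMod (n + 1) → Bool) : Finset (ZMod (n + 1)) :=
  if 0 < hh x then Up (sv x)
  else if hh x < 0 then (Up (sv (tau x))).map (Equiv.neg _).toEmbedding
  else ∅

lemma mem_map_neg {S : Finset (ZMod (n + 1))} {i : ZMod (n + 1)} :
    i ∈ S.map (Equiv.neg _).toEmbedding ↔ -i ∈ S := by
  rw [mem_map]
  constructor
  · rintro ⟨j, hj, rfl⟩
    simpa using hj
  · intro h
    exact ⟨-i, h, by simp⟩

lemma DD_pos {x : ZMod (n + 1) → Bool} (h : 0 < hh x) : DD x = Up (sv x) := by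
  simp [DD, h]

lemma DD_neg {x : ZMod (n + 1) → Bool} (h : hh x < 0) :
    DD x = (Up (sv (tau x))).map (Equiv.neg _).toEmbedding := by
  have h2 : ¬ 0 < hh x := by omega
  simp only [DD, h2, h, if_true, if_false]

lemma DD_zero {x : ZMod (n + 1) → Bool} (h : hh x = 0) : DD x = ∅ := by
  simp [DD, h]

lemma card_DD (x : ZMod (n + 1) → Bool) : ((DD x).card : ℤ) = |hh x| := by
  rcases lt_trichotomy (hh x) 0 with h | h | h
  · rw [DD_neg h, card_map, card_Up_sv (by rw [hh_tau]; omega), hh_tau, abs_of_neg h]
  · rw [DD_zero h, h]; simp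
  · rw [DD_pos h, card_Up_sv h.le, abs_of_pos h]

/-- Value of the coordinate in the flipped set. -/
lemma val_DD_pos {x : ZMod (n + 1) → Bool} (h : 0 < hh x) {i : ZMod (n + 1)} (hi : i ∈ DD x) :
    x i = true := by
  rw [DD_pos h] at hi
  have := one_le_of_mem hi
  unfold sv at this
  cases hx : x i
  · rw [hx] at this; simp [sg] at this
  · rfl

lemma DD_tau (x : ZMod (n + 1) → Bool) : DD (tau x) = (DD x).map (Equiv.neg _).toEmbedding := by
  rcases lt_trichotomy (hh x) 0 with h | h | h
  · rw [DD_neg h, DD_pos (by rw [hh_tau]; omega)]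
    ext i
    rw [mem_map_neg, mem_map_neg, neg_neg]
  · rw [DD_zero h, DD_zero (by rw [hh_tau]; omega)]
    simp
  · rw [DD_pos h, DD_neg (by rw [hh_tau]; omega), tau_tau]

lemma mem_DD_tau (x : ZMod (n + 1) → Bool) (i : ZMod (n + 1)) : i ∈ DD (tau x) ↔ -i ∈ DD x := by
  rw [DD_tau, mem_map_neg]

/-- The reflection. -/
noncomputable def rho (x : ZMod (n + 1) → Bool) : ZMod (n + 1) → Bool := by
  classical
  exact fun i => if i ∈ DD x then !(x i) else x i

lemma rho_of_mem {x : ZMod (n + 1) → Bool} {i : ZMod (n + 1)} (h : i ∈ DD x) :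
    rho x i = !(x i) := by simp [rho, h]

lemma rho_of_not_mem {x : ZMod (n + 1) → Bool} {i : ZMod (n + 1)} (h : i ∉ DD x) :
    rho x i = x i := by simp [rho, h]

lemma rho_tau (x : ZMod (n + 1) → Bool) : rho (tau x) = tau (rho x) := by
  funext i
  by_cases h : i ∈ DD (tau x)
  · rw [rho_of_mem h]
    unfold tau
    rw [rho_of_mem ((mem_DD_tau x i).1 h)]
  · rw [rho_of_not_mem h]
    unfold tau
    rw [rho_of_not_mem (fun h' => h ((mem_DD_tau x i).2 h'))]

lemma hh_rho_pos {x : ZMod (n + 1) → Bool} (h : 0 < hh x) : hh (rho x) = - hh x := by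
  classical
  have h1 : ∀ i, sg (rho x i) = sg (x i) - 2 * (if i ∈ DD x then 1 else 0) := by
    intro i
    by_cases hi : i ∈ DD x
    · rw [rho_of_mem hi, if_pos hi, val_DD_pos h hi]
      simp [sg]
    · rw [rho_of_not_mem hi, if_neg hi]; ring
  have h2 : hh (rho x) = hh x - 2 * ((DD x).card : ℤ) := by
    unfold hh
    simp only [h1, sum_sub_distrib]
    rw [← mul_sum]
    simp
  rw [h2, card_DD, abs_of_pos h]; ring

lemma hh_rho (x : ZMod (n + 1) → Bool) : hh (rho x) = - hh x := by
  rcases lt_trichotomy (hh x) 0 with h | h | h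
  · have h1 : 0 < hh (tau x) := by rw [hh_tau]; omega
    have h2 := hh_rho_pos h1
    rw [rho_tau, hh_tau, hh_tau] at h2
    omega
  · have h1 : rho x = x := by
      funext i
      rw [rho_of_not_mem]
      rw [DD_zero h]; simp
    rw [h1]; omega
  · exact hh_rho_pos h

/-- Backward partial sums of the reflected sign vector. -/
lemma back_sum {x : ZMod (n + 1) → Bool} (h : 0 < hh x) (i : ZMod (n + 1)) (k : ℕ)
    [DecidableEq (ZMod (n + 1))] :
    fs (sv (tau (rho x))) (-i) k = mn (sv x) (i + 1) - mn (sv x) (i + 1 - k) +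
      ∑ j ∈ range k, (if i - j ∈ Up (sv x) then 1 else 0) := by
  have hstep : ∀ j : ZMod (n + 1), sv (tau (rho x)) (-j) =
      mn (sv x) (j + 1) - mn (sv x) j + (if j ∈ Up (sv x) then 1 else 0) := by
    intro j
    have hk := key (s := sv x) (fun _ => le_sg _) (fun _ => sg_le _) h.le j
    have h1 : sv (tau (rho x)) (-j) = - sg (rho x j) := by
      unfold sv tau
      rw [neg_neg, sg_not]
    rw [h1]
    by_cases hj : j ∈ Up (sv x)
    · rw [if_pos hj] at hk ⊢
      have hj' : j ∈ DD x := by rw [DD_pos h]; exact hj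
      rw [rho_of_mem hj', sg_not]
      have : sv x j = sg (x j) := rfl
      have hx := val_DD_pos h hj'
      rw [this, hx, sg_true] at hk
      rw [hx, sg_true]
      linarith
    · rw [if_neg hj] at hk ⊢
      have hj' : j ∉ DD x := by rw [DD_pos h]; exact hj
      rw [rho_of_not_mem hj']
      have : sv x j = sg (x j) := rfl
      rw [this] at hk
      linarith
  induction k with
  | zero => simp [fs]
  | succ k ih =>
    have h2 : fs (sv (tau (rho x))) (-i) (k + 1) =
        fs (sv (tau (rho x))) (-i) k + sv (tau (rho x)) (-(i - k)) := by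
      unfold fs
      rw [sum_range_succ]
      congr 2
      ring
    rw [h2, ih, hstep, sum_range_succ]
    have e1 : i + 1 - ((k + 1 : ℕ) : ZMod (n + 1)) = i - k := by push_cast; ring
    have e2 : i + 1 - (k : ZMod (n + 1)) = i - k + 1 := by ring
    rw [e1, e2]
    ring

lemma DD_rho_pos {x : ZMod (n + 1) → Bool} (h : 0 < hh x) : DD (rho x) = DD x := by
  classical
  have h1 : hh (rho x) < 0 := by rw [hh_rho_pos h]; omega
  rw [DD_neg h1, DD_pos h]
  symm
  apply eq_of_subset_of_card_le
  · intro i hi
    rw [mem_map_neg, mem_Up]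
    intro k
    rw [back_sum h]
    obtain ⟨hm, -⟩ := mn_succ_of_mem (s := sv x) (fun _ => le_sg _) (fun _ => sg_le _) h.le hi
    rw [hm]
    have h3 := mn_le_zero (s := sv x) (fun _ => le_sg _) h.le (i + 1 - ((k + 1 : ℕ) : ZMod (n + 1)))
    have h4 : (1 : ℤ) ≤ ∑ j ∈ range (k + 1), (if i - (j : ZMod (n + 1)) ∈ Up (sv x) then 1 else 0) := by
      have h5 := single_le_sum (s := range (k + 1))
        (f := fun j : ℕ => (if i - (j : ZMod (n + 1)) ∈ Up (sv x) then (1 : ℤ) else 0))
        (fun j _ => by positivity) (mem_range.2 (Nat.succ_pos k))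
      simp only [Nat.cast_zero, sub_zero, if_pos hi] at h5
      exact h5
    linarith
  · rw [card_map]
    have h5 := card_Up_sv (x := tau (rho x)) (by rw [hh_tau]; omega)
    have h6 := card_Up_sv h.le
    rw [hh_tau, hh_rho_pos h] at h5
    omega

lemma rho_rho_pos {x : ZMod (n + 1) → Bool} (h : 0 < hh x) : rho (rho x) = x := by
  funext i
  by_cases hi : i ∈ DD x
  · rw [rho_of_mem (by rw [DD_rho_pos h]; exact hi), rho_of_mem hi, Bool.not_not]
  · rw [rho_of_not_mem (by rw [DD_rho_pos h]; exact hi), rho_of_not_mem hi]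

lemma rho_rho (x : ZMod (n + 1) → Bool) : rho (rho x) = x := by
  rcases lt_trichotomy (hh x) 0 with h | h | h
  · have h1 : 0 < hh (tau x) := by rw [hh_tau]; omega
    have h2 := rho_rho_pos h1
    rw [rho_tau, rho_tau] at h2
    have h3 := congrArg tau h2
    rwa [tau_tau, tau_tau] at h3
  · have h1 : rho x = x := by
      funext i
      rw [rho_of_not_mem]
      rw [DD_zero h]; simp
    rw [h1, h1]
  · exact rho_rho_pos h

/-! ## Lipschitz property -/

lemma hh_update {x : ZMod (n + 1) → Bool} {i : ZMod (n + 1)} (hi : x i = true)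
    [DecidableEq (ZMod (n + 1))] : hh (Function.update x i false) = hh x - 2 := by
  unfold hh
  have h1 : ∀ j, sg (Function.update x i false j) = sg (x j) - if j = i then 2 else 0 := by
    intro j
    by_cases hj : j = i
    · subst hj; simp [sg, hi]
    · simp [hj]
  simp only [h1, sum_sub_distrib]
  simp

lemma sv_update_le {x : ZMod (n + 1) → Bool} {i : ZMod (n + 1)} (hi : x i = true)
    [DecidableEq (ZMod (n + 1))] (j : ZMod (n + 1)) :
    sv (Function.update x i false) j ≤ sv x j := by
  unfold sv
  by_cases hj : j = i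
  · subst hj; simp [sg, hi]
  · simp [hj]

lemma sv_tau_update_le {x : ZMod (n + 1) → Bool} {i : ZMod (n + 1)} (hi : x i = true)
    [DecidableEq (ZMod (n + 1))] (j : ZMod (n + 1)) :
    sv (tau x) j ≤ sv (tau (Function.update x i false)) j := by
  have h := sv_update_le hi (-j)
  unfold sv tau at *
  rw [sg_not, sg_not]
  linarith

lemma card_symmDiff_DD {x : ZMod (n + 1) → Bool} {i : ZMod (n + 1)} (hi : x i = true)
    [DecidableEq (ZMod (n + 1))] :
    (symmDiff (DD x) (DD (Function.update x i false))).card ≤ 2 := by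
  have hu := hh_update hi
  set y := Function.update x i false with hy
  have hcx := card_DD x
  have hcy := card_DD y
  rcases lt_or_ge 0 (hh y) with h1 | h1
  · have hsub : DD y ⊆ DD x := by
      rw [DD_pos h1, DD_pos (by omega : 0 < hh x)]
      exact Up_mono (sv_update_le hi)
    have h2 : symmDiff (DD x) (DD y) = DD x \ DD y := by
      rw [symmDiff_def, sdiff_eq_bot_iff.2 hsub]
      simp
    rw [h2]
    have h3 := card_sdiff_add_card_eq_card hsub
    rw [abs_of_pos h1] at hcy
    rw [abs_of_pos (by omega)] at hcx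
    omega
  · rcases lt_or_ge (hh x) 0 with h2 | h2
    · have hsub : DD x ⊆ DD y := by
        rw [DD_neg h2, DD_neg (by omega : hh y < 0)]
        apply map_subset_map.2
        exact Up_mono (sv_tau_update_le hi)
      have h3 : symmDiff (DD x) (DD y) = DD y \ DD x := by
        rw [symmDiff_def, sdiff_eq_bot_iff.2 hsub]
        simp
      rw [h3]
      have h4 := card_sdiff_add_card_eq_card hsub
      rw [abs_of_neg (by omega)] at hcy
      rw [abs_of_neg h2] at hcx
      omega
    · have h3 : (symmDiff (DD x) (DD y)).card ≤ (DD x).card + (DD y).card := by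
        refine (card_le_card ?_).trans (card_union_le _ _)
        intro j hj
        rw [mem_symmDiff] at hj
        rw [mem_union]
        tauto
      rw [abs_of_nonneg h2] at hcx
      rw [abs_of_nonpos h1] at hcy
      omega

lemma dist_rho_aux {x : ZMod (n + 1) → Bool} {i : ZMod (n + 1)} (hi : x i = true)
    [DecidableEq (ZMod (n + 1))] :
    hammingDist (rho x) (rho (Function.update x i false)) ≤ 3 := by
  set y := Function.update x i false with hy
  have h1 : (univ.filter fun j => rho x j ≠ rho y j) ⊆ insert i (symmDiff (DD x) (DD y)) := by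
    intro j hj
    rw [mem_filter] at hj
    rw [mem_insert]
    by_contra hcon
    push Not at hcon
    obtain ⟨hji, hjs⟩ := hcon
    have hxy : y j = x j := by rw [hy]; simp [hji]
    rw [mem_symmDiff] at hjs
    apply hj.2
    by_cases h1 : j ∈ DD x
    · have h2 : j ∈ DD y := by
        by_contra h2; exact hjs (Or.inl ⟨h1, h2⟩)
      rw [rho_of_mem h1, rho_of_mem h2, hxy]
    · have h2 : j ∉ DD y := by
        intro h2; exact hjs (Or.inr ⟨h2, h1⟩)
      rw [rho_of_not_mem h1, rho_of_not_mem h2, hxy]
  unfold hammingDist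
  refine (card_le_card h1).trans ((card_insert_le _ _).trans ?_)
  have := card_symmDiff_DD hi
  rw [← hy] at this
  omega

lemma dist_rho [DecidableEq (ZMod (n + 1))] (x : ZMod (n + 1) → Bool) (i : ZMod (n + 1)) :
    hammingDist (rho x) (rho (Function.update x i (!(x i)))) ≤ 3 := by
  cases hx : x i
  · have h1 : (Function.update x i true) i = true := by simp
    have h2 := dist_rho_aux h1
    rw [Function.update_idem] at h2
    have h3 : Function.update x i false = x := by
      rw [← hx]; exact Function.update_eq_self i x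
    rw [h3] at h2
    rw [hammingDist_comm]
    exact h2
  · exact dist_rho_aux hx

/-! ## Weights -/

lemma wt_eq_sum {κ : Type} [Fintype κ] (x : κ → Bool) :
    wt x = ∑ i, (if x i = true then 1 else 0) := by
  unfold wt
  rw [card_filter]

lemma dist_eq_sum {κ : Type} [Fintype κ] (x y : κ → Bool) :
    hammingDist x y = ∑ i, (if x i ≠ y i then 1 else 0) := by
  unfold hammingDist
  rw [card_filter]

lemma hh_eq_wt (x : ZMod (n + 1) → Bool) : hh x = 2 * (wt x : ℤ) - (n + 1) := by
  rw [wt_eq_sum]
  unfold hh
  have h1 : ∀ i, sg (x i) = 2 * (if x i = true then 1 else 0) - 1 := by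
    intro i
    cases x i <;> simp [sg]
  simp only [h1, sum_sub_distrib]
  rw [← mul_sum]
  simp

/-- The reflection exists over every finite type. -/
theorem exists_rho (κ : Type) [Fintype κ] [DecidableEq κ] :
    ∃ r : (κ → Bool) → (κ → Bool), Function.Injective r ∧
      (∀ x, wt (r x) + wt x = Fintype.card κ) ∧
      (∀ x, (hammingDist x (r x) : ℤ) = |(wt x : ℤ) - (wt (r x) : ℤ)|) ∧
      (∀ x i, hammingDist (r x) (r (Function.update x i (!(x i)))) ≤ 3) := by
  classical
  rcases Nat.eq_zero_or_pos (Fintype.card κ) with h0 | h0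
  · have he : IsEmpty κ := Fintype.card_eq_zero_iff.1 h0
    refine ⟨id, Function.injective_id, fun x => ?_, fun x => ?_, fun x i => he.elim i⟩
    · rw [h0]
      simp [wt]
    · simp
  · obtain ⟨n, hn⟩ : ∃ n, Fintype.card κ = n + 1 := ⟨Fintype.card κ - 1, by omega⟩
    have hcard : Fintype.card κ = Fintype.card (ZMod (n + 1)) := by rw [ZMod.card]; exact hn
    let e : κ ≃ ZMod (n + 1) := Fintype.equivOfCardEq hcard
    have hwt : ∀ y : ZMod (n + 1) → Bool, wt (fun k => y (e k)) = wt y := by
      intro y
      rw [wt_eq_sum, wt_eq_sum]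
      exact Equiv.sum_comp e (fun i => if y i = true then 1 else 0)
    have hwt' : ∀ x : κ → Bool, wt (fun i => x (e.symm i)) = wt x := by
      intro x
      rw [wt_eq_sum, wt_eq_sum]
      exact Equiv.sum_comp e.symm (fun i => if x i = true then 1 else 0)
    have hdist : ∀ y z : ZMod (n + 1) → Bool,
        hammingDist (fun k => y (e k)) (fun k => z (e k)) = hammingDist y z := by
      intro y z
      rw [dist_eq_sum, dist_eq_sum]
      exact Equiv.sum_comp e (fun i => if y i ≠ z i then 1 else 0)
    refine ⟨fun x k => rho (fun i => x (e.symm i)) (e k), ?_, ?_, ?_, ?_⟩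
    · intro x y hxy
      have h1 : rho (fun i => x (e.symm i)) = rho (fun i => y (e.symm i)) := by
        funext i
        have := congrFun hxy (e.symm i)
        simpa using this
      have h2 := congrArg rho h1
      rw [rho_rho, rho_rho] at h2
      funext k
      have := congrFun h2 (e k)
      simpa using this
    · intro x
      rw [hwt, ← hwt' x, hn]
      have h1 := hh_rho (fun i => x (e.symm i))
      rw [hh_eq_wt, hh_eq_wt] at h1
      omega
    · intro x
      have h1 : hammingDist x (fun k => rho (fun i => x (e.symm i)) (e k)) =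
          hammingDist (fun i => x (e.symm i)) (rho (fun i => x (e.symm i))) := by
        rw [← hdist]
        simp
      rw [h1, hwt, ← hwt' x]
      set y : ZMod (n + 1) → Bool := fun i => x (e.symm i) with hy
      have h2 : hammingDist y (rho y) = (DD y).card := by
        unfold hammingDist
        congr 1
        ext i
        rw [mem_filter]
        by_cases hi : i ∈ DD y
        · rw [rho_of_mem hi]
          simp [hi]
        · rw [rho_of_not_mem hi]
          simp [hi]
      rw [h2, card_DD]
      have h3 := hh_rho y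
      rw [hh_eq_wt, hh_eq_wt] at h3
      rw [hh_eq_wt]
      congr 1
      omega
    · intro x k
      have h1 : (fun i => Function.update x k (!(x k)) (e.symm i)) =
          Function.update (fun i => x (e.symm i)) (e k) (!(x k)) := by
        funext i
        by_cases hi : i = e k
        · subst hi; simp
        · have : e.symm i ≠ k := fun h => hi (by rw [← h]; simp)
          simp [hi, this]
      simp only [h1]
      rw [hdist]
      have h2 := dist_rho (fun i => x (e.symm i)) (e k)
      simpa using h2

/-- **Lemma A**: reflections of the cube. -/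
theorem exists_reflections (ι : Type) [Fintype ι] [DecidableEq ι] :
    ∃ R : (ι → Bool) → (ι → Bool) → (ι → Bool),
      (∀ J, Function.Injective (R J)) ∧
      (∀ J x, wt (R J x) = wt (xr x J)) ∧
      (∀ J x, (hammingDist x (R J x) : ℤ) = |(wt x : ℤ) - (wt (R J x) : ℤ)|) ∧
      (∀ J x i, hammingDist (R J x) (R J (Function.update x i (!x i))) ≤ 3) := by
  classical
  have H := fun J : ι → Bool => exists_rho {i : ι // J i = true}
  choose r hinj hw hd hl using H
  let R : (ι → Bool) → (ι → Bool) → (ι → Bool) := fun J x i =>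
    if h : J i = true then r J (fun k => x k) ⟨i, h⟩ else x i
  have Rin : ∀ J x (k : {i : ι // J i = true}), R J x k = r J (fun k => x k) k := by
    intro J x k
    simp [R, k.2]
  have Rout : ∀ J x (k : {i : ι // ¬ J i = true}), R J x k = x k := by
    intro J x k
    have := k.2
    simp [R, this]
  -- decomposition of weights and distances
  have Wt : ∀ (J x : ι → Bool), wt x = wt (fun k : {i : ι // J i = true} => x k) +
      wt (fun k : {i : ι // ¬ J i = true} => x k) := by
    intro J x
    rw [wt_eq_sum, wt_eq_sum, wt_eq_sum]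
    exact (Fintype.sum_subtype_add_sum_subtype (fun i => J i = true)
      (fun i => if x i = true then 1 else 0)).symm
  have Ds : ∀ (J x y : ι → Bool), hammingDist x y =
      hammingDist (fun k : {i : ι // J i = true} => x k) (fun k : {i : ι // J i = true} => y k) +
      hammingDist (fun k : {i : ι // ¬ J i = true} => x k)
        (fun k : {i : ι // ¬ J i = true} => y k) := by
    intro J x y
    rw [dist_eq_sum, dist_eq_sum, dist_eq_sum]
    exact (Fintype.sum_subtype_add_sum_subtype (fun i => J i = true)
      (fun i => if x i ≠ y i then 1 else 0)).symm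
  have Rin' : ∀ J x, (fun k : {i : ι // J i = true} => R J x k) = r J (fun k => x k) := by
    intro J x; funext k; exact Rin J x k
  have Rout' : ∀ J x, (fun k : {i : ι // ¬ J i = true} => R J x k) =
      fun k : {i : ι // ¬ J i = true} => x k := by
    intro J x; funext k; exact Rout J x k
  refine ⟨R, ?_, ?_, ?_, ?_⟩
  · intro J x y hxy
    have h1 : (fun k : {i : ι // J i = true} => x k) =
        fun k : {i : ι // J i = true} => y k := by
      apply hinj J
      rw [← Rin', ← Rin', hxy]
    funext i
    by_cases hi : J i = true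
    · exact congrFun h1 ⟨i, hi⟩
    · have h2 := congrFun hxy i
      have h3 := Rout J x ⟨i, hi⟩
      have h4 := Rout J y ⟨i, hi⟩
      simp only at h3 h4
      rw [← h3, ← h4, h2]
  · intro J x
    rw [Wt J (R J x), Wt J (xr x J), Rin', Rout']
    congr 1
    · have h1 := hw J (fun k => x k)
      have h2 : wt (fun k : {i : ι // J i = true} => xr x J k) +
          wt (fun k : {i : ι // J i = true} => x k) = Fintype.card {i : ι // J i = true} := by
        rw [wt_eq_sum, wt_eq_sum, ← sum_add_distrib]
        have h3 : ∀ k : {i : ι // J i = true},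
            (if xr x J k = true then 1 else 0) + (if x k = true then 1 else 0) = 1 := by
          intro k
          have hk := k.2
          unfold xr
          rw [hk]
          cases x k <;> simp
        simp [h3]
      omega
    · congr 1
      funext k
      have hk : J k = false := by
        have := k.2
        cases h : J k
        · rfl
        · exact absurd h this
      unfold xr
      rw [hk]
      simp
  · intro J x
    rw [Ds J x (R J x), Wt J x, Wt J (R J x), Rin', Rout', hammingDist_self, add_zero, hd]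
    push_cast
    congr 1
    ring
  · intro J x i
    rw [Ds J (R J x), Rin', Rin', Rout', Rout']
    by_cases hi : J i = true
    · have h1 : (fun k : {i : ι // J i = true} => Function.update x i (!x i) k) =
          Function.update (fun k : {i : ι // J i = true} => x k) ⟨i, hi⟩
            (!((fun k : {i : ι // J i = true} => x k) ⟨i, hi⟩)) := by
        funext k
        by_cases hk : k = ⟨i, hi⟩
        · subst hk; simp
        · have : (k : ι) ≠ i := fun h => hk (Subtype.ext h)
          simp [hk, this]
      have h2 : (fun k : {i : ι // ¬ J i = true} => Function.update x i (!x i) k) =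
          fun k : {i : ι // ¬ J i = true} => x k := by
        funext k
        have : (k : ι) ≠ i := fun h => k.2 (by rw [h]; exact hi)
        simp [this]
      rw [h1, h2, hammingDist_self, add_zero]
      exact hl J _ _
    · have h1 : (fun k : {i : ι // J i = true} => Function.update x i (!x i) k) =
          fun k : {i : ι // J i = true} => x k := by
        funext k
        have : (k : ι) ≠ i := fun h => hi (by rw [← h]; exact k.2)
        simp [this]
      have h2 : (fun k : {i : ι // ¬ J i = true} => Function.update x i (!x i) k) =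
          Function.update (fun k : {i : ι // ¬ J i = true} => x k) ⟨i, hi⟩
            (!((fun k : {i : ι // ¬ J i = true} => x k) ⟨i, hi⟩)) := by
        funext k
        by_cases hk : k = ⟨i, hi⟩
        · subst hk; simp
        · have : (k : ι) ≠ i := fun h => hk (Subtype.ext h)
          simp [hk, this]
      rw [h1, h2, hammingDist_self, zero_add]
      have h3 : ∀ (κ : Type) [Fintype κ] [DecidableEq κ] (z : κ → Bool) (k : κ) (b : Bool),
          hammingDist z (Function.update z k b) ≤ 1 := by
        intro κ _ _ z k b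
        unfold hammingDist
        refine (card_le_card (t := {k}) ?_).trans (by simp)
        intro j hj
        rw [mem_filter] at hj
        rw [mem_singleton]
        by_contra hjk
        exact hj.2 (by simp [hjk])
      exact (h3 _ _ _ _).trans (by norm_num)

end Pool.Agent.Helper27.Cube
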