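import Mathlib

set_option autoImplicit false

/-! Rejection sampling with a list of random seeds. -/

namespace Pool.Agent.Helper27.Cube

open Finset
open scoped BigOperators

section expect
variable {S : Type} [Fintype S]

lemma expect_cons (k : ℕ) (φ : (Fin (k + 1) → S) → ℝ) :
    𝔼 σ, φ σ = 𝔼 s, 𝔼 τ : Fin k → S, φ (Fin.cons s τ) := by
  have h := Fintype.expect_equiv (Fin.consEquiv (fun _ : Fin (k + 1) => S))
    (fun p : S × (Fin k → S) => φ (Fin.cons p.1 p.2)) φ (fun p => rfl)
  rw [← h]
  have h2 := Finset.expect_product (univ : Finset S) (univ : Finset (Fin k → S))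
    (fun p : S × (Fin k → S) => φ (Fin.cons p.1 p.2))
  rw [univ_product_univ] at h2
  exact h2

lemma expect_eval [Nonempty S] (k : ℕ) (a : Fin k) (φ : S → ℝ) :
    𝔼 σ : Fin k → S, φ (σ a) = 𝔼 s, φ s := by
  induction k with
  | zero => exact a.elim0
  | succ k ih =>
    rw [expect_cons]
    refine Fin.cases ?_ (fun b => ?_) a
    · simp
    · simp only [Fin.cons_succ]
      rw [Fintype.expect_const]
      exact ih b

lemma expect_sum_eval [Nonempty S] (k : ℕ) (φ : S → ℝ) :
    𝔼 σ : Fin k → S, ∑ a, φ (σ a) = k * 𝔼 s, φ s := by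
  rw [Finset.expect_sum_comm]
  simp [expect_eval]

/-- second moment of a sum of independent centred variables -/
lemma expect_sq_sum [Nonempty S] (φ : S → ℝ) (h0 : 𝔼 s, φ s = 0) (k : ℕ) :
    𝔼 σ : Fin k → S, (∑ a, φ (σ a)) ^ 2 = k * 𝔼 s, φ s ^ 2 := by
  induction k with
  | zero => simp
  | succ k ih =>
    rw [expect_cons]
    have h1 : ∀ s, 𝔼 τ : Fin k → S, (∑ a, φ ((Fin.cons s τ : Fin (k + 1) → S) a)) ^ 2 =
        φ s ^ 2 + k * 𝔼 s, φ s ^ 2 := by
      intro s
      have h2 : ∀ τ : Fin k → S, (∑ a, φ ((Fin.cons s τ : Fin (k + 1) → S) a)) ^ 2 =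
          φ s ^ 2 + (2 * φ s * (∑ a, φ (τ a)) + (∑ a, φ (τ a)) ^ 2) := by
        intro τ
        rw [Fin.sum_univ_succ]
        simp only [Fin.cons_zero, Fin.cons_succ]
        ring
      simp only [h2]
      rw [Finset.expect_add_distrib, Finset.expect_add_distrib, Fintype.expect_const,
        ← Finset.mul_expect, expect_sum_eval, h0, ih]
      ring
    simp only [h1]
    rw [Finset.expect_add_distrib, Fintype.expect_const]
    push_cast
    ring

lemma expect_abs_sum_le [Nonempty S] (φ : S → ℝ) (h0 : 𝔼 s, φ s = 0) (k : ℕ) :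
    𝔼 σ : Fin k → S, |∑ a, φ (σ a)| ≤ Real.sqrt (k * 𝔼 s, φ s ^ 2) := by
  rw [← expect_sq_sum φ h0 k]
  apply Real.le_sqrt_of_sq_le
  have h := Finset.expect_mul_sq_le_sq_mul_sq (univ : Finset (Fin k → S))
    (fun σ => |∑ a, φ (σ a)|) (fun _ => 1)
  simpa [Fintype.expect_const, sq_abs] using h

end expect

lemma geom_bound {u : ℕ → ℝ} {β p : ℝ} (hp0 : 0 < p) (hp1 : p ≤ 1) (hβ : 0 ≤ β) (h0 : u 0 ≤ 0)
    (h : ∀ k, u (k + 1) ≤ β + (1 - p) * u k) (k : ℕ) : u k ≤ β / p := by
  induction k with
  | zero => exact h0.trans (by positivity)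
  | succ k ih =>
    refine (h k).trans ?_
    have h1 : (1 - p) * u k ≤ (1 - p) * (β / p) :=
      mul_le_mul_of_nonneg_left ih (by linarith)
    have h2 : β + (1 - p) * (β / p) = β / p := by field_simp; ring
    linarith

section sampling

variable {X S : Type} [Fintype X] [DecidableEq X] [Fintype S] [Nonempty S]
  (acc : X → S → Prop) [∀ x s, Decidable (acc x s)] (mv : S → X → X)

/-- Try the seeds one after the other; move along the first accepted one. -/
def out : (k : ℕ) → (Fin k → S) → X → Option X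
  | 0, _, _ => none
  | (k + 1), σ, x => if acc x (σ 0) then some (mv (σ 0) x) else out k (fun i => σ i.succ) x

omit [Fintype X] [DecidableEq X] [Fintype S] [Nonempty S] in
@[simp] lemma out_zero (σ : Fin 0 → S) (x : X) : out acc mv 0 σ x = none := rfl

omit [Fintype X] [DecidableEq X] [Fintype S] [Nonempty S] in
lemma out_cons (k : ℕ) (s : S) (τ : Fin k → S) (x : X) :
    out acc mv (k + 1) (Fin.cons s τ) x = if acc x s then some (mv s x) else out acc mv k τ x := by
  simp [out]

/-- number of preimages, as a real number -/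
noncomputable def cnt (k : ℕ) (σ : Fin k → S) (z : X) : ℝ :=
  ∑ x, if out acc mv k σ x = some z then (1 : ℝ) else 0

omit [Fintype S] [Nonempty S] in
lemma cnt_cons (k : ℕ) (s : S) (τ : Fin k → S) (z : X) :
    cnt acc mv (k + 1) (Fin.cons s τ) z =
      (∑ x, if acc x s ∧ mv s x = z then (1 : ℝ) else 0) +
        ∑ x, (if acc x s then (0 : ℝ) else 1) * (if out acc mv k τ x = some z then (1 : ℝ) else 0) := by
  rw [cnt, ← Finset.sum_add_distrib]
  refine Finset.sum_congr rfl fun x _ => ?_
  rw [out_cons]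
  by_cases h : acc x s <;> simp [h]

omit [Fintype S] [Nonempty S] in
lemma cnt_nonneg (k : ℕ) (σ : Fin k → S) (z : X) : 0 ≤ cnt acc mv k σ z :=
  Finset.sum_nonneg fun x _ => by split <;> norm_num

omit [Fintype S] [Nonempty S] in
lemma cnt_le (hinj : ∀ s, Function.Injective (mv s)) (k : ℕ) (σ : Fin k → S) (z : X) :
    cnt acc mv k σ z ≤ k := by
  induction k with
  | zero => simp [cnt]
  | succ k ih =>
    obtain ⟨s, τ, rfl⟩ : ∃ (s : S) (τ : Fin k → S), σ = Fin.cons s τ :=
      ⟨σ 0, fun i => σ i.succ, (Fin.cons_self_tail σ).symm⟩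
    rw [cnt_cons]
    have h1 : (∑ x, if acc x s ∧ mv s x = z then (1 : ℝ) else 0) ≤ 1 := by
      have h2 : (∑ x, if acc x s ∧ mv s x = z then (1 : ℝ) else 0) =
          ((univ.filter (fun x => acc x s ∧ mv s x = z)).card : ℝ) := by
        rw [Finset.sum_boole]
      rw [h2]
      have h3 : (univ.filter (fun x => acc x s ∧ mv s x = z)).card ≤ 1 := by
        rw [Finset.card_le_one]
        intro a ha b hb
        simp only [mem_filter, mem_univ, true_and] at ha hb
        exact hinj s (ha.2.trans hb.2.symm)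
      exact_mod_cast h3
    have h2 : (∑ x, (if acc x s then (0 : ℝ) else 1) *
        (if out acc mv k τ x = some z then (1 : ℝ) else 0)) ≤ cnt acc mv k τ z := by
      rw [cnt]
      refine Finset.sum_le_sum fun x _ => ?_
      by_cases h : acc x s <;> by_cases h' : out acc mv k τ x = some z <;> simp [h, h']
    push_cast
    linarith [ih τ]

variable (p : ℝ)

omit [Fintype X] [DecidableEq X] in
lemma expect_not_acc (hp : ∀ x, 𝔼 s, (if acc x s then (1 : ℝ) else 0) = p) (x : X) :
    𝔼 s, (if acc x s then (0 : ℝ) else 1) = 1 - p := by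
  have h : ∀ s, (if acc x s then (0 : ℝ) else 1) = 1 - (if acc x s then (1 : ℝ) else 0) := by
    intro s; by_cases h : acc x s <;> simp [h]
  simp only [h]
  rw [Finset.expect_sub_distrib, Fintype.expect_const, hp]

omit [Fintype X] [DecidableEq X] in
lemma expect_none (hp : ∀ x, 𝔼 s, (if acc x s then (1 : ℝ) else 0) = p) (k : ℕ) (x : X) :
    𝔼 σ : Fin k → S, (if out acc mv k σ x = none then (1 : ℝ) else 0) = (1 - p) ^ k := by
  induction k with
  | zero => simp
  | succ k ih =>
    rw [expect_cons]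
    have h1 : ∀ s, 𝔼 τ : Fin k → S,
        (if out acc mv (k + 1) (Fin.cons s τ) x = none then (1 : ℝ) else 0) =
        (if acc x s then (0 : ℝ) else 1) * (1 - p) ^ k := by
      intro s
      rw [← ih]
      by_cases h : acc x s
      · simp [out_cons, h]
      · simp [out_cons, h]
    simp only [h1]
    rw [← Finset.expect_mul, expect_not_acc acc p hp, pow_succ]
    ring

/-- expected one step load -/
noncomputable def load (z : X) : ℝ := 𝔼 s, ∑ x, if acc x s ∧ mv s x = z then (1 : ℝ) else 0

omit [Nonempty S] in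
lemma load_nonneg (z : X) : 0 ≤ load acc mv z :=
  Finset.expect_nonneg fun s _ => Finset.sum_nonneg fun x _ => by split <;> norm_num

lemma expect_cnt_le (hp : ∀ x, 𝔼 s, (if acc x s then (1 : ℝ) else 0) = p) (hp0 : 0 < p)
    (hp1 : p ≤ 1) (k : ℕ) (z : X) :
    𝔼 σ : Fin k → S, cnt acc mv k σ z ≤ load acc mv z / p := by
  refine geom_bound (u := fun k => 𝔼 σ : Fin k → S, cnt acc mv k σ z) hp0 hp1
    (load_nonneg acc mv z) (by simp [cnt]) (fun k => ?_) k
  rw [expect_cons]
  have h1 : ∀ s, 𝔼 τ : Fin k → S, cnt acc mv (k + 1) (Fin.cons s τ) z =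
      (∑ x, if acc x s ∧ mv s x = z then (1 : ℝ) else 0) +
        ∑ x, (if acc x s then (0 : ℝ) else 1) *
          𝔼 τ : Fin k → S, (if out acc mv k τ x = some z then (1 : ℝ) else 0) := by
    intro s
    simp only [cnt_cons]
    rw [Finset.expect_add_distrib, Fintype.expect_const, Finset.expect_sum_comm]
    simp only [← Finset.mul_expect]
  have h2 : 𝔼 s, ∑ x, (if acc x s then (0 : ℝ) else 1) *
      𝔼 τ : Fin k → S, (if out acc mv k τ x = some z then (1 : ℝ) else 0) =
      (1 - p) * 𝔼 τ : Fin k → S, cnt acc mv k τ z := by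
    rw [Finset.expect_sum_comm]
    simp only [← Finset.expect_mul, expect_not_acc acc p hp]
    rw [← Finset.mul_sum, ← Finset.expect_sum_comm]
    rfl
  simp only [h1]
  rw [Finset.expect_add_distrib, h2]
  exact le_of_eq rfl

/-- displacement -/
noncomputable def disp (d : X → X → ℝ) (k : ℕ) (σ : Fin k → S) (x : X) : ℝ :=
  match out acc mv k σ x with
  | none => 0
  | some z => d x z

/-- stretch of an edge -/
noncomputable def ecost (d : X → X → ℝ) (k : ℕ) (σ : Fin k → S) (x y : X) : ℝ :=
  match out acc mv k σ x, out acc mv k σ y with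
  | some z, some z' => d z z'
  | _, _ => 0

omit [Fintype X] [DecidableEq X] [Fintype S] [Nonempty S] in
lemma disp_cons (d : X → X → ℝ) (k : ℕ) (s : S) (τ : Fin k → S) (x : X) :
    disp acc mv d (k + 1) (Fin.cons s τ) x = if acc x s then d x (mv s x) else disp acc mv d k τ x := by
  unfold disp
  rw [out_cons]
  by_cases h : acc x s <;> simp [h]

omit [Fintype X] [DecidableEq X] [Fintype S] [Nonempty S] in
lemma disp_nonneg (d : X → X → ℝ) (hd : ∀ x y, 0 ≤ d x y) (k : ℕ) (σ : Fin k → S) (x : X) :
    0 ≤ disp acc mv d k σ x := by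
  unfold disp
  split
  · exact le_rfl
  · exact hd _ _

/-- expected one step displacement -/
noncomputable def dload (d : X → X → ℝ) (x : X) : ℝ := 𝔼 s, if acc x s then d x (mv s x) else 0

omit [Fintype X] [DecidableEq X] in
lemma expect_disp_le (hp : ∀ x, 𝔼 s, (if acc x s then (1 : ℝ) else 0) = p) (hp0 : 0 < p)
    (hp1 : p ≤ 1) (d : X → X → ℝ) (hd : ∀ x y, 0 ≤ d x y) (k : ℕ) (x : X) :
    𝔼 σ : Fin k → S, disp acc mv d k σ x ≤ dload acc mv d x / p := by
  refine geom_bound (u := fun k => 𝔼 σ : Fin k → S, disp acc mv d k σ x) hp0 hp1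
    (Finset.expect_nonneg fun s _ => by split; exacts [hd _ _, le_rfl]) (by simp [disp]) (fun k => ?_) k
  rw [expect_cons]
  have h1 : ∀ s, 𝔼 τ : Fin k → S, disp acc mv d (k + 1) (Fin.cons s τ) x =
      (if acc x s then d x (mv s x) else 0) +
        (if acc x s then (0 : ℝ) else 1) * 𝔼 τ : Fin k → S, disp acc mv d k τ x := by
    intro s
    by_cases h : acc x s
    · simp [disp_cons, h]
    · simp [disp_cons, h]
  simp only [h1]
  rw [Finset.expect_add_distrib, ← Finset.expect_mul, expect_not_acc acc p hp]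

/-- both accepted -/
noncomputable def Aload (d : X → X → ℝ) (x y : X) : ℝ :=
  𝔼 s, if acc x s ∧ acc y s then d (mv s x) (mv s y) else 0

/-- accepted for `x` only: displacement of `x` -/
noncomputable def Bload (d : X → X → ℝ) (x y : X) : ℝ :=
  𝔼 s, if acc x s ∧ ¬ acc y s then d x (mv s x) else 0

/-- accepted for `x` only: probability -/
noncomputable def Cload (x y : X) : ℝ := 𝔼 s, if acc x s ∧ ¬ acc y s then (1 : ℝ) else 0

/-- the resulting bound for an edge -/
noncomputable def ebound (d : X → X → ℝ) (p : ℝ) (x y : X) : ℝ :=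
  Aload acc mv d x y + (Bload acc mv d x y + Bload acc mv d y x) +
    (Cload acc x y + Cload acc y x) * d x y +
    (Cload acc x y * (dload acc mv d y / p) + Cload acc y x * (dload acc mv d x / p))

omit [Fintype X] [DecidableEq X] [Nonempty S] in
lemma Cload_nonneg (x y : X) : 0 ≤ Cload acc x y :=
  Finset.expect_nonneg fun s _ => by split <;> norm_num

omit [Fintype X] [DecidableEq X] [Fintype S] [Nonempty S] in
lemma ecost_cons_le (d : X → X → ℝ) (hd : ∀ x y, 0 ≤ d x y) (hsymm : ∀ x y, d x y = d y x)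
    (htri : ∀ x y z, d x z ≤ d x y + d y z) (k : ℕ) (s : S) (τ : Fin k → S) (x y : X) :
    ecost acc mv d (k + 1) (Fin.cons s τ) x y ≤
      (if acc x s ∧ acc y s then d (mv s x) (mv s y) else 0) +
      ((if acc x s ∧ ¬ acc y s then d x (mv s x) else 0) +
       (if acc x s ∧ ¬ acc y s then (1 : ℝ) else 0) * (d x y + disp acc mv d k τ y)) +
      ((if acc y s ∧ ¬ acc x s then d y (mv s y) else 0) +
       (if acc y s ∧ ¬ acc x s then (1 : ℝ) else 0) * (d x y + disp acc mv d k τ x)) +
      (if acc x s then (0 : ℝ) else 1) * ecost acc mv d k τ x y := by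
  have hy0 := disp_nonneg acc mv d hd k τ y
  have hx0 := disp_nonneg acc mv d hd k τ x
  have hec0 : 0 ≤ ecost acc mv d k τ x y := by
    unfold ecost
    split
    · exact hd _ _
    · exact le_rfl
  by_cases hx : acc x s
  · by_cases hy : acc y s
    · simp [ecost, out_cons, hx, hy]
    · have hL : ecost acc mv d (k + 1) (Fin.cons s τ) x y ≤ d x (mv s x) + (d x y + disp acc mv d k τ y) := by
        unfold ecost disp
        simp only [out_cons, hx, hy, if_true, if_false]
        cases hout : out acc mv k τ y with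
        | none => simp only []; have := hd x (mv s x); have := hd x y; linarith
        | some z =>
          simp only []
          have h1 := htri (mv s x) x z
          have h2 := htri x y z
          have h3 := hsymm (mv s x) x
          linarith
      refine hL.trans (le_of_eq ?_)
      simp [hx, hy]
  · by_cases hy : acc y s
    · have hL : ecost acc mv d (k + 1) (Fin.cons s τ) x y ≤ d y (mv s y) + (d x y + disp acc mv d k τ x) := by
        unfold ecost disp
        simp only [out_cons, hx, hy, if_true, if_false]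
        cases hout : out acc mv k τ x with
        | none => simp only []; have := hd y (mv s y); have := hd x y; linarith
        | some z =>
          simp only []
          have h1 := htri z y (mv s y)
          have h2 := htri z x y
          have h3 := hsymm z x
          linarith
      have hR : (if acc x s ∧ acc y s then d (mv s x) (mv s y) else 0) +
          ((if acc x s ∧ ¬ acc y s then d x (mv s x) else 0) +
           (if acc x s ∧ ¬ acc y s then (1 : ℝ) else 0) * (d x y + disp acc mv d k τ y)) +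
          ((if acc y s ∧ ¬ acc x s then d y (mv s y) else 0) +
           (if acc y s ∧ ¬ acc x s then (1 : ℝ) else 0) * (d x y + disp acc mv d k τ x)) +
          (if acc x s then (0 : ℝ) else 1) * ecost acc mv d k τ x y =
          d y (mv s y) + (d x y + disp acc mv d k τ x) + ecost acc mv d k τ x y := by
        simp [hx, hy]
      rw [hR]
      linarith
    · have hL : ecost acc mv d (k + 1) (Fin.cons s τ) x y = ecost acc mv d k τ x y := by
        unfold ecost
        simp only [out_cons, hx, hy, if_false]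
      rw [hL]
      apply le_of_eq
      simp [hx, hy]

omit [Fintype X] [DecidableEq X] in
lemma expect_ecost_le (hp : ∀ x, 𝔼 s, (if acc x s then (1 : ℝ) else 0) = p) (hp0 : 0 < p)
    (hp1 : p ≤ 1) (d : X → X → ℝ) (hd : ∀ x y, 0 ≤ d x y) (hsymm : ∀ x y, d x y = d y x)
    (htri : ∀ x y z, d x z ≤ d x y + d y z) (k : ℕ) (x y : X) :
    𝔼 σ : Fin k → S, ecost acc mv d k σ x y ≤ ebound acc mv d p x y / p := by
  have hdl : ∀ x, 0 ≤ dload acc mv d x := fun x =>
    Finset.expect_nonneg fun s _ => by split; exacts [hd _ _, le_rfl]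
  have hA : 0 ≤ Aload acc mv d x y := Finset.expect_nonneg fun s _ => by
    split; exacts [hd _ _, le_rfl]
  have hB : ∀ x y, 0 ≤ Bload acc mv d x y := fun x y => Finset.expect_nonneg fun s _ => by
    split; exacts [hd _ _, le_rfl]
  have hC := Cload_nonneg (acc := acc) x y
  have hC' := Cload_nonneg (acc := acc) y x
  have hb0 : 0 ≤ ebound acc mv d p x y := by
    unfold ebound
    have := hB x y
    have := hB y x
    have := hd x y
    have := hdl x
    have := hdl y
    positivity
  refine geom_bound (u := fun k => 𝔼 σ : Fin k → S, ecost acc mv d k σ x y) hp0 hp1 hb0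
    (by simp [ecost]) (fun k => ?_) k
  rw [expect_cons]
  have h1 : ∀ s, 𝔼 τ : Fin k → S, ecost acc mv d (k + 1) (Fin.cons s τ) x y ≤
      (if acc x s ∧ acc y s then d (mv s x) (mv s y) else 0) +
      ((if acc x s ∧ ¬ acc y s then d x (mv s x) else 0) +
       (if acc x s ∧ ¬ acc y s then (1 : ℝ) else 0) * (d x y + dload acc mv d y / p)) +
      ((if acc y s ∧ ¬ acc x s then d y (mv s y) else 0) +
       (if acc y s ∧ ¬ acc x s then (1 : ℝ) else 0) * (d x y + dload acc mv d x / p)) +
      (if acc x s then (0 : ℝ) else 1) * 𝔼 τ : Fin k → S, ecost acc mv d k τ x y := by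
    intro s
    refine (Finset.expect_le_expect fun τ _ =>
      ecost_cons_le acc mv d hd hsymm htri k s τ x y).trans ?_
    rw [Finset.expect_add_distrib, Finset.expect_add_distrib, Finset.expect_add_distrib,
      Finset.expect_add_distrib, Finset.expect_add_distrib, Fintype.expect_const,
      Fintype.expect_const, Fintype.expect_const, ← Finset.mul_expect, ← Finset.mul_expect,
      ← Finset.mul_expect, Finset.expect_add_distrib, Finset.expect_add_distrib,
      Fintype.expect_const]
    have ey := expect_disp_le acc mv p hp hp0 hp1 d hd k y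
    have ex := expect_disp_le acc mv p hp hp0 hp1 d hd k x
    gcongr
  refine (Finset.expect_le_expect fun s _ => h1 s).trans ?_
  rw [Finset.expect_add_distrib, Finset.expect_add_distrib, Finset.expect_add_distrib,
    Finset.expect_add_distrib, Finset.expect_add_distrib, ← Finset.expect_mul,
    ← Finset.expect_mul, ← Finset.expect_mul, expect_not_acc acc p hp]
  have e1 : (𝔼 s, if acc x s ∧ acc y s then d (mv s x) (mv s y) else 0) = Aload acc mv d x y := rfl
  have e2 : (𝔼 s, if acc x s ∧ ¬ acc y s then d x (mv s x) else 0) = Bload acc mv d x y := rfl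
  have e3 : (𝔼 s, if acc x s ∧ ¬ acc y s then (1 : ℝ) else 0) = Cload acc x y := rfl
  have e4 : (𝔼 s, if acc y s ∧ ¬ acc x s then d y (mv s y) else 0) = Bload acc mv d y x := rfl
  have e5 : (𝔼 s, if acc y s ∧ ¬ acc x s then (1 : ℝ) else 0) = Cload acc y x := rfl
  rw [e1, e2, e3, e4, e5]
  unfold ebound
  apply le_of_eq
  ring

/-- The total load of `z` rarely exceeds its capacity. -/
lemma expect_excess_le (hinj : ∀ s, Function.Injective (mv s))
    (hp : ∀ x, 𝔼 s, (if acc x s then (1 : ℝ) else 0) = p) (hp0 : 0 < p)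
    (hp1 : p ≤ 1) (g k : ℕ) (z : X) (cap : ℝ) (hcap : g * (load acc mv z / p) ≤ cap) :
    𝔼 σ : Fin g → Fin k → S, max (∑ a, cnt acc mv k (σ a) z - cap) 0 ≤ Real.sqrt (k * cap) := by
  set μ : ℝ := 𝔼 σ : Fin k → S, cnt acc mv k σ z with hμ
  have hμ1 : μ ≤ load acc mv z / p := expect_cnt_le acc mv p hp hp0 hp1 k z
  have hμ0 : 0 ≤ μ := Finset.expect_nonneg fun σ _ => cnt_nonneg acc mv k σ z
  have hcen : 𝔼 σ : Fin k → S, (cnt acc mv k σ z - μ) = 0 := by
    rw [Finset.expect_sub_distrib, Fintype.expect_const, ← hμ, sub_self]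
  have hsq : 𝔼 σ : Fin k → S, (cnt acc mv k σ z - μ) ^ 2 ≤ k * μ := by
    have h1 : ∀ σ : Fin k → S, (cnt acc mv k σ z - μ) ^ 2 ≤
        k * cnt acc mv k σ z + (μ ^ 2 - 2 * μ * cnt acc mv k σ z) := by
      intro σ
      have h2 := cnt_nonneg acc mv k σ z
      have h3 := cnt_le acc mv hinj k σ z
      nlinarith
    refine (Finset.expect_le_expect fun σ _ => h1 σ).trans ?_
    rw [Finset.expect_add_distrib, Finset.expect_sub_distrib, ← Finset.mul_expect,
      ← Finset.mul_expect, Fintype.expect_const, ← hμ]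
    nlinarith [sq_nonneg μ]
  have h1 : ∀ σ : Fin g → Fin k → S, max (∑ a, cnt acc mv k (σ a) z - cap) 0 ≤
      |∑ a, (cnt acc mv k (σ a) z - μ)| := by
    intro σ
    apply max_le _ (abs_nonneg _)
    refine le_trans ?_ (le_abs_self _)
    rw [Finset.sum_sub_distrib]
    simp only [sum_const, card_univ, Fintype.card_fin, nsmul_eq_mul]
    have : (g : ℝ) * μ ≤ cap := le_trans (by gcongr) hcap
    linarith
  refine (Finset.expect_le_expect fun σ _ => h1 σ).trans ?_
  refine (expect_abs_sum_le (S := Fin k → S) (fun σ => cnt acc mv k σ z - μ) hcen g).trans ?_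
  apply Real.sqrt_le_sqrt
  calc (g : ℝ) * 𝔼 σ : Fin k → S, (cnt acc mv k σ z - μ) ^ 2 ≤ g * (k * μ) := by gcongr
    _ = k * (g * μ) := by ring
    _ ≤ k * (g * (load acc mv z / p)) := by gcongr
    _ ≤ k * cap := by gcongr

/-- Existence of good seeds. -/
lemma exists_seeds (hinj : ∀ s, Function.Injective (mv s))
    (hp : ∀ x, 𝔼 s, (if acc x s then (1 : ℝ) else 0) = p) (hp0 : 0 < p)
    (hp1 : p ≤ 1) (d : X → X → ℝ) (hd : ∀ x y, 0 ≤ d x y) (hsymm : ∀ x y, d x y = d y x)
    (htri : ∀ x y z, d x z ≤ d x y + d y z) (g k : ℕ) (cap : X → ℕ)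
    (hcap : ∀ z, g * (load acc mv z / p) ≤ cap z)
    {I : Type} [Fintype I] (nb : X → I → X) (c1 c2 : ℝ) (hc1 : 0 ≤ c1) (hc2 : 0 ≤ c2) :
    ∃ σ : Fin g → Fin k → S,
      ∑ a, ∑ x, ∑ i, ecost acc mv d k (σ a) x (nb x i) + c1 * ∑ a, ∑ x, disp acc mv d k (σ a) x +
        c2 * (∑ z, max (∑ a, cnt acc mv k (σ a) z - cap z) 0 +
          ∑ a, ∑ x, (if out acc mv k (σ a) x = none then (1 : ℝ) else 0)) ≤
      g * ∑ x, ∑ i, ebound acc mv d p x (nb x i) / p + c1 * (g * ∑ x, dload acc mv d x / p) +
        c2 * (∑ z, Real.sqrt (k * cap z) + g * (Fintype.card X * (1 - p) ^ k)) := by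
  have key : 𝔼 σ : Fin g → Fin k → S,
      (∑ a, ∑ x, ∑ i, ecost acc mv d k (σ a) x (nb x i) + c1 * ∑ a, ∑ x, disp acc mv d k (σ a) x +
        c2 * (∑ z, max (∑ a, cnt acc mv k (σ a) z - cap z) 0 +
          ∑ a, ∑ x, (if out acc mv k (σ a) x = none then (1 : ℝ) else 0))) ≤
      g * ∑ x, ∑ i, ebound acc mv d p x (nb x i) / p + c1 * (g * ∑ x, dload acc mv d x / p) +
        c2 * (∑ z, Real.sqrt (k * cap z) + g * (Fintype.card X * (1 - p) ^ k)) := by
    rw [Finset.expect_add_distrib, Finset.expect_add_distrib, ← Finset.mul_expect,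
      ← Finset.mul_expect, Finset.expect_add_distrib]
    have e1 : 𝔼 σ : Fin g → Fin k → S, ∑ a, ∑ x, ∑ i, ecost acc mv d k (σ a) x (nb x i) ≤
        g * ∑ x, ∑ i, ebound acc mv d p x (nb x i) / p := by
      rw [expect_sum_eval (S := Fin k → S) g (fun τ => ∑ x, ∑ i, ecost acc mv d k τ x (nb x i))]
      gcongr
      rw [Finset.expect_sum_comm]
      gcongr with x _
      rw [Finset.expect_sum_comm]
      gcongr with i _
      exact expect_ecost_le acc mv p hp hp0 hp1 d hd hsymm htri k x (nb x i)
    have e2 : 𝔼 σ : Fin g → Fin k → S, ∑ a, ∑ x, disp acc mv d k (σ a) x ≤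
        g * ∑ x, dload acc mv d x / p := by
      rw [expect_sum_eval (S := Fin k → S) g (fun τ => ∑ x, disp acc mv d k τ x)]
      gcongr
      rw [Finset.expect_sum_comm]
      gcongr with x _
      exact expect_disp_le acc mv p hp hp0 hp1 d hd k x
    have e3 : 𝔼 σ : Fin g → Fin k → S, ∑ z, max (∑ a, cnt acc mv k (σ a) z - cap z) 0 ≤
        ∑ z, Real.sqrt (k * cap z) := by
      rw [Finset.expect_sum_comm]
      gcongr with z _
      exact expect_excess_le acc mv p hinj hp hp0 hp1 g k z (cap z) (hcap z)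
    have e4 : 𝔼 σ : Fin g → Fin k → S,
        ∑ a, ∑ x, (if out acc mv k (σ a) x = none then (1 : ℝ) else 0) =
        g * (Fintype.card X * (1 - p) ^ k) := by
      rw [expect_sum_eval (S := Fin k → S) g
        (fun τ => ∑ x, (if out acc mv k τ x = none then (1 : ℝ) else 0))]
      congr 1
      rw [Finset.expect_sum_comm]
      simp only [expect_none acc mv p hp k]
      simp
    rw [e4]
    gcongr
  obtain ⟨σ, -, hσ⟩ := Finset.exists_le_of_expect_le Finset.univ_nonempty key
  exact ⟨σ, hσ⟩

end sampling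

end Pool.Agent.Helper27.Cube
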