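import Pool.Agent.Helper27.Cube.Transfer
import Pool.Agent.Helper27.Cube.Classes

set_option autoImplicit false

/-! The target set. -/

namespace Pool.Agent.Helper27.Cube

open Finset

section target
variable {d : ℕ}

/-- allowed states -/
def al (k : ℕ) (H : Finset (Fin d → Bool)) (w : ℕ) (γ : Fin d → Bool) : Prop :=
  w + wt γ ≤ k ∨ (w + wt γ = k + 1 ∧ γ ∈ H)

instance (k : ℕ) (H : Finset (Fin d → Bool)) (w : ℕ) (γ : Fin d → Bool) : Decidable (al k H w γ) :=
  inferInstanceAs (Decidable (_ ∨ _))

/-- the core -/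
def Tc (m k : ℕ) (H : Finset (Fin d → Bool)) : Finset ((Fin m → Bool) × (Fin d → Bool)) :=
  univ.filter (fun q => al k H (wt q.1) q.2)

lemma mem_Tc (m k : ℕ) (H : Finset (Fin d → Bool)) (q : (Fin m → Bool) × (Fin d → Bool)) :
    q ∈ Tc m k H ↔ (wt q.1 + wt q.2 ≤ k ∨ (wt q.1 + wt q.2 = k + 1 ∧ q.2 ∈ H)) := by
  unfold Tc
  rw [Finset.mem_filter]
  simp only [mem_univ, true_and]
  rfl

/-- a ball in product coordinates -/
def Bl (m d t : ℕ) : Finset ((Fin m → Bool) × (Fin d → Bool)) :=
  univ.filter (fun q => wt q.1 + wt q.2 ≤ t)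

lemma card_Bl (m t : ℕ) : (Bl m d t).card = ∑ j ∈ range (t + 1), (m + d).choose j := by
  rw [← card_ball]
  refine Finset.card_equiv (splitE (finSumFinEquiv (m := m) (n := d)).symm).symm ?_
  intro q
  simp only [Bl, mem_filter, mem_univ, true_and]
  rw [wt_split (finSumFinEquiv (m := m) (n := d)).symm, Equiv.apply_symm_apply]

lemma sum_Tc (m k : ℕ) (H : Finset (Fin d → Bool)) :
    ∑ z : Fin m → Bool, (univ.filter (fun γ => al k H (wt z) γ)).card = (Tc m k H).card := by
  unfold Tc
  rw [Finset.card_filter, ← univ_product_univ, Finset.sum_product]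
  refine Finset.sum_congr rfl fun z _ => ?_
  rw [Finset.card_filter]

lemma exists_H (m k M : ℕ) (h1 : (Bl m d k).card ≤ M) (h2 : M < (Bl m d (k + 1)).card) :
    ∃ H : Finset (Fin d → Bool), (Tc m k H).card ≤ M ∧ M ≤ (Tc m k H).card + 2 ^ m := by
  classical
  have hne : (univ.filter (fun H : Finset (Fin d → Bool) => (Tc m k H).card ≤ M)).Nonempty := by
    refine ⟨∅, ?_⟩
    simp only [mem_filter, mem_univ, true_and]
    refine le_trans (Finset.card_le_card ?_) h1
    intro q hq
    simp only [mem_Tc, Bl, mem_filter, mem_univ, true_and, notMem_empty, and_false, or_false] at hq ⊢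
    exact hq
  obtain ⟨H, hH, hmax⟩ := Finset.exists_max_image _ (fun H : Finset (Fin d → Bool) => H.card) hne
  simp only [mem_filter, mem_univ, true_and] at hH hmax
  refine ⟨H, hH, ?_⟩
  have hex : ∃ γ, γ ∉ H := by
    by_contra hcon
    push Not at hcon
    have : (Bl m d (k + 1)).card ≤ (Tc m k H).card := by
      refine Finset.card_le_card ?_
      intro q hq
      simp only [mem_Tc, Bl, mem_filter, mem_univ, true_and] at hq ⊢
      rcases Nat.lt_or_ge k (wt q.1 + wt q.2) with h | h
      · right; exact ⟨by omega, hcon _⟩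
      · left; exact h
    omega
  obtain ⟨γ, hγ⟩ := hex
  have h3 : ¬ (Tc m k (insert γ H)).card ≤ M := by
    intro h
    have := hmax (insert γ H) h
    rw [Finset.card_insert_of_notMem hγ] at this
    omega
  have h4 : (Tc m k (insert γ H)).card ≤ (Tc m k H).card + 2 ^ m := by
    calc (Tc m k (insert γ H)).card ≤ (Tc m k H ∪ Finset.image (fun z => (z, γ)) univ).card := by
          refine Finset.card_le_card ?_
          intro q hq
          simp only [mem_Tc, mem_univ, true_and, mem_insert, mem_union, mem_image] at hq ⊢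
          rcases hq with hq | ⟨h5, h6 | h6⟩
          · left; left; exact hq
          · right; exact ⟨q.1, by rw [← h6]⟩
          · left; right; exact ⟨h5, h6⟩
      _ ≤ (Tc m k H).card + (Finset.image (fun z : Fin m → Bool => (z, γ)) univ).card :=
          Finset.card_union_le _ _
      _ ≤ _ := by
          gcongr
          refine Finset.card_image_le.trans ?_
          simp
  omega

/-- the final target set -/
lemma exists_T (m k M : ℕ) (H : Finset (Fin d → Bool)) (h1 : (Tc m k H).card ≤ M)
    (h2 : M ≤ (Bl m d (k + 1)).card) :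
    ∃ T : Finset ((Fin m → Bool) × (Fin d → Bool)), Tc m k H ⊆ T ∧ T ⊆ Bl m d (k + 1) ∧ T.card = M := by
  refine Finset.exists_subsuperset_card_eq ?_ h1 h2
  intro q hq
  simp only [mem_Tc, Bl, mem_filter, mem_univ, true_and] at hq ⊢
  rcases hq with h | h
  · omega
  · omega

end target

/-- A constant fraction of points leaves room for every ancilla. -/
lemma room (m d k : ℕ) (h2 : 2 ^ (m + d) < 4 * ∑ j ∈ range (k + 1 + 1), (m + d).choose j)
    (h3 : ((d : ℝ) + 1) * mu m ≤ 1 / 8) (H : Finset (Fin d → Bool)) :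
    (1 / 8 : ℝ) * 2 ^ m ≤ ((univ.filter (fun z : Fin m → Bool => ∀ γ, al k H (wt z) γ)).card : ℝ) := by
  classical
  set a := (univ.filter (fun z : Fin m → Bool => wt z ≤ k + 1)).card with ha
  set b := (univ.filter (fun z : Fin m → Bool => wt z + d ≤ k)).card with hb
  have hab : a ≤ b + ∑ w ∈ Finset.Icc (k + 1 - d) (k + 1), m.choose w := by
    have e1 : ∑ w ∈ Finset.Icc (k + 1 - d) (k + 1), m.choose w =
        (univ.filter (fun z : Fin m → Bool => wt z ∈ Finset.Icc (k + 1 - d) (k + 1))).card := by
      rw [Finset.card_eq_sum_card_fiberwise (f := wt) (t := Finset.Icc (k + 1 - d) (k + 1))]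
      · refine Finset.sum_congr rfl fun w hw => ?_
        rw [← card_wt_fin, Finset.filter_filter]
        congr 1
        ext z
        simp only [mem_filter, mem_univ, true_and]
        constructor
        · intro h; rw [h]; exact ⟨hw, rfl⟩
        · intro h; exact h.2
      · intro z hz
        simpa using hz
    rw [e1, hb]
    refine le_trans (Finset.card_le_card ?_) (Finset.card_union_le _ _)
    intro z hz
    simp only [mem_filter, mem_univ, true_and, mem_union, Finset.mem_Icc] at hz ⊢
    omega
  have hb2 : (b : ℝ) ≤ ((univ.filter (fun z : Fin m → Bool => ∀ γ, al k H (wt z) γ)).card : ℝ) := by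
    have : b ≤ (univ.filter (fun z : Fin m → Bool => ∀ γ, al k H (wt z) γ)).card := by
      refine Finset.card_le_card ?_
      intro z hz
      simp only [mem_filter, mem_univ, true_and] at hz ⊢
      intro γ
      left
      have := wt_le γ
      rw [Fintype.card_fin] at this
      omega
    exact_mod_cast this
  have ha2 : 2 ^ m < 4 * a := by
    have e1 : (Bl m d (k + 1)).card ≤ a * 2 ^ d := by
      have : (Bl m d (k + 1)) ⊆
          (univ.filter (fun z : Fin m → Bool => wt z ≤ k + 1)) ×ˢ (univ : Finset (Fin d → Bool)) := by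
        intro q hq
        simp only [Bl, mem_filter, mem_univ, true_and, mem_product, and_true] at hq ⊢
        omega
      refine (Finset.card_le_card this).trans ?_
      rw [Finset.card_product]
      simp [ha]
    rw [card_Bl] at e1
    have e2 : 2 ^ m * 2 ^ d < 4 * a * 2 ^ d := by
      calc 2 ^ m * 2 ^ d = 2 ^ (m + d) := by rw [pow_add]
        _ < _ := h2
        _ ≤ 4 * (a * 2 ^ d) := Nat.mul_le_mul_left 4 e1
        _ = _ := by ring
    exact Nat.lt_of_mul_lt_mul_right e2
  have hsum : ((∑ w ∈ Finset.Icc (k + 1 - d) (k + 1), m.choose w : ℕ) : ℝ) ≤ 1 / 8 * 2 ^ m := by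
    push_cast
    calc ∑ w ∈ Finset.Icc (k + 1 - d) (k + 1), (m.choose w : ℝ) ≤
        ∑ w ∈ Finset.Icc (k + 1 - d) (k + 1), (2 ^ m * mu m) :=
          Finset.sum_le_sum fun w _ => choose_le_mu m w
      _ = ((Finset.Icc (k + 1 - d) (k + 1)).card : ℝ) * (2 ^ m * mu m) := by
          rw [Finset.sum_const, nsmul_eq_mul]
      _ ≤ ((d : ℝ) + 1) * (2 ^ m * mu m) := by
          refine mul_le_mul_of_nonneg_right ?_ (mul_nonneg (by positivity) (mu_nonneg m))
          rw [Nat.card_Icc]
          have : k + 1 + 1 - (k + 1 - d) ≤ d + 1 := by omega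
          exact_mod_cast this
      _ = (((d : ℝ) + 1) * mu m) * 2 ^ m := by ring
      _ ≤ _ := by gcongr
  have hab' : (a : ℝ) ≤ b + 1 / 8 * 2 ^ m := by
    have : (a : ℝ) ≤ b + ((∑ w ∈ Finset.Icc (k + 1 - d) (k + 1), m.choose w : ℕ) : ℝ) := by
      exact_mod_cast hab
    linarith
  have ha3 : (2 : ℝ) ^ m < 4 * a := by exact_mod_cast ha2
  linarith

end Pool.Agent.Helper27.Cube
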