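import Pool.Agent.Helper27.Cube.Extend

set_option autoImplicit false

/-! From product coordinates to the cube, and the antipodal copy. -/

namespace Pool.Agent.Helper27.Cube

open Finset

section split
variable {n m e : ℕ}

/-- splitting coordinates -/
def splitE (σ : Fin n ≃ Fin m ⊕ Fin e) : (Fin n → Bool) ≃ (Fin m → Bool) × (Fin e → Bool) where
  toFun x := (fun i => x (σ.symm (Sum.inl i)), fun j => x (σ.symm (Sum.inr j)))
  invFun w := fun t => Sum.elim w.1 w.2 (σ t)
  left_inv x := by
    funext t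
    simp only
    cases h : σ t with
    | inl i => simp only [Sum.elim_inl]; rw [← h, Equiv.symm_apply_apply]
    | inr j => simp only [Sum.elim_inr]; rw [← h, Equiv.symm_apply_apply]
  right_inv w := by
    ext i
    · simp
    · simp

lemma wt_split (σ : Fin n ≃ Fin m ⊕ Fin e) (x : Fin n → Bool) :
    wt x = wt (splitE σ x).1 + wt (splitE σ x).2 := by
  unfold wt
  simp only [Finset.card_filter]
  rw [← Equiv.sum_comp σ.symm, Fintype.sum_sum_type]
  rfl

lemma hammingDist_split (σ : Fin n ≃ Fin m ⊕ Fin e) (x y : Fin n → Bool) :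
    hammingDist x y = hammingDist (splitE σ x).1 (splitE σ y).1 +
      hammingDist (splitE σ x).2 (splitE σ y).2 := by
  unfold hammingDist
  simp only [Finset.card_filter]
  rw [← Equiv.sum_comp σ.symm, Fintype.sum_sum_type]
  rfl

lemma hd_split (σ : Fin n ≃ Fin m ⊕ Fin e) (x y : Fin n → Bool) :
    hd x y = hd2 (splitE σ x) (splitE σ y) := by
  unfold hd hd2
  rw [hammingDist_split σ]
  push_cast
  rfl

lemma split_flip_inl (σ : Fin n ≃ Fin m ⊕ Fin e) (x : Fin n → Bool) (i : Fin m) :
    splitE σ (Function.update x (σ.symm (Sum.inl i)) (!x (σ.symm (Sum.inl i)))) =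
      (Function.update (splitE σ x).1 i (!(splitE σ x).1 i), (splitE σ x).2) := by
  ext j
  · simp only [splitE, Equiv.coe_fn_mk]
    by_cases h : j = i
    · subst h; simp
    · simp [h]
  · simp [splitE]

lemma split_flip_inr (σ : Fin n ≃ Fin m ⊕ Fin e) (x : Fin n → Bool) (j : Fin e) :
    splitE σ (Function.update x (σ.symm (Sum.inr j)) (!x (σ.symm (Sum.inr j)))) =
      ((splitE σ x).1, Function.update (splitE σ x).2 j (!(splitE σ x).2 j)) := by
  ext i
  · simp [splitE]
  · simp only [splitE, Equiv.coe_fn_mk]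
    by_cases h : i = j
    · subst h; simp
    · simp [h]

end split

/-- total stretch in product coordinates -/
noncomputable def TS2 {m d e : ℕ}
    (Ψ : ((Fin m → Bool) × (Fin e → Bool)) → (Fin m → Bool) × (Fin d → Bool)) : ℝ :=
  ∑ x, ∑ a, (∑ i : Fin m, hd2 (Ψ (x, a)) (Ψ (Function.update x i (!x i), a)) +
        ∑ j : Fin e, hd2 (Ψ (x, a)) (Ψ (x, Function.update a j (!a j))))

lemma TS_split {m d e n N : ℕ} (σ : Fin n ≃ Fin m ⊕ Fin e) (τ : Fin N ≃ Fin m ⊕ Fin d)
    (Ψ : ((Fin m → Bool) × (Fin e → Bool)) → (Fin m → Bool) × (Fin d → Bool)) :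
    ∑ x : Fin n → Bool, ∑ i, hd ((splitE τ).symm (Ψ (splitE σ x)))
      ((splitE τ).symm (Ψ (splitE σ (Function.update x i (!x i))))) = TS2 Ψ := by
  let G : (Fin m → Bool) × (Fin e → Bool) → ℝ := fun q =>
    (∑ i : Fin m, hd2 (Ψ (q.1, q.2)) (Ψ (Function.update q.1 i (!q.1 i), q.2)) +
      ∑ j : Fin e, hd2 (Ψ (q.1, q.2)) (Ψ (q.1, Function.update q.2 j (!q.2 j))))
  have h1 : ∀ x : Fin n → Bool, ∑ i, hd ((splitE τ).symm (Ψ (splitE σ x)))
      ((splitE τ).symm (Ψ (splitE σ (Function.update x i (!x i))))) = G (splitE σ x) := by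
    intro x
    rw [← Equiv.sum_comp σ.symm, Fintype.sum_sum_type]
    simp only [split_flip_inl, split_flip_inr, hd_split τ, Equiv.apply_symm_apply]
    rfl
  rw [Finset.sum_congr rfl fun x _ => h1 x]
  have h2 : ∑ x : Fin n → Bool, G (splitE σ x) = ∑ q, G q := Equiv.sum_comp (splitE σ) G
  rw [h2, Fintype.sum_prod_type]
  rfl

/-- complement -/
def cpl {N : ℕ} (b : Bool) (x : Fin N → Bool) : Fin N → Bool := fun t => xor b (x t)

lemma cpl_cpl {N : ℕ} (b : Bool) (x : Fin N → Bool) : cpl b (cpl b x) = x := by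
  funext t; unfold cpl; cases b <;> cases x t <;> rfl

lemma cpl_false {N : ℕ} (x : Fin N → Bool) : cpl false x = x := by
  funext t; unfold cpl; simp

lemma hd_cpl {N : ℕ} (b : Bool) (x y : Fin N → Bool) : hd (cpl b x) (cpl b y) = hd x y := by
  unfold hd hammingDist cpl
  congr 3
  ext t
  cases b <;> cases x t <;> cases y t <;> simp

lemma wt_cpl {N : ℕ} (x : Fin N → Bool) : wt (cpl true x) + wt x = N := by
  unfold wt cpl
  have h := Finset.card_filter_add_card_filter_not (s := (univ : Finset (Fin N)))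
    (fun t => x t = true)
  simp only [card_univ, Fintype.card_fin] at h
  rw [add_comm]
  convert h using 3
  ext t
  cases x t <;> simp

theorem transfer {m d e n N k : ℕ} (σ : Fin n ≃ Fin m ⊕ Fin e) (τ : Fin N ≃ Fin m ⊕ Fin d)
    (Ψ : ((Fin m → Bool) × (Fin e → Bool)) → (Fin m → Bool) × (Fin d → Bool))
    (hinj : Function.Injective Ψ) (hk : ∀ w, wt w.1 + wt w.2 ≤ k → ∃ q, Ψ q = w)
    (hhalf : ∀ q, 2 * (wt (Ψ q).1 + wt (Ψ q).2) < N) :
    ∃ (A : Finset (Fin N → Bool)) (φ : (Fin (n + 1) → Bool) → (Fin N → Bool)),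
      (∀ x, (wt x ≤ k ∨ N - k ≤ wt x) → x ∈ A) ∧ A.card = 2 ^ (n + 1) ∧
      Function.Injective φ ∧ (∀ x, φ x ∈ A) ∧
      ∑ x : Fin (n + 1) → Bool, ∑ i, hd (φ x) (φ (Function.update x i (!x i))) ≤
        2 * (2 ^ n * N + TS2 Ψ) := by
  classical
  set ψ : (Fin n → Bool) → (Fin N → Bool) := fun x => (splitE τ).symm (Ψ (splitE σ x)) with hψ
  have hψinj : Function.Injective ψ := fun x y h => by
    exact (splitE σ).injective (hinj ((splitE τ).symm.injective h))
  have hψwt : ∀ x, 2 * wt (ψ x) < N := by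
    intro x
    rw [wt_split τ, hψ]
    simp only [Equiv.apply_symm_apply]
    exact hhalf _
  have hψsurj : ∀ y, wt y ≤ k → ∃ x, ψ x = y := by
    intro y hy
    rw [wt_split τ] at hy
    obtain ⟨q, hq⟩ := hk _ hy
    refine ⟨(splitE σ).symm q, ?_⟩
    rw [hψ]
    simp only [Equiv.apply_symm_apply]
    rw [hq, Equiv.symm_apply_apply]
  set φ : (Fin (n + 1) → Bool) → (Fin N → Bool) := fun x => cpl (x 0) (ψ (fun i => x i.succ)) with hφ
  have hφinj : Function.Injective φ := by
    intro x y h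
    have h' : cpl (x 0) (ψ (fun i => x i.succ)) = cpl (y 0) (ψ (fun i => y i.succ)) := h
    have h0 : x 0 = y 0 := by
      by_contra hne
      have h1 : cpl true (ψ (fun i => x i.succ)) = ψ (fun i => y i.succ) := by
        funext t
        have := congrFun h' t
        unfold cpl at this ⊢
        revert this hne
        cases x 0 <;> cases y 0 <;> cases ψ (fun i => x i.succ) t <;>
          cases ψ (fun i => y i.succ) t <;> simp
      have h2 := wt_cpl (ψ (fun i => x i.succ))
      rw [h1] at h2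
      have h3 := hψwt (fun i => x i.succ)
      have h4 := hψwt (fun i => y i.succ)
      omega
    rw [h0] at h'
    have h2 : ψ (fun i => x i.succ) = ψ (fun i => y i.succ) := by
      have := congrArg (cpl (y 0)) h'
      rwa [cpl_cpl, cpl_cpl] at this
    have h3 := hψinj h2
    funext t
    refine Fin.cases h0 (fun i => congrFun h3 i) t
  refine ⟨Finset.image φ univ, φ, ?_, ?_, hφinj, fun x => Finset.mem_image_of_mem _ (mem_univ _), ?_⟩
  · intro x hx
    rcases hx with hx | hx
    · obtain ⟨u, hu⟩ := hψsurj x hx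
      refine Finset.mem_image.mpr ⟨Fin.cons false u, mem_univ _, ?_⟩
      rw [hφ]
      simp only [Fin.cons_zero, Fin.cons_succ]
      rw [cpl_false]; exact hu
    · have h1 := wt_cpl x
      obtain ⟨u, hu⟩ := hψsurj (cpl true x) (by omega)
      refine Finset.mem_image.mpr ⟨Fin.cons true u, mem_univ _, ?_⟩
      rw [hφ]
      simp only [Fin.cons_zero, Fin.cons_succ]
      rw [show (fun i => u i) = u from rfl, hu, cpl_cpl]
  · rw [Finset.card_image_of_injective _ hφinj]
    simp
  · have h1 : ∑ x : Fin (n + 1) → Bool, ∑ i, hd (φ x) (φ (Function.update x i (!x i))) =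
        ∑ b : Bool, ∑ u : Fin n → Bool, ∑ i, hd (φ (Fin.cons b u))
          (φ (Function.update (Fin.cons b u : Fin (n + 1) → Bool) i (!(Fin.cons b u : Fin (n + 1) → Bool) i))) := by
      rw [← Equiv.sum_comp (Fin.consEquiv (fun _ : Fin (n + 1) => Bool)), Fintype.sum_prod_type]
      rfl
    rw [h1]
    have h2 : ∀ (b : Bool) (u : Fin n → Bool), ∑ i, hd (φ (Fin.cons b u))
          (φ (Function.update (Fin.cons b u : Fin (n + 1) → Bool) i (!(Fin.cons b u : Fin (n + 1) → Bool) i))) ≤
          N + ∑ i, hd (ψ u) (ψ (Function.update u i (!u i))) := by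
      intro b u
      rw [Fin.sum_univ_succ]
      gcongr with i _
      · exact hd_le _ _
      · rw [Fin.cons_succ, ← Fin.cons_update]
        rw [hφ]
        simp only [Fin.cons_zero, Fin.cons_succ]
        rw [hd_cpl]
    calc _ ≤ ∑ b : Bool, ∑ u : Fin n → Bool, ((N : ℝ) + ∑ i, hd (ψ u) (ψ (Function.update u i (!u i)))) :=
          Finset.sum_le_sum fun b _ => Finset.sum_le_sum fun u _ => h2 b u
      _ = 2 * (2 ^ n * N + ∑ u : Fin n → Bool, ∑ i, hd (ψ u) (ψ (Function.update u i (!u i)))) := by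
          simp [Finset.sum_add_distrib]
          ring
      _ = _ := by rw [hψ, TS_split σ τ Ψ]

end Pool.Agent.Helper27.Cube
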